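import Pool.Agent.LevelWords.Chk2

/-!
# Unimodal words: kernel evaluation of the checks for short windows and of the tables
-/

namespace LevelWords

namespace RunS

theorem w_all (s0 s1 : Bool) : chkW s0 s1 = true := by
  cases s0 <;> cases s1 <;> decide +kernel

theorem tab_all (s0 s1 : Bool) : chkTab s0 s1 = true := by
  cases s0 <;> cases s1 <;> decide +kernel

theorem b_all (s0 s1 : Bool) : chkB s0 s1 = true := by
  cases s0 <;> cases s1 <;> decide +kernel

theorem tA_all (s0 s1 : Bool) : chkT (gA s0 s1) = true := by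
  cases s0 <;> cases s1 <;> decide +kernel

theorem tB_all (s0 s1 : Bool) : chkT (gB s0 s1) = true := by
  cases s0 <;> cases s1 <;> decide +kernel

theorem s2_all (a0 a1 b1 : Bool) : chkS a0 a1 a1 b1 (sg a1) (fun _ => 0) = true := by
  cases a0 <;> cases a1 <;> cases b1 <;> decide +kernel

theorem s3_all (a0 a1 b0 b1 : Bool) :
    chkS a0 a1 b0 b1 (sg a1 + sg b0) (dl (sg a1)) = true := by
  cases a0 <;> cases a1 <;> cases b0 <;> cases b1 <;> decide +kernel

theorem small_all (a1 b0 b1 : Bool) : ∀ P ∈ pat a1 b0 b1, -3 ≤ P.d ∧ P.d ≤ 3 := by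
  have h : (pat a1 b0 b1).all (fun P => decide (-3 ≤ P.d) && decide (P.d ≤ 3)) = true := by
    cases a1 <;> cases b0 <;> cases b1 <;> decide +kernel
  intro P hP
  have := List.all_eq_true.1 h P hP
  simpa only [Bool.and_eq_true, decide_eq_true_eq] using this

end RunS

end LevelWords
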