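import Pool.Agent.LevelWords.Chk2

/-!
# Unimodal words: kernel evaluation of the checks for windows starting in a block with directions
`false`, `false`
-/

namespace LevelWords

namespace Runff

def ds : List ℤ := [.negSucc 2, .negSucc 1, .negSucc 0, .ofNat 0, .ofNat 1, .ofNat 2, .ofNat 3]

theorem p_tt : ds.all (fun d => chkP false false true true d) = true := by
  decide +kernel

theorem p_tf : ds.all (fun d => chkP false false true false d) = true := by
  decide +kernel

theorem p_ft : ds.all (fun d => chkP false false false true d) = true := by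
  decide +kernel

theorem p_ff : ds.all (fun d => chkP false false false false d) = true := by
  decide +kernel

theorem e_tt : ds.all (fun d => chkE1 false false true true d) = true := by
  decide +kernel

theorem e_tf : ds.all (fun d => chkE1 false false true false d) = true := by
  decide +kernel

theorem e_ft : ds.all (fun d => chkE1 false false false true d) = true := by
  decide +kernel

theorem e_ff : ds.all (fun d => chkE1 false false false false d) = true := by
  decide +kernel

theorem f_tt : ds.all (fun d => chkE2 false false true true d) = true := by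
  decide +kernel

theorem f_tf : ds.all (fun d => chkE2 false false true false d) = true := by
  decide +kernel

theorem f_ft : ds.all (fun d => chkE2 false false false true d) = true := by
  decide +kernel

theorem f_ff : ds.all (fun d => chkE2 false false false false d) = true := by
  decide +kernel

theorem mem_ds {d : ℤ} (h1 : -3 ≤ d) (h2 : d ≤ 3) : d ∈ ds := by
  have : d = -3 ∨ d = -2 ∨ d = -1 ∨ d = 0 ∨ d = 1 ∨ d = 2 ∨ d = 3 := by omega
  rcases this with rfl | rfl | rfl | rfl | rfl | rfl | rfl <;> decide

theorem p_all (b0 b1 : Bool) (d : ℤ) (h1 : -3 ≤ d) (h2 : d ≤ 3) :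
    chkP false false b0 b1 d = true := by
  cases b0 <;> cases b1
  · exact List.all_eq_true.1 p_ff d (mem_ds h1 h2)
  · exact List.all_eq_true.1 p_ft d (mem_ds h1 h2)
  · exact List.all_eq_true.1 p_tf d (mem_ds h1 h2)
  · exact List.all_eq_true.1 p_tt d (mem_ds h1 h2)

theorem e_all (b0 b1 : Bool) (d : ℤ) (h1 : -3 ≤ d) (h2 : d ≤ 3) :
    chkE1 false false b0 b1 d = true := by
  cases b0 <;> cases b1
  · exact List.all_eq_true.1 e_ff d (mem_ds h1 h2)
  · exact List.all_eq_true.1 e_ft d (mem_ds h1 h2)
  · exact List.all_eq_true.1 e_tf d (mem_ds h1 h2)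
  · exact List.all_eq_true.1 e_tt d (mem_ds h1 h2)

theorem f_all (b0 b1 : Bool) (d : ℤ) (h1 : -3 ≤ d) (h2 : d ≤ 3) :
    chkE2 false false b0 b1 d = true := by
  cases b0 <;> cases b1
  · exact List.all_eq_true.1 f_ff d (mem_ds h1 h2)
  · exact List.all_eq_true.1 f_ft d (mem_ds h1 h2)
  · exact List.all_eq_true.1 f_tf d (mem_ds h1 h2)
  · exact List.all_eq_true.1 f_tt d (mem_ds h1 h2)

end Runff

end LevelWords
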