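import Pool.Agent.LevelWords.Good
import Pool.Agent.LevelWords.Runtt
import Pool.Agent.LevelWords.Runtf
import Pool.Agent.LevelWords.Runft
import Pool.Agent.LevelWords.Runff
import Pool.Agent.LevelWords.RunS

/-!
# Unimodal words: the certificate
-/

namespace LevelWords

theorem cert : Cert where
  w := RunS.w_all
  tab := RunS.tab_all
  b := RunS.b_all
  tA := RunS.tA_all
  tB := RunS.tB_all
  s2 := RunS.s2_all
  s3 := RunS.s3_all
  small := RunS.small_all
  p a0 a1 := by
    cases a0 <;> cases a1
    exacts [Runff.p_all, Runft.p_all, Runtf.p_all, Runtt.p_all]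
  e1 a0 a1 := by
    cases a0 <;> cases a1
    exacts [Runff.e_all, Runft.e_all, Runtf.e_all, Runtt.e_all]
  e2 a0 a1 := by
    cases a0 <;> cases a1
    exacts [Runff.f_all, Runft.f_all, Runtf.f_all, Runtt.f_all]

end LevelWords
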