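import Pool.Agent.LevelWords.Data

/-!
# Unimodal words: the local checks

All functions are evaluated by the kernel in `LevelWords.Run`.
-/

namespace LevelWords

/-- sign of a direction -/
def sg : Bool → ℤ
  | true => .ofNat 1
  | false => .negSucc 0

/-- `List.all`, by the recursor -/
noncomputable def allL {α : Type} (f : α → Bool) (l : List α) : Bool :=
  List.rec (motive := fun _ => Bool) true
    (fun a _ ih => Bool.rec (motive := fun _ => Bool) false ih (f a)) l

/-- effect of a letter `a` on the difference of the letter counts at the edge from `x` to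
`x + 1` -/
def dl (a x : ℤ) : ℤ := if a = x + 1 then .ofNat 1 else if a = x then .negSucc 0 else .ofNat 0

/-- value at the edge `y` of a difference vector on the edges `-3, ..., 2` -/
def nz (v : List ℤ) (y : ℤ) : ℤ := if y < .negSucc 2 then .ofNat 0 else v.getD (y + 3).toNat 0

/-- changes of a window at its start -/
def lops (a0 a1 : Bool) : List (ℤ → ℤ) :=
  [fun _ => .ofNat 0, fun x => dl 0 x, fun x => dl 0 x + dl (- sg a0) x, fun x => - dl (sg a1) x]

/-- changes of a window at its end -/
def rops (b0 b1 : Bool) (d : ℤ) : List (ℤ → ℤ) :=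
  [fun _ => .ofNat 0, fun x => dl d x, fun x => dl d x + dl (d + sg b1) x,
    fun x => - dl (d - sg b0) x]

/-- a negative value is followed by a positive one -/
def viol (m : ℤ → ℤ) : ℤ → List ℤ → Bool → Bool
  | _, [], _ => false
  | x, d :: ds, neg => (neg && decide (0 < d + m x)) || viol m (x + 1) ds (neg || decide (d + m x < 0))

/-- some change of the window violates unimodality -/
def inadm (a0 a1 b0 b1 : Bool) (d first : ℤ) (asc : List ℤ) : Bool :=
  (lops a0 a1).any fun l => (rops b0 b1 d).any fun r => viol (fun x => l x + r x) first asc false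

/-- `v` occurs in `asc` at the edge `e` -/
def occ (e : ℤ) (v : List ℤ) (first : ℤ) (asc : List ℤ) : Bool :=
  decide (first ≤ e) && v.isPrefixOf (asc.drop (e - first).toNat)

/-- a forbidden pattern occurs -/
def hit (a0 a1 b0 b1 : Bool) (d first : ℤ) (asc : List ℤ) : Bool :=
  if a0 then (pat a1 b0 b1).any fun P => decide (P.d = d) && occ P.e P.v first asc
  else (pat (!a1) (!b0) (!b1)).any fun P => decide (P.d = -d) &&
    occ (- (P.e + P.v.length)) (P.v.reverse.map fun x => -x) first asc

/-- the values are impossible -/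
def refute (a0 a1 b0 b1 : Bool) (d first : ℤ) (asc : List ℤ) : Bool :=
  inadm a0 a1 b0 b1 d first asc || hit a0 a1 b0 b1 d first asc

/-- Exact equations on consecutive fine edges. `vec` lists the known coarse values at the edges
`I, I - 1, ...`; the next fine edge is `2 I + 1` if `odd`, else `2 I`. -/
def run (R : ℤ → List ℤ → Bool) : Bool → ℤ → List ℤ → List ℤ → Bool
  | _, I, vec, [] => R (I - vec.length + 1) vec.reverse
  | true, I, d :: vs, t :: ts =>
    if (t - 8 * d) % 3 = 0 then run R false (I + 1) ((t - 8 * d) / 3 :: d :: vs) ts else true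
  | false, I, d :: d' :: vs, t :: ts =>
    if 8 * d + 3 * d' = t then run R true I (d :: d' :: vs) ts else true
  | _, _, _, _ => false

/-- possible values of a coarse difference -/
def xs : List ℤ := [.ofNat 0, .negSucc 0, .ofNat 1, .negSucc 1, .ofNat 2, .negSucc 2, .ofNat 3,
  .negSucc 3, .ofNat 4, .negSucc 4, .ofNat 5, .negSucc 5, .ofNat 6]

/-- the values `ts` on the fine edges `g, g + 1, ...` are impossible -/
def start (R : ℤ → List ℤ → Bool) (g : ℤ) (ts : List ℤ) : Bool :=
  match ts with
  | t0 :: t1 :: ts' => decide (t0 ≤ 34) && decide (-34 ≤ t0) && decide (t1 ≤ 34) &&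
    decide (-34 ≤ t1) &&
    xs.all fun x => decide ((t0 - 8 * x) % 3 ≠ 0) ||
      (if g % 2 = 1 then run R false (g / 2 + 1) [(t0 - 8 * x) / 3, x] (t1 :: ts')
      else run R true (g / 2) [x, (t0 - 8 * x) / 3] (t1 :: ts'))
  | _ => false

/-- exact values `v` on the fine edges `g, ...` with noise `u` at `0` and `w` at `2 d` -/
def targets (d : ℤ) (u w : List ℤ) : ℤ → List ℤ → List ℤ
  | _, [] => []
  | g, v :: vs => (v - (nz u g + nz w (g - 2 * d))) :: targets d u w (g + 1) vs

/-- residue for the quick test modulo the determinant -/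
def rdt (p : ℤ) (u : List ℤ) : ℕ := ((3 * nz u (p + 1) - 8 * nz u p) % 55).toNat

/-- residue for the quick test modulo `3` -/
def r3 (p : ℤ) (u : List ℤ) : ℕ := ((nz u (p + 1) - nz u p) % 3).toNat

/-- a test for all pairs of noises: the sum of residues is not `0` modulo `m`, or `S` -/
noncomputable def pairs (S : List ℤ → List ℤ → Bool) (q q' : List ℤ → ℕ) (c m : ℕ)
    (lA lB : List (List ℤ)) : Bool :=
  allL (fun u => allL (fun w => Bool.rec (motive := fun _ => Bool) (S u w) true
    (Nat.ble 1 (Nat.mod (Nat.add (Nat.add c (q u)) (q' w)) m))) lB) lA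

/-- the exact values `vs` on the fine edges `g, ...` are impossible for all noises -/
noncomputable def exact (a0 a1 b0 b1 : Bool) (d g : ℤ) (vs : List ℤ) (lA lB : List (List ℤ)) :
    Bool :=
  match vs with
  | [v0, v1] =>
    if g % 2 = 1 then
      pairs (fun u w => start (refute a0 a1 b0 b1 d) g (targets d u w g [v0, v1]))
        (rdt g) (rdt (g - 2 * d)) ((8 * v0 - 3 * v1) % 55).toNat 55 lA lB
    else
      pairs (fun u w => start (refute a0 a1 b0 b1 d) g (targets d u w g [v0, v1]))
        (r3 g) (r3 (g - 2 * d)) ((v0 - v1) % 3).toNat 3 lA lB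
  | v0 :: v1 :: v2 :: vs' =>
    if g % 2 = 1 then
      pairs (fun u w => start (refute a0 a1 b0 b1 d) g (targets d u w g (v0 :: v1 :: v2 :: vs')))
        (rdt g) (rdt (g - 2 * d)) ((8 * v0 - 3 * v1) % 55).toNat 55 lA lB
    else
      pairs (fun u w => start (refute a0 a1 b0 b1 d) g (targets d u w g (v0 :: v1 :: v2 :: vs')))
        (rdt (g + 1)) (rdt (g + 1 - 2 * d)) ((8 * v1 - 3 * v2) % 55).toNat 55 lA lB
  | _ => false

/-- patterns -/
noncomputable def chkP (a0 a1 b0 b1 : Bool) (d : ℤ) : Bool :=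
  allL (fun A => !A.c0 || allL (fun B => allL (fun P =>
    decide (P.d ≠ 2 * d + B.o - A.o) || exact a0 a1 b0 b1 d (A.o + P.e) P.v A.l B.l)
      (pat A.c1 B.c0 B.c1)) (gB b0 b1)) (gA a0 a1)

/-- the event `E1` -/
noncomputable def chkE1 (a0 a1 b0 b1 : Bool) (d : ℤ) : Bool :=
  allL (fun A => allL (fun B =>
    (if 2 ≤ 2 * d + B.o - A.o then
      exact a0 a1 b0 b1 d A.o (List.replicate (2 * d + B.o - A.o).toNat 0) A.l B.l
    else if 2 ≤ A.o - (2 * d + B.o) then
      exact a0 a1 b0 b1 d (2 * d + B.o) (List.replicate (A.o - (2 * d + B.o)).toNat 0) A.l B.l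
    else true)) (gB b0 b1)) (gA a0 a1)

/-- lower bounds for the coarse differences left of a positive one beyond the edge `h` -/
def lb (a0 a1 b0 b1 : Bool) (d h x : ℤ) : ℤ :=
  if x ≤ h then (lops a0 a1).foldl (fun acc l => (rops b0 b1 d).foldl (fun acc r =>
    if 0 ≤ l (h + 1) + r (h + 1) then (if acc < - (l x + r x) then - (l x + r x) else acc)
      else acc) acc) 0
  else 0

/-- fine value from coarse ones -/
def comb (D : ℤ → ℤ) (z : ℤ) : ℤ :=
  if z % 2 = 0 then 8 * D (z / 2) + 3 * D (z / 2 - 1) else 8 * D (z / 2) + 3 * D (z / 2 + 1)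

/-- all values `≥ y` of the last coarse difference are impossible -/
def posOk (R U : ℤ → List ℤ → Bool) (I : ℤ) (vs : List ℤ) : ℕ → ℤ → Bool
  | 0, _ => false
  | n + 1, y => U (I - vs.length) ((y :: vs).reverse) ||
    (R (I - vs.length) ((y :: vs).reverse) && posOk R U I vs n (y + 1))

/-- After a fine value `1`: zeros, and then a positive value. -/
def runE (R U : ℤ → List ℤ → Bool) : Bool → ℤ → List ℤ → List ℤ → Bool
  | _, _, _, [] => true
  | true, I, d :: vs, n :: ns =>
    posOk R U (I + 1) (d :: vs) 8 (- ((n + 8 * d - 1) / 3)) &&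
    (if (- n - 8 * d) % 3 = 0 then runE R U false (I + 1) ((- n - 8 * d) / 3 :: d :: vs) ns
      else true)
  | false, I, d :: d' :: vs, n :: ns =>
    (if 1 ≤ 8 * d + 3 * d' + n then R (I - (d :: d' :: vs).length + 1) (d :: d' :: vs).reverse
      else true) &&
    (if 8 * d + 3 * d' + n = 0 then runE R U true I (d :: d' :: vs) ns else true)
  | _, _, _, _ => false

/-- noise values on the fine edges `g, ..., g + n - 1` -/
def noises (d : ℤ) (u w : List ℤ) : ℕ → ℤ → List ℤ
  | 0, _ => []
  | n + 1, g => (nz u g + nz w (g - 2 * d)) :: noises d u w n (g + 1)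

/-- the event `E2` at the fine site `g`, last noisy edge `2 h + 2` -/
def chkE2at (a0 a1 b0 b1 : Bool) (d h g : ℤ) (u w : List ℤ) : Bool :=
  decide (2 ≤ comb (lb a0 a1 b0 b1 d h) g + (nz u g + nz w (g - 2 * d))) &&
  match noises d u w (2 * h + 3 - g).toNat g with
  | n0 :: n1 :: ns =>
    decide (n0 ≤ 33) && decide (-33 ≤ n0) && decide (n1 ≤ 34) && decide (-34 ≤ n1) &&
    if g % 2 = 1 then
      xs.all fun x => decide ((1 - n0 - 8 * x) % 3 ≠ 0) ||
        (decide (0 < (1 - n0 - 8 * x) / 3) && decide (x < 0)) ||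
          decide (8 * ((1 - n0 - 8 * x) / 3) + 3 * x + n1 < 0) ||
        runE (refute a0 a1 b0 b1 d) (inadm a0 a1 b0 b1 d) false (g / 2 + 1)
          [(1 - n0 - 8 * x) / 3, x] (n1 :: ns)
    else
      xs.all fun x => decide ((1 - n0 - 8 * x) % 3 ≠ 0) ||
        (decide (0 < x) && decide ((1 - n0 - 8 * x) / 3 < 0)) ||
          (decide (x < 0) && decide (8 * x + n1 < 0)) ||
        runE (refute a0 a1 b0 b1 d) (inadm a0 a1 b0 b1 d) true (g / 2)
          [x, (1 - n0 - 8 * x) / 3] (n1 :: ns)
  | _ => true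

noncomputable def chkE2 (a0 a1 b0 b1 : Bool) (d : ℤ) : Bool :=
  allL (fun A => allL (fun B => decide (2 * d + B.o ≠ A.o) ||
    allL (fun u => allL (fun w => chkE2at a0 a1 b0 b1 d (if 0 ≤ d then d else 0) A.o u w) B.l)
      A.l) (gB b0 b1)) (gA a0 a1)

end LevelWords
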