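import Pool.Agent.LevelWords.Chk

/-!
# Unimodal words: checks for far and for short windows, and the tables
-/

namespace LevelWords

/-- left end of a long flat part -/
def farL (o : ℤ) (v : List ℤ) : Bool :=
  decide (nz v 2 = 0) || decide ((- nz v 2) % 3 ≠ 0) ||
  (decide (o ≤ 1) && decide (8 * (- nz v 2 / 3) + nz v 1 ≠ 0)) ||
  (decide (o ≤ 0) && decide (0 < - nz v 2) && decide (0 < 8 * (- nz v 2 / 3) + nz v 0))

/-- right end of a long flat part -/
def farR (o : ℤ) (v : List ℤ) : Bool :=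
  decide (nz v (-3) = 0) || decide ((- nz v (-3)) % 3 ≠ 0) ||
  (decide (-1 ≤ o) && decide (8 * (- nz v (-3) / 3) + nz v (-2) ≠ 0)) ||
  (decide (0 ≤ o) && decide (- nz v (-3) < 0) && decide (8 * (- nz v (-3) / 3) + nz v (-1) < 0))

/-- facts about a table -/
def chkT (t : List Grp) : Bool :=
  t.all fun A => decide (-2 ≤ A.o) && decide (A.o ≤ 2) &&
    A.l.all fun u => decide (u.length = 6) && farL A.o u && farR A.o u

/-- some value of `G` on `g, ..., g + n - 1` is not zero -/
def nonzero (G : ℤ → ℤ) : ℕ → ℤ → Bool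
  | 0, _ => false
  | n + 1, g => decide (G g ≠ 0) || nonzero G n (g + 1)

/-- all values of `G` on `g, ..., g + n - 1` are `≤ 0` -/
def nonpos (G : ℤ → ℤ) : ℕ → ℤ → Bool
  | 0, _ => true
  | n + 1, g => decide (G g ≤ 0) && nonpos G n (g + 1)

/-- the values `vs` do not occur at `g, ...` -/
def differs (G : ℤ → ℤ) : ℤ → List ℤ → Bool
  | _, [] => false
  | g, v :: vs => decide (G g ≠ v) || differs G (g + 1) vs

/-- no event in a window with endpoints `x`, `y` and differences `G` -/
def okw (x y : ℤ) (c0 c1 e0 e1 : Bool) (G : ℤ → ℤ) : Bool :=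
  (if 2 ≤ y - x then nonzero G (y - x).toNat x
    else if 2 ≤ x - y then nonzero G (x - y).toNat y
    else if y = x then decide (G x ≠ 1) || nonpos G (7 - x).toNat (x + 1) else true) &&
  (!c0 || (pat c1 e0 e1).all fun P => decide (P.d ≠ y - x) || differs G (x + P.e) P.v)

/-- windows with two given outer blocks -/
def chkS (a0 a1 b0 b1 : Bool) (d : ℤ) (D : ℤ → ℤ) : Bool :=
  (gA a0 a1).all fun A => (gB b0 b1).all fun B => A.l.all fun u => B.l.all fun w =>
    okw A.o (2 * d + B.o) A.c0 A.c1 B.c0 B.c1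
      (fun z => nz u z + comb D z + nz w (z - 2 * d))

/-- letter of a block -/
def offs (s0 s1 : Bool) (r : ℕ) : ℤ := sg s0 * (wd (s0 == s1)).getD r 0

/-- incoming direction of a letter of a block -/
def dir0 (s0 s1 : Bool) : ℕ → Bool
  | 0 => s0
  | r + 1 => decide (offs s0 s1 r + 1 = offs s0 s1 (r + 1))

/-- outgoing direction of a letter of a block -/
def dir1 (s0 s1 : Bool) (r : ℕ) : Bool :=
  if r = 43 then s1 else decide (offs s0 s1 r + 1 = offs s0 s1 (r + 1))

/-- partial sums -/
def nsum (f : ℕ → ℤ) : ℕ → ℤ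
  | 0 => 0
  | n + 1 => nsum f n + f n

def edges : List ℤ := [.negSucc 2, .negSucc 1, .negSucc 0, .ofNat 0, .ofNat 1, .ofNat 2]

/-- differences before the letter `j` -/
def preV (s0 s1 : Bool) (j : ℕ) : List ℤ :=
  edges.map fun y => nsum (fun r => dl (offs s0 s1 r) y) j

/-- differences from the letter `i + 1` to the letter `j - 1` -/
def midV (s0 s1 : Bool) (i j : ℕ) : List ℤ :=
  edges.map fun y => nsum (fun r => dl (offs s0 s1 r) y) j -
    nsum (fun r => dl (offs s0 s1 r) y) (i + 1)

/-- steps of a block, its ends and its letter counts -/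
def chkW (s0 s1 : Bool) : Bool :=
  (List.range 43).all (fun r => decide (offs s0 s1 (r + 1) = offs s0 s1 r + 1) ||
    decide (offs s0 s1 (r + 1) = offs s0 s1 r - 1)) &&
  (List.range 44).all (fun r => decide (-2 ≤ offs s0 s1 r) && decide (offs s0 s1 r ≤ 2)) &&
  decide (offs s0 s1 0 = - sg s0) && decide (offs s0 s1 43 = 0) &&
  decide (preV s0 s1 44 = md)

/-- the tables list all letters -/
def chkTab (s0 s1 : Bool) : Bool :=
  (List.range 44).all (fun i =>
    (gA s0 s1).any (fun A => decide (A.o = offs s0 s1 i) && (A.c0 == dir0 s0 s1 i) &&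
      (A.c1 == dir1 s0 s1 i) && A.l.contains (midV s0 s1 i 44)) &&
    (gB s0 s1).any (fun B => decide (B.o = offs s0 s1 i) && (B.c0 == dir0 s0 s1 i) &&
      (B.c1 == dir1 s0 s1 i) && B.l.contains (preV s0 s1 i)))

/-- windows within a block -/
def chkB (s0 s1 : Bool) : Bool :=
  (List.range 44).all fun j => (List.range j).all fun i =>
    okw (offs s0 s1 i) (offs s0 s1 j) (dir0 s0 s1 i) (dir1 s0 s1 i) (dir0 s0 s1 j) (dir1 s0 s1 j)
      (nz (midV s0 s1 i j))

end LevelWords
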