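import Mathlib.Data.Int.Init

/-!
# Unimodal words: the substitution and its certificate (data)

Generated tables. `wd` are the two block words. `gA s0 s1` and `gB s0 s1` list, for a block with
incoming direction `s0` and outgoing direction `s1`, the letters grouped by their position and
their two directions, with the differences of the letter counts after, resp. before, the letter.
-/

namespace LevelWords

/-- A group of letters of a block: position, incoming and outgoing direction, difference vectors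
on the edges `-3, ..., 2`. -/
structure Grp where
  o : ℤ
  c0 : Bool
  c1 : Bool
  l : List (List ℤ)

/-- A local pattern: displacement of the endpoints, first edge, values. -/
structure Pat where
  d : ℤ
  e : ℤ
  v : List ℤ

/-- difference vector of a full block -/
def md : List ℤ := [.ofNat 3, .ofNat 8, .ofNat 5, .negSucc 4, .negSucc 7, .negSucc 2]

/-- the block words -/
def wd : Bool → List ℤ
  | true => [.negSucc 0, .negSucc 1, .negSucc 0, .ofNat 0, .negSucc 0, .negSucc 1, .negSucc 0, .ofNat 0, .negSucc 0, .ofNat 0, .ofNat 1, .ofNat 0, .ofNat 1, .ofNat 2, .ofNat 1, .ofNat 0, .ofNat 1, .ofNat 0, .negSucc 0, .ofNat 0, .negSucc 0, .negSucc 1, .negSucc 0, .ofNat 0, .negSucc 0, .ofNat 0, .ofNat 1, .ofNat 0, .ofNat 1, .ofNat 2, .ofNat 1, .ofNat 0, .ofNat 1, .ofNat 2, .ofNat 1, .ofNat 0, .ofNat 1, .ofNat 0, .negSucc 0, .ofNat 0, .negSucc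 0, .ofNat 0, .ofNat 1, .ofNat 0]
  | false => [.negSucc 0, .negSucc 1, .negSucc 0, .ofNat 0, .negSucc 0, .negSucc 1, .negSucc 0, .ofNat 0, .negSucc 0, .ofNat 0, .ofNat 1, .ofNat 0, .ofNat 1, .ofNat 2, .ofNat 1, .ofNat 0, .ofNat 1, .ofNat 0, .negSucc 0, .ofNat 0, .negSucc 0, .negSucc 1, .negSucc 0, .ofNat 0, .negSucc 0, .ofNat 0, .ofNat 1, .ofNat 0, .ofNat 1, .ofNat 2, .ofNat 1, .ofNat 0, .ofNat 1, .ofNat 2, .ofNat 1, .ofNat 0, .ofNat 1, .ofNat 0, .negSucc 0, .ofNat 0, .negSucc 0, .ofNat 0, .ofNat 1, .ofNat 0]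

/-- letters of a block, counts after the letter -/
def gA : Bool → Bool → List Grp
  | true, true => [
    ⟨.negSucc 1, false, true, [
      [.ofNat 2, .ofNat 8, .ofNat 6, .negSucc 4, .negSucc 7, .negSucc 2],
      [.ofNat 1, .ofNat 7, .ofNat 7, .negSucc 3, .negSucc 7, .negSucc 2],
      [.ofNat 0, .ofNat 4, .ofNat 5, .negSucc 1, .negSucc 4, .negSucc 1]]⟩,
    ⟨.negSucc 0, false, false, [
      [.ofNat 2, .ofNat 6, .ofNat 7, .negSucc 3, .negSucc 7, .negSucc 2],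
      [.ofNat 1, .ofNat 3, .ofNat 5, .negSucc 1, .negSucc 4, .negSucc 1]]⟩,
    ⟨.negSucc 0, false, true, [
      [.ofNat 1, .ofNat 5, .ofNat 8, .negSucc 2, .negSucc 7, .negSucc 2],
      [.ofNat 1, .ofNat 4, .ofNat 5, .negSucc 2, .negSucc 4, .negSucc 1],
      [.ofNat 0, .ofNat 2, .ofNat 6, .negSucc 0, .negSucc 4, .negSucc 1],
      [.ofNat 0, .ofNat 1, .ofNat 2, .negSucc 1, .negSucc 0, .ofNat 0],
      [.ofNat 0, .ofNat 0, .ofNat 2, .negSucc 0, .negSucc 0, .ofNat 0]]⟩,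
    ⟨.negSucc 0, true, false, [
      [.ofNat 3, .ofNat 7, .ofNat 6, .negSucc 4, .negSucc 7, .negSucc 2]]⟩,
    ⟨.negSucc 0, true, true, [
      [.ofNat 2, .ofNat 7, .ofNat 7, .negSucc 4, .negSucc 7, .negSucc 2],
      [.ofNat 1, .ofNat 6, .ofNat 8, .negSucc 3, .negSucc 7, .negSucc 2],
      [.ofNat 0, .ofNat 3, .ofNat 6, .negSucc 1, .negSucc 4, .negSucc 1]]⟩,
    ⟨.ofNat 0, false, false, [
      [.ofNat 1, .ofNat 5, .ofNat 4, .negSucc 2, .negSucc 4, .negSucc 1],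
      [.ofNat 0, .ofNat 2, .ofNat 1, .negSucc 1, .negSucc 0, .ofNat 0]]⟩,
    ⟨.ofNat 0, false, true, [
      [.ofNat 1, .ofNat 5, .ofNat 6, .negSucc 1, .negSucc 6, .negSucc 2],
      [.ofNat 1, .ofNat 5, .ofNat 5, .negSucc 2, .negSucc 5, .negSucc 1],
      [.ofNat 0, .ofNat 2, .ofNat 4, .ofNat 0, .negSucc 3, .negSucc 1],
      [.ofNat 0, .ofNat 2, .ofNat 3, .negSucc 0, .negSucc 2, .negSucc 0],
      [.ofNat 0, .ofNat 2, .ofNat 2, .negSucc 1, .negSucc 1, .ofNat 0],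
      [.ofNat 0, .ofNat 0, .ofNat 0, .ofNat 0, .ofNat 0, .ofNat 0]]⟩,
    ⟨.ofNat 0, true, false, [
      [.ofNat 2, .ofNat 7, .ofNat 6, .negSucc 3, .negSucc 7, .negSucc 2],
      [.ofNat 1, .ofNat 6, .ofNat 7, .negSucc 2, .negSucc 7, .negSucc 2],
      [.ofNat 1, .ofNat 4, .ofNat 4, .negSucc 1, .negSucc 4, .negSucc 1],
      [.ofNat 0, .ofNat 3, .ofNat 5, .negSucc 0, .negSucc 4, .negSucc 1],
      [.ofNat 0, .ofNat 1, .ofNat 1, .negSucc 0, .negSucc 0, .ofNat 0]]⟩,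
    ⟨.ofNat 0, true, true, [
      [.ofNat 1, .ofNat 5, .ofNat 7, .negSucc 1, .negSucc 7, .negSucc 2],
      [.ofNat 0, .ofNat 2, .ofNat 5, .ofNat 0, .negSucc 4, .negSucc 1],
      [.ofNat 0, .ofNat 0, .ofNat 1, .ofNat 0, .negSucc 0, .ofNat 0]]⟩,
    ⟨.ofNat 1, false, false, [
      [.ofNat 1, .ofNat 5, .ofNat 6, .negSucc 3, .negSucc 5, .negSucc 1],
      [.ofNat 0, .ofNat 2, .ofNat 4, .negSucc 1, .negSucc 2, .negSucc 0],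
      [.ofNat 0, .ofNat 2, .ofNat 3, .negSucc 2, .negSucc 1, .ofNat 0]]⟩,
    ⟨.ofNat 1, true, false, [
      [.ofNat 1, .ofNat 5, .ofNat 7, .negSucc 2, .negSucc 6, .negSucc 2],
      [.ofNat 1, .ofNat 5, .ofNat 5, .negSucc 3, .negSucc 4, .negSucc 1],
      [.ofNat 0, .ofNat 2, .ofNat 5, .negSucc 0, .negSucc 3, .negSucc 1],
      [.ofNat 0, .ofNat 2, .ofNat 2, .negSucc 2, .negSucc 0, .ofNat 0],
      [.ofNat 0, .ofNat 0, .ofNat 1, .negSucc 0, .ofNat 0, .ofNat 0]]⟩,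
    ⟨.ofNat 1, true, true, [
      [.ofNat 1, .ofNat 5, .ofNat 6, .negSucc 2, .negSucc 5, .negSucc 2],
      [.ofNat 0, .ofNat 2, .ofNat 4, .negSucc 0, .negSucc 2, .negSucc 1],
      [.ofNat 0, .ofNat 2, .ofNat 3, .negSucc 1, .negSucc 1, .negSucc 0]]⟩,
    ⟨.ofNat 2, true, false, [
      [.ofNat 1, .ofNat 5, .ofNat 6, .negSucc 2, .negSucc 6, .negSucc 1],
      [.ofNat 0, .ofNat 2, .ofNat 4, .negSucc 0, .negSucc 3, .negSucc 0],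
      [.ofNat 0, .ofNat 2, .ofNat 3, .negSucc 1, .negSucc 2, .ofNat 0]]⟩]
  | true, false => [
    ⟨.negSucc 1, false, true, [
      [.ofNat 2, .ofNat 8, .ofNat 6, .negSucc 4, .negSucc 7, .negSucc 2],
      [.ofNat 1, .ofNat 7, .ofNat 7, .negSucc 3, .negSucc 7, .negSucc 2],
      [.ofNat 0, .ofNat 4, .ofNat 5, .negSucc 1, .negSucc 4, .negSucc 1]]⟩,
    ⟨.negSucc 0, false, false, [
      [.ofNat 2, .ofNat 6, .ofNat 7, .negSucc 3, .negSucc 7, .negSucc 2],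
      [.ofNat 1, .ofNat 3, .ofNat 5, .negSucc 1, .negSucc 4, .negSucc 1]]⟩,
    ⟨.negSucc 0, false, true, [
      [.ofNat 1, .ofNat 5, .ofNat 8, .negSucc 2, .negSucc 7, .negSucc 2],
      [.ofNat 1, .ofNat 4, .ofNat 5, .negSucc 2, .negSucc 4, .negSucc 1],
      [.ofNat 0, .ofNat 2, .ofNat 6, .negSucc 0, .negSucc 4, .negSucc 1],
      [.ofNat 0, .ofNat 1, .ofNat 2, .negSucc 1, .negSucc 0, .ofNat 0],
      [.ofNat 0, .ofNat 0, .ofNat 2, .negSucc 0, .negSucc 0, .ofNat 0]]⟩,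
    ⟨.negSucc 0, true, false, [
      [.ofNat 3, .ofNat 7, .ofNat 6, .negSucc 4, .negSucc 7, .negSucc 2]]⟩,
    ⟨.negSucc 0, true, true, [
      [.ofNat 2, .ofNat 7, .ofNat 7, .negSucc 4, .negSucc 7, .negSucc 2],
      [.ofNat 1, .ofNat 6, .ofNat 8, .negSucc 3, .negSucc 7, .negSucc 2],
      [.ofNat 0, .ofNat 3, .ofNat 6, .negSucc 1, .negSucc 4, .negSucc 1]]⟩,
    ⟨.ofNat 0, false, false, [
      [.ofNat 1, .ofNat 5, .ofNat 4, .negSucc 2, .negSucc 4, .negSucc 1],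
      [.ofNat 0, .ofNat 2, .ofNat 1, .negSucc 1, .negSucc 0, .ofNat 0],
      [.ofNat 0, .ofNat 0, .ofNat 0, .ofNat 0, .ofNat 0, .ofNat 0]]⟩,
    ⟨.ofNat 0, false, true, [
      [.ofNat 1, .ofNat 5, .ofNat 6, .negSucc 1, .negSucc 6, .negSucc 2],
      [.ofNat 1, .ofNat 5, .ofNat 5, .negSucc 2, .negSucc 5, .negSucc 1],
      [.ofNat 0, .ofNat 2, .ofNat 4, .ofNat 0, .negSucc 3, .negSucc 1],
      [.ofNat 0, .ofNat 2, .ofNat 3, .negSucc 0, .negSucc 2, .negSucc 0],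
      [.ofNat 0, .ofNat 2, .ofNat 2, .negSucc 1, .negSucc 1, .ofNat 0]]⟩,
    ⟨.ofNat 0, true, false, [
      [.ofNat 2, .ofNat 7, .ofNat 6, .negSucc 3, .negSucc 7, .negSucc 2],
      [.ofNat 1, .ofNat 6, .ofNat 7, .negSucc 2, .negSucc 7, .negSucc 2],
      [.ofNat 1, .ofNat 4, .ofNat 4, .negSucc 1, .negSucc 4, .negSucc 1],
      [.ofNat 0, .ofNat 3, .ofNat 5, .negSucc 0, .negSucc 4, .negSucc 1],
      [.ofNat 0, .ofNat 1, .ofNat 1, .negSucc 0, .negSucc 0, .ofNat 0]]⟩,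
    ⟨.ofNat 0, true, true, [
      [.ofNat 1, .ofNat 5, .ofNat 7, .negSucc 1, .negSucc 7, .negSucc 2],
      [.ofNat 0, .ofNat 2, .ofNat 5, .ofNat 0, .negSucc 4, .negSucc 1],
      [.ofNat 0, .ofNat 0, .ofNat 1, .ofNat 0, .negSucc 0, .ofNat 0]]⟩,
    ⟨.ofNat 1, false, false, [
      [.ofNat 1, .ofNat 5, .ofNat 6, .negSucc 3, .negSucc 5, .negSucc 1],
      [.ofNat 0, .ofNat 2, .ofNat 4, .negSucc 1, .negSucc 2, .negSucc 0],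
      [.ofNat 0, .ofNat 2, .ofNat 3, .negSucc 2, .negSucc 1, .ofNat 0]]⟩,
    ⟨.ofNat 1, true, false, [
      [.ofNat 1, .ofNat 5, .ofNat 7, .negSucc 2, .negSucc 6, .negSucc 2],
      [.ofNat 1, .ofNat 5, .ofNat 5, .negSucc 3, .negSucc 4, .negSucc 1],
      [.ofNat 0, .ofNat 2, .ofNat 5, .negSucc 0, .negSucc 3, .negSucc 1],
      [.ofNat 0, .ofNat 2, .ofNat 2, .negSucc 2, .negSucc 0, .ofNat 0],
      [.ofNat 0, .ofNat 0, .ofNat 1, .negSucc 0, .ofNat 0, .ofNat 0]]⟩,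
    ⟨.ofNat 1, true, true, [
      [.ofNat 1, .ofNat 5, .ofNat 6, .negSucc 2, .negSucc 5, .negSucc 2],
      [.ofNat 0, .ofNat 2, .ofNat 4, .negSucc 0, .negSucc 2, .negSucc 1],
      [.ofNat 0, .ofNat 2, .ofNat 3, .negSucc 1, .negSucc 1, .negSucc 0]]⟩,
    ⟨.ofNat 2, true, false, [
      [.ofNat 1, .ofNat 5, .ofNat 6, .negSucc 2, .negSucc 6, .negSucc 1],
      [.ofNat 0, .ofNat 2, .ofNat 4, .negSucc 0, .negSucc 3, .negSucc 0],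
      [.ofNat 0, .ofNat 2, .ofNat 3, .negSucc 1, .negSucc 2, .ofNat 0]]⟩]
  | false, true => [
    ⟨.negSucc 1, false, true, [
      [.ofNat 2, .ofNat 7, .ofNat 3, .negSucc 5, .negSucc 4, .negSucc 0],
      [.ofNat 1, .ofNat 4, .ofNat 1, .negSucc 3, .negSucc 1, .ofNat 0],
      [.ofNat 0, .ofNat 3, .ofNat 2, .negSucc 2, .negSucc 1, .ofNat 0]]⟩,
    ⟨.negSucc 0, false, false, [
      [.ofNat 3, .ofNat 6, .ofNat 3, .negSucc 5, .negSucc 4, .negSucc 0],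
      [.ofNat 2, .ofNat 3, .ofNat 1, .negSucc 3, .negSucc 1, .ofNat 0],
      [.ofNat 1, .ofNat 2, .ofNat 2, .negSucc 2, .negSucc 1, .ofNat 0]]⟩,
    ⟨.negSucc 0, false, true, [
      [.ofNat 3, .ofNat 7, .ofNat 3, .negSucc 6, .negSucc 4, .negSucc 0],
      [.ofNat 2, .ofNat 5, .ofNat 4, .negSucc 4, .negSucc 4, .negSucc 0],
      [.ofNat 2, .ofNat 4, .ofNat 1, .negSucc 4, .negSucc 1, .ofNat 0],
      [.ofNat 0, .ofNat 1, .ofNat 3, .negSucc 1, .negSucc 1, .ofNat 0],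
      [.ofNat 0, .ofNat 0, .ofNat 1, .negSucc 0, .ofNat 0, .ofNat 0]]⟩,
    ⟨.negSucc 0, true, true, [
      [.ofNat 2, .ofNat 6, .ofNat 4, .negSucc 5, .negSucc 4, .negSucc 0],
      [.ofNat 1, .ofNat 3, .ofNat 2, .negSucc 3, .negSucc 1, .ofNat 0],
      [.ofNat 0, .ofNat 2, .ofNat 3, .negSucc 2, .negSucc 1, .ofNat 0]]⟩,
    ⟨.ofNat 0, false, false, [
      [.ofNat 3, .ofNat 8, .ofNat 2, .negSucc 6, .negSucc 4, .negSucc 0],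
      [.ofNat 2, .ofNat 5, .ofNat 0, .negSucc 4, .negSucc 1, .ofNat 0],
      [.ofNat 0, .ofNat 1, .ofNat 0, .negSucc 0, .ofNat 0, .ofNat 0]]⟩,
    ⟨.ofNat 0, false, true, [
      [.ofNat 3, .ofNat 8, .ofNat 4, .negSucc 5, .negSucc 6, .negSucc 1],
      [.ofNat 3, .ofNat 8, .ofNat 3, .negSucc 6, .negSucc 5, .negSucc 0],
      [.ofNat 2, .ofNat 5, .ofNat 2, .negSucc 3, .negSucc 3, .negSucc 0],
      [.ofNat 2, .ofNat 5, .ofNat 1, .negSucc 4, .negSucc 2, .ofNat 0],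
      [.ofNat 0, .ofNat 1, .ofNat 1, .negSucc 0, .negSucc 0, .ofNat 0]]⟩,
    ⟨.ofNat 0, true, false, [
      [.ofNat 3, .ofNat 7, .ofNat 2, .negSucc 5, .negSucc 4, .negSucc 0],
      [.ofNat 2, .ofNat 6, .ofNat 3, .negSucc 4, .negSucc 4, .negSucc 0],
      [.ofNat 2, .ofNat 4, .ofNat 0, .negSucc 3, .negSucc 1, .ofNat 0],
      [.ofNat 1, .ofNat 3, .ofNat 1, .negSucc 2, .negSucc 1, .ofNat 0],
      [.ofNat 0, .ofNat 2, .ofNat 2, .negSucc 1, .negSucc 1, .ofNat 0]]⟩,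
    ⟨.ofNat 0, true, true, [
      [.ofNat 2, .ofNat 5, .ofNat 3, .negSucc 3, .negSucc 4, .negSucc 0],
      [.ofNat 0, .ofNat 1, .ofNat 2, .negSucc 0, .negSucc 1, .ofNat 0],
      [.ofNat 0, .ofNat 0, .ofNat 0, .ofNat 0, .ofNat 0, .ofNat 0]]⟩,
    ⟨.ofNat 1, false, false, [
      [.ofNat 3, .ofNat 8, .ofNat 5, .negSucc 6, .negSucc 6, .negSucc 1],
      [.ofNat 3, .ofNat 8, .ofNat 4, .negSucc 7, .negSucc 5, .negSucc 0],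
      [.ofNat 2, .ofNat 5, .ofNat 2, .negSucc 5, .negSucc 2, .ofNat 0]]⟩,
    ⟨.ofNat 1, false, true, [
      [.ofNat 3, .ofNat 8, .ofNat 5, .negSucc 5, .negSucc 6, .negSucc 2]]⟩,
    ⟨.ofNat 1, true, false, [
      [.ofNat 3, .ofNat 8, .ofNat 3, .negSucc 7, .negSucc 4, .negSucc 0],
      [.ofNat 2, .ofNat 5, .ofNat 3, .negSucc 4, .negSucc 3, .negSucc 0],
      [.ofNat 2, .ofNat 5, .ofNat 1, .negSucc 5, .negSucc 1, .ofNat 0],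
      [.ofNat 0, .ofNat 1, .ofNat 2, .negSucc 1, .negSucc 0, .ofNat 0],
      [.ofNat 0, .ofNat 1, .ofNat 1, .negSucc 1, .ofNat 0, .ofNat 0]]⟩,
    ⟨.ofNat 1, true, true, [
      [.ofNat 3, .ofNat 8, .ofNat 4, .negSucc 6, .negSucc 5, .negSucc 1],
      [.ofNat 2, .ofNat 5, .ofNat 2, .negSucc 4, .negSucc 2, .negSucc 0]]⟩,
    ⟨.ofNat 2, true, false, [
      [.ofNat 3, .ofNat 8, .ofNat 5, .negSucc 5, .negSucc 7, .negSucc 1],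
      [.ofNat 3, .ofNat 8, .ofNat 4, .negSucc 6, .negSucc 6, .negSucc 0],
      [.ofNat 2, .ofNat 5, .ofNat 2, .negSucc 4, .negSucc 3, .ofNat 0]]⟩]
  | false, false => [
    ⟨.negSucc 1, false, true, [
      [.ofNat 2, .ofNat 7, .ofNat 3, .negSucc 5, .negSucc 4, .negSucc 0],
      [.ofNat 1, .ofNat 4, .ofNat 1, .negSucc 3, .negSucc 1, .ofNat 0],
      [.ofNat 0, .ofNat 3, .ofNat 2, .negSucc 2, .negSucc 1, .ofNat 0]]⟩,
    ⟨.negSucc 0, false, false, [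
      [.ofNat 3, .ofNat 6, .ofNat 3, .negSucc 5, .negSucc 4, .negSucc 0],
      [.ofNat 2, .ofNat 3, .ofNat 1, .negSucc 3, .negSucc 1, .ofNat 0],
      [.ofNat 1, .ofNat 2, .ofNat 2, .negSucc 2, .negSucc 1, .ofNat 0]]⟩,
    ⟨.negSucc 0, false, true, [
      [.ofNat 3, .ofNat 7, .ofNat 3, .negSucc 6, .negSucc 4, .negSucc 0],
      [.ofNat 2, .ofNat 5, .ofNat 4, .negSucc 4, .negSucc 4, .negSucc 0],
      [.ofNat 2, .ofNat 4, .ofNat 1, .negSucc 4, .negSucc 1, .ofNat 0],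
      [.ofNat 0, .ofNat 1, .ofNat 3, .negSucc 1, .negSucc 1, .ofNat 0],
      [.ofNat 0, .ofNat 0, .ofNat 1, .negSucc 0, .ofNat 0, .ofNat 0]]⟩,
    ⟨.negSucc 0, true, true, [
      [.ofNat 2, .ofNat 6, .ofNat 4, .negSucc 5, .negSucc 4, .negSucc 0],
      [.ofNat 1, .ofNat 3, .ofNat 2, .negSucc 3, .negSucc 1, .ofNat 0],
      [.ofNat 0, .ofNat 2, .ofNat 3, .negSucc 2, .negSucc 1, .ofNat 0]]⟩,
    ⟨.ofNat 0, false, false, [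
      [.ofNat 3, .ofNat 8, .ofNat 2, .negSucc 6, .negSucc 4, .negSucc 0],
      [.ofNat 2, .ofNat 5, .ofNat 0, .negSucc 4, .negSucc 1, .ofNat 0],
      [.ofNat 0, .ofNat 1, .ofNat 0, .negSucc 0, .ofNat 0, .ofNat 0]]⟩,
    ⟨.ofNat 0, false, true, [
      [.ofNat 3, .ofNat 8, .ofNat 4, .negSucc 5, .negSucc 6, .negSucc 1],
      [.ofNat 3, .ofNat 8, .ofNat 3, .negSucc 6, .negSucc 5, .negSucc 0],
      [.ofNat 2, .ofNat 5, .ofNat 2, .negSucc 3, .negSucc 3, .negSucc 0],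
      [.ofNat 2, .ofNat 5, .ofNat 1, .negSucc 4, .negSucc 2, .ofNat 0],
      [.ofNat 0, .ofNat 1, .ofNat 1, .negSucc 0, .negSucc 0, .ofNat 0]]⟩,
    ⟨.ofNat 0, true, false, [
      [.ofNat 3, .ofNat 7, .ofNat 2, .negSucc 5, .negSucc 4, .negSucc 0],
      [.ofNat 2, .ofNat 6, .ofNat 3, .negSucc 4, .negSucc 4, .negSucc 0],
      [.ofNat 2, .ofNat 4, .ofNat 0, .negSucc 3, .negSucc 1, .ofNat 0],
      [.ofNat 1, .ofNat 3, .ofNat 1, .negSucc 2, .negSucc 1, .ofNat 0],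
      [.ofNat 0, .ofNat 2, .ofNat 2, .negSucc 1, .negSucc 1, .ofNat 0],
      [.ofNat 0, .ofNat 0, .ofNat 0, .ofNat 0, .ofNat 0, .ofNat 0]]⟩,
    ⟨.ofNat 0, true, true, [
      [.ofNat 2, .ofNat 5, .ofNat 3, .negSucc 3, .negSucc 4, .negSucc 0],
      [.ofNat 0, .ofNat 1, .ofNat 2, .negSucc 0, .negSucc 1, .ofNat 0]]⟩,
    ⟨.ofNat 1, false, false, [
      [.ofNat 3, .ofNat 8, .ofNat 5, .negSucc 6, .negSucc 6, .negSucc 1],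
      [.ofNat 3, .ofNat 8, .ofNat 4, .negSucc 7, .negSucc 5, .negSucc 0],
      [.ofNat 2, .ofNat 5, .ofNat 2, .negSucc 5, .negSucc 2, .ofNat 0]]⟩,
    ⟨.ofNat 1, false, true, [
      [.ofNat 3, .ofNat 8, .ofNat 5, .negSucc 5, .negSucc 6, .negSucc 2]]⟩,
    ⟨.ofNat 1, true, false, [
      [.ofNat 3, .ofNat 8, .ofNat 3, .negSucc 7, .negSucc 4, .negSucc 0],
      [.ofNat 2, .ofNat 5, .ofNat 3, .negSucc 4, .negSucc 3, .negSucc 0],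
      [.ofNat 2, .ofNat 5, .ofNat 1, .negSucc 5, .negSucc 1, .ofNat 0],
      [.ofNat 0, .ofNat 1, .ofNat 2, .negSucc 1, .negSucc 0, .ofNat 0],
      [.ofNat 0, .ofNat 1, .ofNat 1, .negSucc 1, .ofNat 0, .ofNat 0]]⟩,
    ⟨.ofNat 1, true, true, [
      [.ofNat 3, .ofNat 8, .ofNat 4, .negSucc 6, .negSucc 5, .negSucc 1],
      [.ofNat 2, .ofNat 5, .ofNat 2, .negSucc 4, .negSucc 2, .negSucc 0]]⟩,
    ⟨.ofNat 2, true, false, [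
      [.ofNat 3, .ofNat 8, .ofNat 5, .negSucc 5, .negSucc 7, .negSucc 1],
      [.ofNat 3, .ofNat 8, .ofNat 4, .negSucc 6, .negSucc 6, .negSucc 0],
      [.ofNat 2, .ofNat 5, .ofNat 2, .negSucc 4, .negSucc 3, .ofNat 0]]⟩]

/-- letters of a block, counts before the letter -/
def gB : Bool → Bool → List Grp
  | true, true => [
    ⟨.negSucc 1, false, true, [
      [.ofNat 0, .ofNat 1, .negSucc 0, .ofNat 0, .ofNat 0, .ofNat 0],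
      [.ofNat 1, .ofNat 2, .negSucc 1, .negSucc 0, .ofNat 0, .ofNat 0],
      [.ofNat 2, .ofNat 5, .ofNat 0, .negSucc 2, .negSucc 2, .negSucc 0]]⟩,
    ⟨.negSucc 0, false, false, [
      [.ofNat 1, .ofNat 1, .negSucc 0, .negSucc 0, .ofNat 0, .ofNat 0],
      [.ofNat 2, .ofNat 4, .ofNat 1, .negSucc 2, .negSucc 2, .negSucc 0]]⟩,
    ⟨.negSucc 0, false, true, [
      [.ofNat 2, .ofNat 2, .negSucc 1, .negSucc 1, .ofNat 0, .ofNat 0],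
      [.ofNat 2, .ofNat 3, .ofNat 1, .negSucc 1, .negSucc 2, .negSucc 0],
      [.ofNat 3, .ofNat 5, .ofNat 0, .negSucc 3, .negSucc 2, .negSucc 0],
      [.ofNat 3, .ofNat 6, .ofNat 4, .negSucc 2, .negSucc 6, .negSucc 2],
      [.ofNat 3, .ofNat 7, .ofNat 4, .negSucc 3, .negSucc 6, .negSucc 2]]⟩,
    ⟨.negSucc 0, true, false, [
      [.ofNat 0, .ofNat 0, .ofNat 0, .ofNat 0, .ofNat 0, .ofNat 0]]⟩,
    ⟨.negSucc 0, true, true, [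
      [.ofNat 1, .ofNat 0, .negSucc 0, .ofNat 0, .ofNat 0, .ofNat 0],
      [.ofNat 2, .ofNat 1, .negSucc 1, .negSucc 0, .ofNat 0, .ofNat 0],
      [.ofNat 3, .ofNat 4, .ofNat 0, .negSucc 2, .negSucc 2, .negSucc 0]]⟩,
    ⟨.ofNat 0, false, false, [
      [.ofNat 2, .ofNat 3, .ofNat 0, .negSucc 0, .negSucc 2, .negSucc 0],
      [.ofNat 3, .ofNat 6, .ofNat 3, .negSucc 1, .negSucc 6, .negSucc 2]]⟩,
    ⟨.ofNat 0, false, true, [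
      [.ofNat 2, .ofNat 3, .negSucc 1, .negSucc 1, .negSucc 0, .ofNat 0],
      [.ofNat 2, .ofNat 3, .negSucc 0, .negSucc 0, .negSucc 1, .negSucc 0],
      [.ofNat 3, .ofNat 6, .ofNat 0, .negSucc 3, .negSucc 3, .negSucc 0],
      [.ofNat 3, .ofNat 6, .ofNat 1, .negSucc 2, .negSucc 4, .negSucc 1],
      [.ofNat 3, .ofNat 6, .ofNat 2, .negSucc 1, .negSucc 5, .negSucc 2],
      [.ofNat 3, .ofNat 8, .ofNat 4, .negSucc 3, .negSucc 7, .negSucc 2]]⟩,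
    ⟨.ofNat 0, true, false, [
      [.ofNat 1, .ofNat 1, .negSucc 1, .ofNat 0, .ofNat 0, .ofNat 0],
      [.ofNat 2, .ofNat 2, .negSucc 2, .negSucc 0, .ofNat 0, .ofNat 0],
      [.ofNat 2, .ofNat 4, .ofNat 0, .negSucc 1, .negSucc 2, .negSucc 0],
      [.ofNat 3, .ofNat 5, .negSucc 0, .negSucc 2, .negSucc 2, .negSucc 0],
      [.ofNat 3, .ofNat 7, .ofNat 3, .negSucc 2, .negSucc 6, .negSucc 2]]⟩,
    ⟨.ofNat 0, true, true, [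
      [.ofNat 2, .ofNat 3, .negSucc 2, .negSucc 1, .ofNat 0, .ofNat 0],
      [.ofNat 3, .ofNat 6, .negSucc 0, .negSucc 3, .negSucc 2, .negSucc 0],
      [.ofNat 3, .ofNat 8, .ofNat 3, .negSucc 3, .negSucc 6, .negSucc 2]]⟩,
    ⟨.ofNat 1, false, false, [
      [.ofNat 2, .ofNat 3, .negSucc 0, .negSucc 1, .negSucc 0, .negSucc 0],
      [.ofNat 3, .ofNat 6, .ofNat 1, .negSucc 3, .negSucc 3, .negSucc 1],
      [.ofNat 3, .ofNat 6, .ofNat 2, .negSucc 2, .negSucc 4, .negSucc 2]]⟩,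
    ⟨.ofNat 1, true, false, [
      [.ofNat 2, .ofNat 3, .negSucc 1, .negSucc 2, .ofNat 0, .ofNat 0],
      [.ofNat 2, .ofNat 3, .ofNat 0, .negSucc 1, .negSucc 1, .negSucc 0],
      [.ofNat 3, .ofNat 6, .ofNat 0, .negSucc 4, .negSucc 2, .negSucc 0],
      [.ofNat 3, .ofNat 6, .ofNat 3, .negSucc 2, .negSucc 5, .negSucc 2],
      [.ofNat 3, .ofNat 8, .ofNat 4, .negSucc 4, .negSucc 6, .negSucc 2]]⟩,
    ⟨.ofNat 1, true, true, [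
      [.ofNat 2, .ofNat 3, .negSucc 0, .negSucc 2, .negSucc 0, .ofNat 0],
      [.ofNat 3, .ofNat 6, .ofNat 1, .negSucc 4, .negSucc 3, .negSucc 0],
      [.ofNat 3, .ofNat 6, .ofNat 2, .negSucc 3, .negSucc 4, .negSucc 1]]⟩,
    ⟨.ofNat 2, true, false, [
      [.ofNat 2, .ofNat 3, .negSucc 0, .negSucc 1, .negSucc 1, .ofNat 0],
      [.ofNat 3, .ofNat 6, .ofNat 1, .negSucc 3, .negSucc 4, .negSucc 0],
      [.ofNat 3, .ofNat 6, .ofNat 2, .negSucc 2, .negSucc 5, .negSucc 1]]⟩]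
  | true, false => [
    ⟨.negSucc 1, false, true, [
      [.ofNat 0, .ofNat 1, .negSucc 0, .ofNat 0, .ofNat 0, .ofNat 0],
      [.ofNat 1, .ofNat 2, .negSucc 1, .negSucc 0, .ofNat 0, .ofNat 0],
      [.ofNat 2, .ofNat 5, .ofNat 0, .negSucc 2, .negSucc 2, .negSucc 0]]⟩,
    ⟨.negSucc 0, false, false, [
      [.ofNat 1, .ofNat 1, .negSucc 0, .negSucc 0, .ofNat 0, .ofNat 0],
      [.ofNat 2, .ofNat 4, .ofNat 1, .negSucc 2, .negSucc 2, .negSucc 0]]⟩,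
    ⟨.negSucc 0, false, true, [
      [.ofNat 2, .ofNat 2, .negSucc 1, .negSucc 1, .ofNat 0, .ofNat 0],
      [.ofNat 2, .ofNat 3, .ofNat 1, .negSucc 1, .negSucc 2, .negSucc 0],
      [.ofNat 3, .ofNat 5, .ofNat 0, .negSucc 3, .negSucc 2, .negSucc 0],
      [.ofNat 3, .ofNat 6, .ofNat 4, .negSucc 2, .negSucc 6, .negSucc 2],
      [.ofNat 3, .ofNat 7, .ofNat 4, .negSucc 3, .negSucc 6, .negSucc 2]]⟩,
    ⟨.negSucc 0, true, false, [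
      [.ofNat 0, .ofNat 0, .ofNat 0, .ofNat 0, .ofNat 0, .ofNat 0]]⟩,
    ⟨.negSucc 0, true, true, [
      [.ofNat 1, .ofNat 0, .negSucc 0, .ofNat 0, .ofNat 0, .ofNat 0],
      [.ofNat 2, .ofNat 1, .negSucc 1, .negSucc 0, .ofNat 0, .ofNat 0],
      [.ofNat 3, .ofNat 4, .ofNat 0, .negSucc 2, .negSucc 2, .negSucc 0]]⟩,
    ⟨.ofNat 0, false, false, [
      [.ofNat 2, .ofNat 3, .ofNat 0, .negSucc 0, .negSucc 2, .negSucc 0],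
      [.ofNat 3, .ofNat 6, .ofNat 3, .negSucc 1, .negSucc 6, .negSucc 2],
      [.ofNat 3, .ofNat 8, .ofNat 4, .negSucc 3, .negSucc 7, .negSucc 2]]⟩,
    ⟨.ofNat 0, false, true, [
      [.ofNat 2, .ofNat 3, .negSucc 1, .negSucc 1, .negSucc 0, .ofNat 0],
      [.ofNat 2, .ofNat 3, .negSucc 0, .negSucc 0, .negSucc 1, .negSucc 0],
      [.ofNat 3, .ofNat 6, .ofNat 0, .negSucc 3, .negSucc 3, .negSucc 0],
      [.ofNat 3, .ofNat 6, .ofNat 1, .negSucc 2, .negSucc 4, .negSucc 1],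
      [.ofNat 3, .ofNat 6, .ofNat 2, .negSucc 1, .negSucc 5, .negSucc 2]]⟩,
    ⟨.ofNat 0, true, false, [
      [.ofNat 1, .ofNat 1, .negSucc 1, .ofNat 0, .ofNat 0, .ofNat 0],
      [.ofNat 2, .ofNat 2, .negSucc 2, .negSucc 0, .ofNat 0, .ofNat 0],
      [.ofNat 2, .ofNat 4, .ofNat 0, .negSucc 1, .negSucc 2, .negSucc 0],
      [.ofNat 3, .ofNat 5, .negSucc 0, .negSucc 2, .negSucc 2, .negSucc 0],
      [.ofNat 3, .ofNat 7, .ofNat 3, .negSucc 2, .negSucc 6, .negSucc 2]]⟩,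
    ⟨.ofNat 0, true, true, [
      [.ofNat 2, .ofNat 3, .negSucc 2, .negSucc 1, .ofNat 0, .ofNat 0],
      [.ofNat 3, .ofNat 6, .negSucc 0, .negSucc 3, .negSucc 2, .negSucc 0],
      [.ofNat 3, .ofNat 8, .ofNat 3, .negSucc 3, .negSucc 6, .negSucc 2]]⟩,
    ⟨.ofNat 1, false, false, [
      [.ofNat 2, .ofNat 3, .negSucc 0, .negSucc 1, .negSucc 0, .negSucc 0],
      [.ofNat 3, .ofNat 6, .ofNat 1, .negSucc 3, .negSucc 3, .negSucc 1],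
      [.ofNat 3, .ofNat 6, .ofNat 2, .negSucc 2, .negSucc 4, .negSucc 2]]⟩,
    ⟨.ofNat 1, true, false, [
      [.ofNat 2, .ofNat 3, .negSucc 1, .negSucc 2, .ofNat 0, .ofNat 0],
      [.ofNat 2, .ofNat 3, .ofNat 0, .negSucc 1, .negSucc 1, .negSucc 0],
      [.ofNat 3, .ofNat 6, .ofNat 0, .negSucc 4, .negSucc 2, .negSucc 0],
      [.ofNat 3, .ofNat 6, .ofNat 3, .negSucc 2, .negSucc 5, .negSucc 2],
      [.ofNat 3, .ofNat 8, .ofNat 4, .negSucc 4, .negSucc 6, .negSucc 2]]⟩,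
    ⟨.ofNat 1, true, true, [
      [.ofNat 2, .ofNat 3, .negSucc 0, .negSucc 2, .negSucc 0, .ofNat 0],
      [.ofNat 3, .ofNat 6, .ofNat 1, .negSucc 4, .negSucc 3, .negSucc 0],
      [.ofNat 3, .ofNat 6, .ofNat 2, .negSucc 3, .negSucc 4, .negSucc 1]]⟩,
    ⟨.ofNat 2, true, false, [
      [.ofNat 2, .ofNat 3, .negSucc 0, .negSucc 1, .negSucc 1, .ofNat 0],
      [.ofNat 3, .ofNat 6, .ofNat 1, .negSucc 3, .negSucc 4, .negSucc 0],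
      [.ofNat 3, .ofNat 6, .ofNat 2, .negSucc 2, .negSucc 5, .negSucc 1]]⟩]
  | false, true => [
    ⟨.negSucc 1, false, true, [
      [.ofNat 0, .ofNat 2, .ofNat 2, .ofNat 1, .negSucc 2, .negSucc 1],
      [.ofNat 1, .ofNat 5, .ofNat 4, .negSucc 0, .negSucc 5, .negSucc 2],
      [.ofNat 2, .ofNat 6, .ofNat 3, .negSucc 1, .negSucc 5, .negSucc 2]]⟩,
    ⟨.negSucc 0, false, false, [
      [.ofNat 0, .ofNat 1, .ofNat 3, .ofNat 1, .negSucc 2, .negSucc 1],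
      [.ofNat 1, .ofNat 4, .ofNat 5, .negSucc 0, .negSucc 5, .negSucc 2],
      [.ofNat 2, .ofNat 5, .ofNat 4, .negSucc 1, .negSucc 5, .negSucc 2]]⟩,
    ⟨.negSucc 0, false, true, [
      [.ofNat 0, .ofNat 0, .ofNat 3, .ofNat 2, .negSucc 2, .negSucc 1],
      [.ofNat 1, .ofNat 2, .ofNat 2, .ofNat 0, .negSucc 2, .negSucc 1],
      [.ofNat 1, .ofNat 3, .ofNat 5, .ofNat 0, .negSucc 5, .negSucc 2],
      [.ofNat 3, .ofNat 6, .ofNat 3, .negSucc 2, .negSucc 5, .negSucc 2],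
      [.ofNat 3, .ofNat 7, .ofNat 5, .negSucc 3, .negSucc 7, .negSucc 2]]⟩,
    ⟨.negSucc 0, true, true, [
      [.ofNat 1, .ofNat 1, .ofNat 2, .ofNat 1, .negSucc 2, .negSucc 1],
      [.ofNat 2, .ofNat 4, .ofNat 4, .negSucc 0, .negSucc 5, .negSucc 2],
      [.ofNat 3, .ofNat 5, .ofNat 3, .negSucc 1, .negSucc 5, .negSucc 2]]⟩,
    ⟨.ofNat 0, false, false, [
      [.ofNat 0, .ofNat 0, .ofNat 2, .ofNat 3, .negSucc 2, .negSucc 1],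
      [.ofNat 1, .ofNat 3, .ofNat 4, .ofNat 1, .negSucc 5, .negSucc 2],
      [.ofNat 3, .ofNat 7, .ofNat 4, .negSucc 2, .negSucc 7, .negSucc 2]]⟩,
    ⟨.ofNat 0, false, true, [
      [.ofNat 0, .ofNat 0, .ofNat 0, .ofNat 2, .negSucc 0, .negSucc 0],
      [.ofNat 0, .ofNat 0, .ofNat 1, .ofNat 3, .negSucc 1, .negSucc 1],
      [.ofNat 1, .ofNat 3, .ofNat 2, .ofNat 0, .negSucc 3, .negSucc 1],
      [.ofNat 1, .ofNat 3, .ofNat 3, .ofNat 1, .negSucc 4, .negSucc 2],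
      [.ofNat 3, .ofNat 7, .ofNat 3, .negSucc 2, .negSucc 6, .negSucc 2]]⟩,
    ⟨.ofNat 0, true, false, [
      [.ofNat 0, .ofNat 1, .ofNat 2, .ofNat 2, .negSucc 2, .negSucc 1],
      [.ofNat 1, .ofNat 2, .ofNat 1, .ofNat 1, .negSucc 2, .negSucc 1],
      [.ofNat 1, .ofNat 4, .ofNat 4, .ofNat 0, .negSucc 5, .negSucc 2],
      [.ofNat 2, .ofNat 5, .ofNat 3, .negSucc 0, .negSucc 5, .negSucc 2],
      [.ofNat 3, .ofNat 6, .ofNat 2, .negSucc 1, .negSucc 5, .negSucc 2]]⟩,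
    ⟨.ofNat 0, true, true, [
      [.ofNat 1, .ofNat 3, .ofNat 1, .ofNat 0, .negSucc 2, .negSucc 1],
      [.ofNat 3, .ofNat 7, .ofNat 2, .negSucc 2, .negSucc 5, .negSucc 2],
      [.ofNat 3, .ofNat 8, .ofNat 4, .negSucc 3, .negSucc 7, .negSucc 2]]⟩,
    ⟨.ofNat 1, false, false, [
      [.ofNat 0, .ofNat 0, .ofNat 0, .ofNat 1, .ofNat 0, .negSucc 0],
      [.ofNat 0, .ofNat 0, .ofNat 1, .ofNat 2, .negSucc 0, .negSucc 1],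
      [.ofNat 1, .ofNat 3, .ofNat 3, .ofNat 0, .negSucc 3, .negSucc 2]]⟩,
    ⟨.ofNat 1, false, true, [
      [.ofNat 0, .ofNat 0, .ofNat 0, .ofNat 0, .ofNat 0, .ofNat 0]]⟩,
    ⟨.ofNat 1, true, false, [
      [.ofNat 0, .ofNat 0, .ofNat 2, .ofNat 2, .negSucc 1, .negSucc 1],
      [.ofNat 1, .ofNat 3, .ofNat 2, .negSucc 0, .negSucc 2, .negSucc 1],
      [.ofNat 1, .ofNat 3, .ofNat 4, .ofNat 0, .negSucc 4, .negSucc 2],
      [.ofNat 3, .ofNat 7, .ofNat 3, .negSucc 3, .negSucc 5, .negSucc 2],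
      [.ofNat 3, .ofNat 7, .ofNat 4, .negSucc 3, .negSucc 6, .negSucc 2]]⟩,
    ⟨.ofNat 1, true, true, [
      [.ofNat 0, .ofNat 0, .ofNat 1, .ofNat 1, .negSucc 0, .negSucc 0],
      [.ofNat 1, .ofNat 3, .ofNat 3, .negSucc 0, .negSucc 3, .negSucc 1]]⟩,
    ⟨.ofNat 2, true, false, [
      [.ofNat 0, .ofNat 0, .ofNat 0, .ofNat 1, .negSucc 0, .ofNat 0],
      [.ofNat 0, .ofNat 0, .ofNat 1, .ofNat 2, .negSucc 1, .negSucc 0],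
      [.ofNat 1, .ofNat 3, .ofNat 3, .ofNat 0, .negSucc 4, .negSucc 1]]⟩]
  | false, false => [
    ⟨.negSucc 1, false, true, [
      [.ofNat 0, .ofNat 2, .ofNat 2, .ofNat 1, .negSucc 2, .negSucc 1],
      [.ofNat 1, .ofNat 5, .ofNat 4, .negSucc 0, .negSucc 5, .negSucc 2],
      [.ofNat 2, .ofNat 6, .ofNat 3, .negSucc 1, .negSucc 5, .negSucc 2]]⟩,
    ⟨.negSucc 0, false, false, [
      [.ofNat 0, .ofNat 1, .ofNat 3, .ofNat 1, .negSucc 2, .negSucc 1],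
      [.ofNat 1, .ofNat 4, .ofNat 5, .negSucc 0, .negSucc 5, .negSucc 2],
      [.ofNat 2, .ofNat 5, .ofNat 4, .negSucc 1, .negSucc 5, .negSucc 2]]⟩,
    ⟨.negSucc 0, false, true, [
      [.ofNat 0, .ofNat 0, .ofNat 3, .ofNat 2, .negSucc 2, .negSucc 1],
      [.ofNat 1, .ofNat 2, .ofNat 2, .ofNat 0, .negSucc 2, .negSucc 1],
      [.ofNat 1, .ofNat 3, .ofNat 5, .ofNat 0, .negSucc 5, .negSucc 2],
      [.ofNat 3, .ofNat 6, .ofNat 3, .negSucc 2, .negSucc 5, .negSucc 2],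
      [.ofNat 3, .ofNat 7, .ofNat 5, .negSucc 3, .negSucc 7, .negSucc 2]]⟩,
    ⟨.negSucc 0, true, true, [
      [.ofNat 1, .ofNat 1, .ofNat 2, .ofNat 1, .negSucc 2, .negSucc 1],
      [.ofNat 2, .ofNat 4, .ofNat 4, .negSucc 0, .negSucc 5, .negSucc 2],
      [.ofNat 3, .ofNat 5, .ofNat 3, .negSucc 1, .negSucc 5, .negSucc 2]]⟩,
    ⟨.ofNat 0, false, false, [
      [.ofNat 0, .ofNat 0, .ofNat 2, .ofNat 3, .negSucc 2, .negSucc 1],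
      [.ofNat 1, .ofNat 3, .ofNat 4, .ofNat 1, .negSucc 5, .negSucc 2],
      [.ofNat 3, .ofNat 7, .ofNat 4, .negSucc 2, .negSucc 7, .negSucc 2]]⟩,
    ⟨.ofNat 0, false, true, [
      [.ofNat 0, .ofNat 0, .ofNat 0, .ofNat 2, .negSucc 0, .negSucc 0],
      [.ofNat 0, .ofNat 0, .ofNat 1, .ofNat 3, .negSucc 1, .negSucc 1],
      [.ofNat 1, .ofNat 3, .ofNat 2, .ofNat 0, .negSucc 3, .negSucc 1],
      [.ofNat 1, .ofNat 3, .ofNat 3, .ofNat 1, .negSucc 4, .negSucc 2],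
      [.ofNat 3, .ofNat 7, .ofNat 3, .negSucc 2, .negSucc 6, .negSucc 2]]⟩,
    ⟨.ofNat 0, true, false, [
      [.ofNat 0, .ofNat 1, .ofNat 2, .ofNat 2, .negSucc 2, .negSucc 1],
      [.ofNat 1, .ofNat 2, .ofNat 1, .ofNat 1, .negSucc 2, .negSucc 1],
      [.ofNat 1, .ofNat 4, .ofNat 4, .ofNat 0, .negSucc 5, .negSucc 2],
      [.ofNat 2, .ofNat 5, .ofNat 3, .negSucc 0, .negSucc 5, .negSucc 2],
      [.ofNat 3, .ofNat 6, .ofNat 2, .negSucc 1, .negSucc 5, .negSucc 2],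
      [.ofNat 3, .ofNat 8, .ofNat 4, .negSucc 3, .negSucc 7, .negSucc 2]]⟩,
    ⟨.ofNat 0, true, true, [
      [.ofNat 1, .ofNat 3, .ofNat 1, .ofNat 0, .negSucc 2, .negSucc 1],
      [.ofNat 3, .ofNat 7, .ofNat 2, .negSucc 2, .negSucc 5, .negSucc 2]]⟩,
    ⟨.ofNat 1, false, false, [
      [.ofNat 0, .ofNat 0, .ofNat 0, .ofNat 1, .ofNat 0, .negSucc 0],
      [.ofNat 0, .ofNat 0, .ofNat 1, .ofNat 2, .negSucc 0, .negSucc 1],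
      [.ofNat 1, .ofNat 3, .ofNat 3, .ofNat 0, .negSucc 3, .negSucc 2]]⟩,
    ⟨.ofNat 1, false, true, [
      [.ofNat 0, .ofNat 0, .ofNat 0, .ofNat 0, .ofNat 0, .ofNat 0]]⟩,
    ⟨.ofNat 1, true, false, [
      [.ofNat 0, .ofNat 0, .ofNat 2, .ofNat 2, .negSucc 1, .negSucc 1],
      [.ofNat 1, .ofNat 3, .ofNat 2, .negSucc 0, .negSucc 2, .negSucc 1],
      [.ofNat 1, .ofNat 3, .ofNat 4, .ofNat 0, .negSucc 4, .negSucc 2],
      [.ofNat 3, .ofNat 7, .ofNat 3, .negSucc 3, .negSucc 5, .negSucc 2],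
      [.ofNat 3, .ofNat 7, .ofNat 4, .negSucc 3, .negSucc 6, .negSucc 2]]⟩,
    ⟨.ofNat 1, true, true, [
      [.ofNat 0, .ofNat 0, .ofNat 1, .ofNat 1, .negSucc 0, .negSucc 0],
      [.ofNat 1, .ofNat 3, .ofNat 3, .negSucc 0, .negSucc 3, .negSucc 1]]⟩,
    ⟨.ofNat 2, true, false, [
      [.ofNat 0, .ofNat 0, .ofNat 0, .ofNat 1, .negSucc 0, .ofNat 0],
      [.ofNat 0, .ofNat 0, .ofNat 1, .ofNat 2, .negSucc 1, .negSucc 0],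
      [.ofNat 1, .ofNat 3, .ofNat 3, .ofNat 0, .negSucc 4, .negSucc 1]]⟩]

/-- forbidden patterns, by the outgoing direction of the first endpoint and the two directions
of the last endpoint; the incoming direction of the first endpoint is `true` -/
def pat : Bool → Bool → Bool → List Pat
  | true, true, true => [⟨.negSucc 0, .negSucc 1, [.ofNat 0, .ofNat 0]⟩, ⟨.ofNat 1, .ofNat 0, [.ofNat 1, .ofNat 0]⟩, ⟨.negSucc 0, .negSucc 1, [.ofNat 1, .ofNat 0, .ofNat 0]⟩, ⟨.ofNat 0, .negSucc 0, [.ofNat 0, .ofNat 1, .negSucc 0]⟩, ⟨.ofNat 1, .negSucc 1, [.ofNat 0, .ofNat 0, .negSucc 0]⟩, ⟨.ofNat 1, .ofNat 0, [.ofNat 2, .ofNat 0, .ofNat 0]⟩, ⟨.negSucc 1, .negSucc 1, [.ofNat 1, .negSucc 0, .ofNat 0]⟩]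
  | true, true, false => [⟨.negSucc 0, .negSucc 1, [.ofNat 0, .ofNat 0]⟩, ⟨.ofNat 1, .ofNat 0, [.ofNat 1, .ofNat 0]⟩, ⟨.negSucc 0, .negSucc 1, [.ofNat 1, .ofNat 0, .ofNat 0]⟩, ⟨.ofNat 0, .negSucc 0, [.ofNat 0, .ofNat 1, .negSucc 0]⟩, ⟨.ofNat 1, .negSucc 1, [.ofNat 0, .ofNat 0, .negSucc 0]⟩, ⟨.ofNat 1, .ofNat 0, [.ofNat 2, .ofNat 0, .ofNat 0]⟩, ⟨.negSucc 1, .negSucc 1, [.ofNat 1, .negSucc 0, .ofNat 0]⟩]
  | true, false, true => [⟨.negSucc 0, .negSucc 1, [.ofNat 0, .negSucc 0]⟩, ⟨.ofNat 0, .negSucc 1, [.ofNat 0, .negSucc 0]⟩, ⟨.ofNat 0, .negSucc 1, [.ofNat 1, .negSucc 0, .ofNat 0]⟩, ⟨.ofNat 1, .negSucc 1, [.ofNat 0, .ofNat 0, .negSucc 0]⟩, ⟨.negSucc 0, .negSucc 2, [.ofNat 0, .ofNat 0, .negSucc 1]⟩, ⟨.ofNat 0, .negSucc 1, [.ofNat 2, .negSucc 0, .ofNat 0]⟩, ⟨.ofNat 0, .negSucc 1, [.ofNat 0, .ofNat 0, .negSucc 0]⟩, ⟨.ofNat 0, .negSucc 1, [.ofNat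 1, .negSucc 0, .negSucc 0]⟩, ⟨.ofNat 1, .negSucc 0, [.ofNat 0, .ofNat 0, .negSucc 0]⟩, ⟨.negSucc 0, .negSucc 1, [.ofNat 0, .ofNat 0, .negSucc 0]⟩, ⟨.ofNat 0, .negSucc 1, [.ofNat 0, .ofNat 0, .negSucc 1]⟩, ⟨.ofNat 0, .negSucc 1, [.ofNat 0, .ofNat 0, .ofNat 0]⟩, ⟨.ofNat 1, .negSucc 1, [.ofNat 0, .ofNat 0, .ofNat 0]⟩]
  | true, false, false => [⟨.negSucc 0, .negSucc 1, [.ofNat 0, .negSucc 0]⟩, ⟨.ofNat 0, .negSucc 1, [.ofNat 0, .negSucc 0]⟩, ⟨.ofNat 0, .negSucc 1, [.ofNat 1, .negSucc 0, .ofNat 0]⟩, ⟨.ofNat 1, .negSucc 1, [.ofNat 0, .ofNat 0, .negSucc 0]⟩, ⟨.negSucc 0, .negSucc 2, [.ofNat 0, .ofNat 0, .negSucc 1]⟩, ⟨.ofNat 0, .negSucc 1, [.ofNat 2, .negSucc 0, .ofNat 0]⟩, ⟨.ofNat 0, .negSucc 1, [.ofNat 0, .ofNat 0, .negSucc 0]⟩, ⟨.ofNat 0, .negSucc 1, [.ofNat 1, .negSucc 0, .negSucc 0]⟩, ⟨.ofNat 1, .negSucc 0, [.ofNat 0, .ofNat 0, .negSucc 0]⟩,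 ⟨.negSucc 0, .negSucc 1, [.ofNat 0, .ofNat 0, .negSucc 0]⟩, ⟨.ofNat 0, .negSucc 1, [.ofNat 0, .ofNat 0, .negSucc 1]⟩, ⟨.ofNat 0, .negSucc 1, [.ofNat 0, .ofNat 0, .ofNat 0]⟩, ⟨.ofNat 1, .negSucc 1, [.ofNat 0, .ofNat 0, .ofNat 0]⟩]
  | false, true, true => [⟨.ofNat 0, .ofNat 0, [.ofNat 1, .ofNat 0]⟩, ⟨.ofNat 1, .ofNat 0, [.ofNat 1, .ofNat 0]⟩, ⟨.negSucc 0, .negSucc 1, [.ofNat 1, .ofNat 0, .ofNat 0]⟩, ⟨.ofNat 0, .negSucc 0, [.ofNat 0, .ofNat 1, .negSucc 0]⟩, ⟨.ofNat 1, .ofNat 0, [.ofNat 2, .ofNat 0, .ofNat 0]⟩, ⟨.ofNat 0, .negSucc 0, [.ofNat 1, .ofNat 0, .ofNat 0]⟩, ⟨.negSucc 0, .negSucc 0, [.ofNat 1, .ofNat 0, .ofNat 0]⟩, ⟨.negSucc 1, .negSucc 1, [.ofNat 1, .negSucc 0, .ofNat 0]⟩, ⟨.negSucc 0, .negSucc 0, [.ofNat 0, .ofNat 0, .ofNat 0]⟩, ⟨.ofNat 0, .negSucc 0, [.ofNat 0, .ofNat 0, .ofNat 0]⟩]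
  | false, true, false => [⟨.ofNat 0, .ofNat 0, [.ofNat 1, .ofNat 0]⟩, ⟨.ofNat 1, .ofNat 0, [.ofNat 1, .ofNat 0]⟩, ⟨.negSucc 0, .negSucc 1, [.ofNat 1, .ofNat 0, .ofNat 0]⟩, ⟨.ofNat 0, .negSucc 0, [.ofNat 0, .ofNat 1, .negSucc 0]⟩, ⟨.ofNat 1, .ofNat 0, [.ofNat 2, .ofNat 0, .ofNat 0]⟩, ⟨.ofNat 0, .negSucc 0, [.ofNat 1, .ofNat 0, .ofNat 0]⟩, ⟨.negSucc 0, .negSucc 0, [.ofNat 1, .ofNat 0, .ofNat 0]⟩, ⟨.negSucc 1, .negSucc 1, [.ofNat 1, .negSucc 0, .ofNat 0]⟩, ⟨.negSucc 0, .negSucc 0, [.ofNat 0, .ofNat 0, .ofNat 0]⟩, ⟨.ofNat 0, .negSucc 0, [.ofNat 0, .ofNat 0, .ofNat 0]⟩]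
  | false, false, true => [⟨.negSucc 0, .negSucc 1, [.ofNat 0, .negSucc 0]⟩, ⟨.ofNat 1, .ofNat 0, [.ofNat 0, .ofNat 0]⟩, ⟨.ofNat 0, .negSucc 1, [.ofNat 1, .negSucc 0, .ofNat 0]⟩, ⟨.negSucc 0, .negSucc 2, [.ofNat 0, .ofNat 0, .negSucc 1]⟩, ⟨.ofNat 0, .negSucc 1, [.ofNat 2, .negSucc 0, .ofNat 0]⟩, ⟨.ofNat 0, .negSucc 1, [.ofNat 1, .negSucc 0, .negSucc 0]⟩, ⟨.negSucc 0, .negSucc 0, [.ofNat 1, .ofNat 0, .ofNat 0]⟩, ⟨.ofNat 1, .negSucc 0, [.ofNat 0, .ofNat 0, .negSucc 0]⟩]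
  | false, false, false => [⟨.negSucc 0, .negSucc 1, [.ofNat 0, .negSucc 0]⟩, ⟨.ofNat 1, .ofNat 0, [.ofNat 0, .ofNat 0]⟩, ⟨.ofNat 0, .negSucc 1, [.ofNat 1, .negSucc 0, .ofNat 0]⟩, ⟨.negSucc 0, .negSucc 2, [.ofNat 0, .ofNat 0, .negSucc 1]⟩, ⟨.ofNat 0, .negSucc 1, [.ofNat 2, .negSucc 0, .ofNat 0]⟩, ⟨.ofNat 0, .negSucc 1, [.ofNat 1, .negSucc 0, .negSucc 0]⟩, ⟨.negSucc 0, .negSucc 0, [.ofNat 1, .ofNat 0, .ofNat 0]⟩, ⟨.ofNat 1, .negSucc 0, [.ofNat 0, .ofNat 0, .negSucc 0]⟩]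

end LevelWords
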