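import Pool.Agent.LevelWords.SoundE
import Pool.Agent.LevelWords.Chk2

/-!
# Unimodal words: far and short windows
-/

namespace LevelWords

variable {D : ℤ → ℤ}

theorem farL_sound {o : ℤ} {v : List ℤ} (hc : farL o v = true) (hU : Uni D) (h1 : D 1 = 0)
    (ho : o ≤ 2) (hz : ∀ z, o ≤ z → z ≤ 2 → nz v z + comb D z = 0) : D 0 = 0 := by
  unfold farL at hc
  simp only [Bool.or_eq_true, Bool.and_eq_true, decide_eq_true_eq] at hc
  have e2 : comb D 2 = 8 * D 1 + 3 * D 0 := comb_even 1
  have e1 : comb D 1 = 8 * D 0 + 3 * D 1 := comb_odd 0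
  have e0 : comb D 0 = 8 * D 0 + 3 * D (-1) := comb_even 0
  have z2 := hz 2 ho le_rfl
  rcases hc with ((hc | hc) | ⟨hc1, hc2⟩) | ⟨⟨hc1, hc2⟩, hc3⟩
  · omega
  · omega
  · have z1 := hz 1 hc1 (by norm_num)
    omega
  · have z0 := hz 0 hc1 (by norm_num)
    have := hU (-1) 0 (by norm_num)
    omega

theorem farR_sound {o : ℤ} {v : List ℤ} (hc : farR o v = true) (hU : Uni D) (h1 : D (-2) = 0)
    (ho : -2 ≤ o) (hz : ∀ z, -3 ≤ z → z < o → nz v z + comb D z = 0) : D (-1) = 0 := by
  unfold farR at hc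
  simp only [Bool.or_eq_true, Bool.and_eq_true, decide_eq_true_eq] at hc
  have e2 : comb D (-3) = 8 * D (-2) + 3 * D (-1) := comb_odd (-2)
  have e1 : comb D (-2) = 8 * D (-1) + 3 * D (-2) := comb_even (-1)
  have e0 : comb D (-1) = 8 * D (-1) + 3 * D 0 := comb_odd (-1)
  have z2 := hz (-3) le_rfl (by omega)
  rcases hc with ((hc | hc) | ⟨hc1, hc2⟩) | ⟨⟨hc1, hc2⟩, hc3⟩
  · omega
  · omega
  · have z1 := hz (-2) (by norm_num) (by omega)
    omega
  · have z0 := hz (-1) (by norm_num) (by omega)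
    have := hU (-1) 0 (by norm_num)
    omega

theorem comb_shift (c z : ℤ) : comb D (2 * c + z) = comb (fun y => D (c + y)) z := by
  rcases Int.emod_two_eq_zero_or_one z with hp | hp
  · obtain ⟨I, rfl⟩ : ∃ I, z = 2 * I := ⟨z / 2, by omega⟩
    rw [show 2 * c + 2 * I = 2 * (c + I) by ring, comb_even, comb_even,
      show c + I - 1 = c + (I - 1) by ring]
  · obtain ⟨I, rfl⟩ : ∃ I, z = 2 * I + 1 := ⟨z / 2, by omega⟩
    rw [show 2 * c + (2 * I + 1) = 2 * (c + I) + 1 by ring, comb_odd, comb_odd,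
      show c + I + 1 = c + (I + 1) by ring]

theorem Uni.shift (h : Uni D) (c : ℤ) : Uni fun y => D (c + y) :=
  fun x y hxy => h (c + x) (c + y) (by omega)

/-- a flat part in a far window comes from a flat part -/
theorem far_sound (hU : Uni D) {d oA oB : ℤ} {u w : List ℤ} (hul : u.length = 6)
    (hwl : w.length = 6) (hA1 : -2 ≤ oA) (hA2 : oA ≤ 2) (hB1 : -2 ≤ oB) (hB2 : oB ≤ 2)
    (uL : farL oA u = true) (uR : farR oA u = true) (wL : farL oB w = true)
    (wR : farR oB w = true) (hd : 4 ≤ d ∨ d ≤ -4) (h : Ev1 oA (2 * d + oB) (Fn d u w D)) :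
    Ev1 0 d D := by
  rcases hd with hd | hd
  · rcases h with ⟨-, h⟩ | ⟨h, -⟩
    swap
    · omega
    have hp : ∀ I, 1 ≤ I → I ≤ d - 3 → D I = 0 ∧ D (I + 1) = 0 := by
      intro I h1 h2
      have k1 := h (2 * I + 1) (by omega) (by omega)
      have k2 := h (2 * (I + 1)) (by omega) (by omega)
      unfold Fn at k1 k2
      rw [nz_big hul (by omega), nz_small (by omega), comb_odd] at k1
      rw [nz_big hul (by omega), nz_small (by omega), comb_even,
        show I + 1 - 1 = I by ring] at k2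
      omega
    have h0 : D 0 = 0 := by
      refine farL_sound uL hU (hp 1 le_rfl (by omega)).1 hA2 fun z h1 h2 => ?_
      have := h z h1 (by omega)
      unfold Fn at this
      rw [nz_small (show z - 2 * d < -3 by omega)] at this
      omega
    have h2 : D (d - 1) = 0 := by
      have := farR_sound (D := fun y => D (d + y)) wR (hU.shift d) ?_ hB1 fun z h1 h2 => ?_
      · rwa [show d - 1 = d + -1 by ring]
      · have := (hp (d - 3) (by omega) le_rfl).2
        rwa [show d + -2 = d - 3 + 1 by ring]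
      · have := h (2 * d + z) (by omega) (by omega)
        unfold Fn at this
        rw [nz_big hul (by omega), comb_shift, show 2 * d + z - 2 * d = z by ring] at this
        omega
    left
    refine ⟨by omega, fun x hx1 hx2 => ?_⟩
    rcases eq_or_lt_of_le hx1 with e | e
    · rw [← e]; exact h0
    rcases le_or_gt x (d - 3) with e' | e'
    · exact (hp x (by omega) e').1
    rcases eq_or_lt_of_le (show d - 2 ≤ x by omega) with e'' | e''
    · have := (hp (x - 1) (by omega) (by omega)).2
      rwa [show x - 1 + 1 = x by ring] at this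
    · rwa [show x = d - 1 by omega]
  · rcases h with ⟨h, -⟩ | ⟨-, h⟩
    · omega
    have hp : ∀ I, d + 1 ≤ I → I ≤ -3 → D I = 0 ∧ D (I + 1) = 0 := by
      intro I h1 h2
      have k1 := h (2 * I + 1) (by omega) (by omega)
      have k2 := h (2 * (I + 1)) (by omega) (by omega)
      unfold Fn at k1 k2
      rw [nz_small (by omega), nz_big hwl (by omega), comb_odd] at k1
      rw [nz_small (by omega), nz_big hwl (by omega), comb_even,
        show I + 1 - 1 = I by ring] at k2
      omega
    have h0 : D (-1) = 0 := by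
      refine farR_sound uR hU ?_ hA1 fun z h1 h2 => ?_
      · have := (hp (-3) (by omega) le_rfl).2
        exact this
      · have := h z (by omega) h2
        unfold Fn at this
        rw [nz_big hwl (by omega)] at this
        omega
    have h2 : D d = 0 := by
      have := farL_sound (D := fun y => D (d + y)) wL (hU.shift d) ?_ hB2 fun z h1 h2 => ?_
      · rwa [show d = d + 0 by ring]
      · exact (hp (d + 1) le_rfl (by omega)).1
      · have := h (2 * d + z) (by omega) (by omega)
        unfold Fn at this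
        rw [nz_small (by omega), comb_shift, show 2 * d + z - 2 * d = z by ring] at this
        omega
    right
    refine ⟨by omega, fun x hx1 hx2 => ?_⟩
    rcases eq_or_lt_of_le hx1 with e | e
    · rw [← e]; exact h2
    rcases le_or_gt x (-3) with e' | e'
    · exact (hp x (by omega) e').1
    rcases eq_or_lt_of_le (show -2 ≤ x by omega) with e'' | e''
    · have := (hp (x - 1) (by omega) (by omega)).2
      rwa [show x - 1 + 1 = x by ring] at this
    · rwa [show x = -1 by omega]

theorem nonzero_sound {G : ℤ → ℤ} : ∀ (n : ℕ) (g : ℤ), nonzero G n g = true →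
    ∃ z, g ≤ z ∧ z < g + n ∧ G z ≠ 0
  | 0, g, h => by simp [nonzero] at h
  | n + 1, g, h => by
    simp only [nonzero, Bool.or_eq_true, decide_eq_true_eq] at h
    rcases h with h | h
    · exact ⟨g, le_rfl, by push_cast; omega, h⟩
    · obtain ⟨z, h1, h2, h3⟩ := nonzero_sound n (g + 1) h
      exact ⟨z, by omega, by push_cast; omega, h3⟩

theorem nonpos_sound {G : ℤ → ℤ} : ∀ (n : ℕ) (g : ℤ), nonpos G n g = true →
    ∀ z, g ≤ z → z < g + n → G z ≤ 0
  | 0, g, _, z, h1, h2 => by
    push_cast at h2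
    omega
  | n + 1, g, h, z, h1, h2 => by
    simp only [nonpos, Bool.and_eq_true, decide_eq_true_eq] at h
    rcases eq_or_lt_of_le h1 with e | e
    · rw [← e]; exact h.1
    · exact nonpos_sound n (g + 1) h.2 z (by omega) (by push_cast at h2; omega)

theorem differs_sound {G : ℤ → ℤ} : ∀ (vs : List ℤ) (g : ℤ), differs G g vs = true → ¬ Agr G g vs
  | [], _, h, _ => by simp [differs] at h
  | v :: vs, g, h, h' => by
    simp only [differs, Bool.or_eq_true, decide_eq_true_eq] at h
    rcases h with h | h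
    · exact h h'.1
    · exact differs_sound vs (g + 1) h h'.2

theorem okw_sound {x y : ℤ} {c0 c1 e0 e1 : Bool} {G : ℤ → ℤ} (h : okw x y c0 c1 e0 e1 G = true)
    (hx : x ≤ 2) (hG : ∀ z, 7 ≤ z → G z = 0) :
    ¬ Ev1 x y G ∧ ¬ Ev2 x y G ∧
    (c0 = true → ∀ P ∈ pat c1 e0 e1, P.d = y - x → ¬ Agr G (x + P.e) P.v) := by
  unfold okw at h
  rw [Bool.and_eq_true] at h
  obtain ⟨h1, h2⟩ := h
  refine ⟨?_, ?_, ?_⟩
  · rintro (⟨k1, k2⟩ | ⟨k1, k2⟩)
    · rw [if_pos k1] at h1
      obtain ⟨z, z1, z2, z3⟩ := nonzero_sound _ _ h1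
      exact z3 (k2 z z1 (by omega))
    · rw [if_neg (by omega), if_pos k1] at h1
      obtain ⟨z, z1, z2, z3⟩ := nonzero_sound _ _ h1
      exact z3 (k2 z z1 (by omega))
  · rintro ⟨k1, k2, z, k3, k4, -⟩
    rw [if_neg (by omega), if_neg (by omega), if_pos k1, Bool.or_eq_true, decide_eq_true_eq] at h1
    rcases h1 with h1 | h1
    · exact h1 k2
    · rcases lt_or_ge z 7 with hz | hz
      · have := nonpos_sound _ _ h1 z (by omega) (by omega)
        omega
      · rw [hG z hz] at k4
        omega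
  · intro hc P hP hd
    rw [Bool.or_eq_true, List.all_eq_true] at h2
    rcases h2 with h2 | h2
    · rw [hc] at h2
      simp at h2
    · have := h2 P hP
      simp only [Bool.or_eq_true, decide_eq_true_eq] at this
      rcases this with h3 | h3
      · exact absurd hd h3
      · exact differs_sound _ _ h3

theorem comb_zero {m : ℤ} (hm : ∀ y, m ≤ y → D y = 0) {z : ℤ} (hz : 2 * m + 1 ≤ z) :
    comb D z = 0 := by
  unfold comb
  split_ifs with h
  · rw [hm (z / 2) (by omega), hm (z / 2 - 1) (by omega)]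
    simp
  · rw [hm (z / 2) (by omega), hm (z / 2 + 1) (by omega)]
    simp

theorem chkS_sound {a0 a1 b0 b1 : Bool} {d : ℤ} (hc : chkS a0 a1 b0 b1 d D = true)
    (hD : ∀ y, 2 ≤ y → D y = 0) (hd : d ≤ 2) {A B : Grp} (hA : A ∈ gA a0 a1) (hB : B ∈ gB b0 b1)
    {u w : List ℤ} (hu : u ∈ A.l) (hw : w ∈ B.l) (hul : u.length = 6) (hwl : w.length = 6)
    (hA2 : A.o ≤ 2) :
    ¬ Ev1 A.o (2 * d + B.o) (Fn d u w D) ∧ ¬ Ev2 A.o (2 * d + B.o) (Fn d u w D) ∧
    (A.c0 = true → ∀ P ∈ pat A.c1 B.c0 B.c1, P.d = 2 * d + B.o - A.o →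
      ¬ Agr (Fn d u w D) (A.o + P.e) P.v) := by
  unfold chkS at hc
  simp only [List.all_eq_true] at hc
  refine okw_sound (hc A hA B hB u hu w hw) hA2 fun z hz => ?_
  unfold Fn
  rw [nz_big hul (by omega), nz_big hwl (by omega), comb_zero hD (by omega)]
  norm_num

end LevelWords
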