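import Mathlib.Tactic
import Pool.Agent.LevelWords.Chk

/-!
# Unimodal words: windows, and the minimal violations of unimodality
-/

namespace LevelWords

open Finset

theorem dl_def (a x : ℤ) :
    dl a x = (if a = x + 1 then 1 else 0) - (if a = x then 1 else 0) := by
  unfold dl
  by_cases h1 : a = x + 1
  · have h2 : a ≠ x := by omega
    simp [h1]
  · by_cases h2 : a = x
    · simp [h2]
    · simp [h1, h2]

theorem dl_cases (a x : ℤ) :
    (x = a - 1 ∧ dl a x = 1) ∨ (x = a ∧ dl a x = -1) ∨ (x ≠ a - 1 ∧ x ≠ a ∧ dl a x = 0) := by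
  rw [dl_def]
  by_cases h1 : a = x + 1
  · left
    have h2 : a ≠ x := by omega
    refine ⟨by omega, by simp [h1]⟩
  · by_cases h2 : a = x
    · right; left
      refine ⟨h2.symm, by simp [h2]⟩
    · right; right
      refine ⟨by omega, fun h => h2 h.symm, by simp [h1, h2]⟩

theorem dl_shift (a o x : ℤ) : dl (a + o) x = dl o (x - a) := by
  rcases dl_cases (a + o) x with h | h | h <;> rcases dl_cases o (x - a) with h' | h' | h' <;> omega

theorem dl_neg (a x : ℤ) : dl (-a) x = - dl a (-x - 1) := by
  rcases dl_cases (-a) x with h | h | h <;> rcases dl_cases a (-x - 1) with h' | h' | h' <;> omega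

/-- cumulative differences of the letter counts -/
def C (W : ℤ → ℤ) (x : ℤ) : ℤ → ℤ
  | .ofNat n => ∑ i ∈ range n, dl (W i) x
  | .negSucc n => - ∑ i ∈ range (n + 1), dl (W (.negSucc i)) x

theorem C_succ (W : ℤ → ℤ) (x t : ℤ) : C W x (t + 1) = C W x t + dl (W t) x := by
  rcases t with n | n
  · change ∑ i ∈ range (n + 1), dl (W i) x = ∑ i ∈ range n, dl (W i) x + _
    rw [sum_range_succ]
    rfl
  · rcases n with _ | n
    · change C W x (Int.ofNat 0) = C W x (Int.negSucc 0) + _
      unfold C
      simp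
    · change - ∑ i ∈ range (n + 1), dl (W (.negSucc i)) x =
        - ∑ i ∈ range (n + 1 + 1), dl (W (.negSucc i)) x + _
      rw [sum_range_succ (n := n + 1)]
      ring

/-- differences of the letter counts in the window `[a, b)` -/
def E (W : ℤ → ℤ) (a b x : ℤ) : ℤ := C W x b - C W x a

theorem E_self (W : ℤ → ℤ) (a x : ℤ) : E W a a x = 0 := sub_self _

theorem E_right (W : ℤ → ℤ) (a b x : ℤ) : E W a (b + 1) x = E W a b x + dl (W b) x := by
  unfold E
  rw [C_succ]
  ring

theorem E_left (W : ℤ → ℤ) (a b x : ℤ) : E W a b x = dl (W a) x + E W (a + 1) b x := by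
  unfold E
  rw [C_succ]
  ring

theorem E_add (W : ℤ → ℤ) (a b c x : ℤ) : E W a b x + E W b c x = E W a c x := by
  unfold E
  ring

theorem C_neg (W : ℤ → ℤ) (x t : ℤ) : C (fun t => - W t) x t = - C W (-x - 1) t := by
  rcases t with n | n
  · change ∑ i ∈ range n, dl (- W i) x = - ∑ i ∈ range n, dl (W i) (-x - 1)
    rw [← sum_neg_distrib]
    exact sum_congr rfl fun i _ => dl_neg _ _
  · change - ∑ i ∈ range (n + 1), dl (- W (.negSucc i)) x =
      - - ∑ i ∈ range (n + 1), dl (W (.negSucc i)) (-x - 1)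
    rw [← sum_neg_distrib (f := fun i => dl (W (.negSucc i)) (-x - 1))]
    rw [neg_inj]
    exact sum_congr rfl fun i _ => dl_neg _ _

theorem E_neg (W : ℤ → ℤ) (a b x : ℤ) : E (fun t => - W t) a b x = - E W a b (-x - 1) := by
  unfold E
  rw [C_neg, C_neg]
  ring

/-- no negative value left of a positive one -/
def Uni (f : ℤ → ℤ) : Prop := ∀ x y, x < y → f x < 0 → ¬ 0 < f y

def Ev1 (A B : ℤ) (f : ℤ → ℤ) : Prop :=
  (2 ≤ B - A ∧ ∀ w, A ≤ w → w < B → f w = 0) ∨ (2 ≤ A - B ∧ ∀ w, B ≤ w → w < A → f w = 0)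

def Ev2 (A B : ℤ) (f : ℤ → ℤ) : Prop :=
  B = A ∧ f A = 1 ∧ ∃ y, A < y ∧ 0 < f y ∧ ∀ z < y, 0 ≤ f z

def Ev3 (A B : ℤ) (f : ℤ → ℤ) : Prop :=
  B = A ∧ f (A - 1) = -1 ∧ ∃ y < A - 1, f y < 0 ∧ ∀ z, y < z → f z ≤ 0

/-- a minimal violation is one of the three events -/
theorem tri {f : ℤ → ℤ} {A B : ℤ} (h0 : Uni f) (hA : Uni fun x => dl A x + f x)
    (hB : Uni fun x => f x + dl B x) {x y : ℤ} (hxy : x < y) (hx : dl A x + f x + dl B x < 0)
    (hy : 0 < dl A y + f y + dl B y) : Ev1 A B f ∨ Ev2 A B f ∨ Ev3 A B f := by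
  have uA : ∀ x y, x < y → dl A x + f x < 0 → ¬ 0 < dl A y + f y := hA
  have uB : ∀ x y, x < y → f x + dl B x < 0 → ¬ 0 < f y + dl B y := hB
  have kA := uB x y hxy
  have kB := uA x y hxy
  have pA : (x = A ∧ f x + dl B x = 0) ∨ (y = A - 1 ∧ f y + dl B y = 0) := by
    rcases dl_cases A x with h | h | h <;> rcases dl_cases A y with h' | h' | h' <;> omega
  have pB : (x = B ∧ dl A x + f x = 0) ∨ (y = B - 1 ∧ dl A y + f y = 0) := by
    rcases dl_cases B x with h | h | h <;> rcases dl_cases B y with h' | h' | h' <;> omega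
  have sgn : ∀ z < y, 0 ≤ f z ∨ f y ≤ 0 := fun z hz => by
    by_contra h
    push Not at h
    exact h0 z y hz h.1 h.2
  have sgn' : ∀ z, x < z → f z ≤ 0 ∨ 0 ≤ f x := fun z hz => by
    by_contra h
    push Not at h
    exact h0 x z hz h.2 h.1
  rcases pA with ⟨hxA, pA⟩ | ⟨hyA, pA⟩ <;> rcases pB with ⟨hxB, pB⟩ | ⟨hyB, pB⟩
  · -- `x = A = B`
    right; left
    subst hxA
    refine ⟨hxB.symm, ?_, y, hxy, ?_, fun z hz => ?_⟩
    · rcases dl_cases B x with h | h | h <;> omega
    · rcases dl_cases B y with h | h | h <;> rcases dl_cases x y with h' | h' | h' <;> omega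
    · have := sgn z hz
      rcases dl_cases B y with h | h | h <;> rcases dl_cases x y with h' | h' | h' <;> omega
  · -- `x = A`, `y = B - 1`
    left; left
    have hB1 : dl A y = 0 ∨ y = A - 1 ∨ y = A := by
      rcases dl_cases A y with h | h | h <;> omega
    have hA1 : dl B x = 0 := by
      rcases dl_cases B x with h | h | h <;> omega
    have fA : f A = 0 := by rw [← hxA]; omega
    have fB : f (B - 1) = 0 := by rw [← hyB]; omega
    refine ⟨by omega, fun w h1 h2 => ?_⟩
    rcases lt_trichotomy (f w) 0 with h | h | h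
    · exfalso
      have hw : w ≠ B - 1 := fun e => by rw [e] at h; omega
      refine uB w (B - 1) (by omega) ?_ ?_
      · rcases dl_cases B w with h' | h' | h' <;> omega
      · rcases dl_cases B (B - 1) with h' | h' | h' <;> omega
    · exact h
    · exfalso
      have hw : w ≠ A := fun e => by rw [e] at h; omega
      refine uA A w (by omega) ?_ ?_
      · rcases dl_cases A A with h' | h' | h' <;> omega
      · rcases dl_cases A w with h' | h' | h' <;> omega
  · -- `y = A - 1`, `x = B`
    left; right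
    have hA1 : dl B y = 0 := by
      rcases dl_cases B y with h | h | h <;> omega
    have hB1 : dl A x = 0 := by
      rcases dl_cases A x with h | h | h <;> omega
    have fA : f (A - 1) = 0 := by rw [← hyA]; omega
    have fB : f B = 0 := by rw [← hxB]; omega
    refine ⟨by omega, fun w h1 h2 => ?_⟩
    rcases lt_trichotomy (f w) 0 with h | h | h
    · exfalso
      have hw : w ≠ A - 1 := fun e => by rw [e] at h; omega
      refine uA w (A - 1) (by omega) ?_ ?_
      · rcases dl_cases A w with h' | h' | h' <;> omega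
      · rcases dl_cases A (A - 1) with h' | h' | h' <;> omega
    · exact h
    · exfalso
      have hw : w ≠ B := fun e => by rw [e] at h; omega
      refine uB B w (by omega) ?_ ?_
      · rcases dl_cases B B with h' | h' | h' <;> omega
      · rcases dl_cases B w with h' | h' | h' <;> omega
  · -- `y = A - 1 = B - 1`
    right; right
    refine ⟨by omega, ?_, x, by omega, ?_, fun z hz => ?_⟩
    · rw [← hyA]
      rcases dl_cases B y with h | h | h <;> omega
    · rcases dl_cases B x with h | h | h <;> rcases dl_cases A x with h' | h' | h' <;> omega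
    · have := sgn' z hz
      rcases dl_cases B x with h | h | h <;> rcases dl_cases A x with h' | h' | h' <;> omega

/-- the window between the letters `s` and `e` -/
def O (W : ℤ → ℤ) (s e : ℤ) : ℤ → ℤ := fun x => E W (s + 1) e x

theorem uni_all {W : ℤ → ℤ} (h1 : ∀ s e, s < e → ¬ Ev1 (W s) (W e) (O W s e))
    (h2 : ∀ s e, s < e → ¬ Ev2 (W s) (W e) (O W s e))
    (h3 : ∀ s e, s < e → ¬ Ev3 (W s) (W e) (O W s e)) :
    ∀ (n : ℕ) (a b : ℤ), b - a = n → Uni (E W a b) := by
  intro n
  induction n using Nat.strong_induction_on with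
  | _ n ih =>
  intro a b hab x y hxy hx hy
  rcases n with _ | _ | n
  · have : b = a := by omega
    subst this
    rw [E_self] at hx
    omega
  · have hb : b = a + 1 := by omega
    subst hb
    rw [E_left, E_self] at hx hy
    rcases dl_cases (W a) x with h | h | h <;> rcases dl_cases (W a) y with h' | h' | h' <;> omega
  · obtain ⟨e, rfl⟩ : ∃ e, b = e + 1 := ⟨b - 1, by omega⟩
    have k0 := ih n (by omega) (a + 1) e (by omega)
    have kA : Uni fun x => dl (W a) x + E W (a + 1) e x := by
      have := ih (n + 1) (by omega) a e (by omega)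
      intro x y hxy
      have := this x y hxy
      rwa [E_left, E_left W a e y] at this
    have kB : Uni fun x => E W (a + 1) e x + dl (W e) x := by
      have := ih (n + 1) (by omega) (a + 1) (e + 1) (by omega)
      intro x y hxy
      have := this x y hxy
      rwa [E_right, E_right W (a + 1) e y] at this
    have hx' : dl (W a) x + E W (a + 1) e x + dl (W e) x < 0 := by
      rwa [E_right, E_left] at hx
    have hy' : 0 < dl (W a) y + E W (a + 1) e y + dl (W e) y := by
      rwa [E_right, E_left] at hy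
    rcases tri k0 kA kB hxy hx' hy' with h | h | h
    · exact h1 a e (by omega) h
    · exact h2 a e (by omega) h
    · exact h3 a e (by omega) h

end LevelWords
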