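import Pool.Agent.LevelPseudo.FromTrace
import Pool.Agent.LevelWords.Uni

/-!
# Unimodal words: the sequence of sets of a word
-/

namespace LevelWords

open LevelLower LevelPseudo

theorem ph_of_no {f : ℕ → ℤ} (h : ∀ t' t, t' < t → f t' < 0 → 0 < f t → False) (t₀ t₁ : ℕ) :
    Ph f t₀ t₁ 0 1 := by
  classical
  refine ⟨fun t => if ∃ t' ≤ t, f t' < 0 then 1 else 0, fun a b hab => ?_, fun t => ?_,
    fun t _ _ => ?_⟩
  · dsimp only
    split_ifs with h1 h2
    · exact le_rfl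
    · obtain ⟨t', h3, h4⟩ := h1
      exact absurd ⟨t', h3.trans hab, h4⟩ h2
    · exact Nat.zero_le _
    · exact le_rfl
  · dsimp only
    split_ifs
    · exact ⟨Nat.zero_le _, le_rfl⟩
    · exact ⟨le_rfl, Nat.zero_le _⟩
  · dsimp only
    split_ifs with h1
    · obtain ⟨t', h3, h4⟩ := h1
      rcases eq_or_lt_of_le h3 with e | e
      · rw [e] at h4
        rw [pow_one]
        linarith
      · have : ¬ 0 < f t := fun h5 => h t' t e h4 h5
        rw [pow_one]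
        linarith
    · have : ¬ f t < 0 := fun h5 => h1 ⟨t, le_rfl, h5⟩
      rw [pow_zero]
      linarith

theorem ph_of_no' {f : ℕ → ℤ} (h : ∀ t' t, t' < t → 0 < f t' → f t < 0 → False) (t₀ t₁ : ℕ) :
    Ph f t₀ t₁ 1 2 := by
  have := ph_neg' (ph_of_no (f := fun t => - f t)
    (fun t' t h1 h2 h3 => h t' t h1 (by simpa using h2) (by simpa using h3)) t₀ t₁)
  simpa using this

variable {W : ℤ → ℤ}

/-- heights -/
def Phi (W : ℤ → ℤ) (i : ℤ) (t : ℕ) : ℤ := - C W (i - 1) t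

theorem Phi_succ (i : ℤ) (t : ℕ) : Phi W i (t + 1) = Phi W i t - dl (W t) (i - 1) := by
  unfold Phi
  rw [show ((t + 1 : ℕ) : ℤ) = (t : ℤ) + 1 by push_cast; ring, C_succ]
  ring

theorem Phi_diff (i : ℤ) (t t' : ℕ) : Phi W i t' - Phi W i t = - E W t t' (i - 1) := by
  unfold Phi E
  ring

/-- the sets -/
def St (W : ℤ → ℤ) (R M : ℕ) (t : ℕ) : Finset (Fin (2 * R) × Fin (2 * M)) :=
  Finset.univ.filter fun c => (c.2 : ℤ) - M < Phi W ((c.1 : ℤ) - R) t

theorem mem_St {R M t : ℕ} {c : Fin (2 * R) × Fin (2 * M)} :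
    c ∈ St W R M t ↔ (c.2 : ℤ) - M < Phi W ((c.1 : ℤ) - R) t := by
  unfold St
  rw [Finset.mem_filter]
  exact ⟨fun h => h.2, fun h => ⟨Finset.mem_univ _, h⟩⟩

theorem St_step {T R M : ℕ} (hM : ∀ i, ∀ t ≤ T, - M ≤ Phi W i t ∧ Phi W i t ≤ M)
    (hR : ∀ t, - R ≤ W t ∧ W t + 1 < R) {t : ℕ} (ht : t < T) :
    (St W R M (t + 1)).card = (St W R M t).card ∧ St W R M t ≠ St W R M (t + 1) := by
  obtain ⟨r1, r2⟩ := hR t
  have p1 := Phi_succ (W := W) (W t) t
  have p2 := Phi_succ (W := W) (W t + 1) t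
  have d1 : dl (W t) (W t - 1) = 1 := by rcases dl_cases (W t) (W t - 1) with h | h | h <;> omega
  have d2 : dl (W t) (W t + 1 - 1) = -1 := by
    rcases dl_cases (W t) (W t + 1 - 1) with h | h | h <;> omega
  rw [d1] at p1
  rw [d2] at p2
  have m1 := hM (W t) t ht.le
  have m1' := hM (W t) (t + 1) ht
  have m2 := hM (W t + 1) t ht.le
  have m2' := hM (W t + 1) (t + 1) ht
  let u : Fin (2 * R) × Fin (2 * M) := (⟨(W t + 1 + R).toNat, by omega⟩,
    ⟨(Phi W (W t + 1) t + M).toNat, by omega⟩)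
  let v : Fin (2 * R) × Fin (2 * M) := (⟨(W t + R).toNat, by omega⟩,
    ⟨(Phi W (W t) t - 1 + M).toNat, by omega⟩)
  have u1 : ((u.1 : ℕ) : ℤ) = W t + 1 + R := by simp only [u]; omega
  have u2 : ((u.2 : ℕ) : ℤ) = Phi W (W t + 1) t + M := by simp only [u]; omega
  have v1 : ((v.1 : ℕ) : ℤ) = W t + R := by simp only [v]; omega
  have v2 : ((v.2 : ℕ) : ℤ) = Phi W (W t) t - 1 + M := by simp only [v]; omega
  have hu : u ∉ St W R M t := by
    rw [mem_St, u1, u2, show W t + 1 + (R : ℤ) - R = W t + 1 by ring]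
    omega
  have hv : v ∈ St W R M t := by
    rw [mem_St, v1, v2, show W t + (R : ℤ) - R = W t by ring]
    omega
  have hv' : v ∉ St W R M (t + 1) := by
    rw [mem_St, v1, v2, show W t + (R : ℤ) - R = W t by ring]
    omega
  have huv : u ≠ v := fun h => hu (h ▸ hv)
  have hext : St W R M (t + 1) = insert u ((St W R M t).erase v) := by
    ext c
    rw [Finset.mem_insert, Finset.mem_erase, mem_St, mem_St]
    have hcu : c = u ↔ ((c.1 : ℕ) : ℤ) = W t + 1 + R ∧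
        ((c.2 : ℕ) : ℤ) = Phi W (W t + 1) t + M := by
      rw [Prod.ext_iff, Fin.ext_iff, Fin.ext_iff]
      omega
    have hcv : c = v ↔ ((c.1 : ℕ) : ℤ) = W t + R ∧ ((c.2 : ℕ) : ℤ) = Phi W (W t) t - 1 + M := by
      rw [Prod.ext_iff, Fin.ext_iff, Fin.ext_iff]
      omega
    rw [hcu, ne_eq, hcv, Phi_succ]
    obtain ⟨x, hx⟩ : ∃ x : ℤ, x = ((c.1 : ℕ) : ℤ) - R := ⟨_, rfl⟩
    obtain ⟨y, hy⟩ : ∃ y : ℤ, y = ((c.2 : ℕ) : ℤ) := ⟨_, rfl⟩
    rw [← hx, ← hy, show ((c.1 : ℕ) : ℤ) = x + R by omega]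
    rcases dl_cases (W t) (x - 1) with h | h | h
    · have hxe : x = W t := by omega
      rw [hxe] at h ⊢
      omega
    · have hxe : x = W t + 1 := by omega
      rw [hxe] at h ⊢
      omega
    · omega
  refine ⟨?_, fun h => hv' (h ▸ hv)⟩
  rw [hext, Finset.card_insert_of_notMem, Finset.card_erase_of_mem hv]
  · have := Finset.card_pos.2 ⟨v, hv⟩
    omega
  · intro h
    exact hu (Finset.mem_of_mem_erase h)

/-- **From a unimodal word to a sequence of sets.** -/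
theorem kseq_of_word (hU : ∀ a b, a ≤ b → Uni (E W a b)) {T R M : ℕ}
    (hM : ∀ i, ∀ t ≤ T, - M ≤ Phi W i t ∧ Phi W i t ≤ M)
    (hR : ∀ t, - R ≤ W t ∧ W t + 1 < R) : KSeqC (Fin (2 * R) × Fin (2 * M)) 1 T := by
  refine ⟨(St W R M 0).card, St W R M, fun t => ?_, fun t ht => (St_step hM hR ht).2,
    fun a b hab => ?_⟩
  · induction t with
    | zero => exact fun _ => rfl
    | succ t ih => exact fun ht => (St_step hM hR ht).1.trans (ih (by omega))
  · obtain ⟨i, hi⟩ : ∃ i : ℤ, i = ((a.1 : ℕ) : ℤ) - R := ⟨_, rfl⟩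
    obtain ⟨i', hi'⟩ : ∃ i : ℤ, i = ((b.1 : ℕ) : ℤ) - R := ⟨_, rfl⟩
    obtain ⟨j, hj⟩ : ∃ j : ℤ, j = ((a.2 : ℕ) : ℤ) - M := ⟨_, rfl⟩
    obtain ⟨j', hj'⟩ : ∃ j : ℤ, j = ((b.2 : ℕ) : ℤ) - M := ⟨_, rfl⟩
    have hfun : (fun t => (if a ∈ St W R M t then (1 : ℤ) else 0) -
        (if b ∈ St W R M t then 1 else 0)) =
        fun t => (if j < Phi W i t then (1 : ℤ) else 0) - (if j' < Phi W i' t then 1 else 0) := by
      funext t
      simp only [mem_St, ← hi, ← hi', ← hj, ← hj']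
    rw [hfun]
    rcases lt_trichotomy i i' with h | h | h
    · refine ⟨0, ph_of_no (fun t' t htt h1 h2 => ?_) _ _⟩
      have e1 := Phi_diff (W := W) i t' t
      have e2 := Phi_diff (W := W) i' t' t
      refine hU t' t (by exact_mod_cast htt.le) (i - 1) (i' - 1) (by omega) ?_ ?_
      · split_ifs at h1 h2 <;> omega
      · split_ifs at h1 h2 <;> omega
    · rw [← h]
      rcases le_or_gt j j' with h' | h'
      · exact ⟨0, ph_of_no (fun t' t htt h1 h2 => by split_ifs at h1 h2 <;> omega) _ _⟩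
      · exact ⟨1, ph_of_no' (fun t' t htt h1 h2 => by split_ifs at h1 h2 <;> omega) _ _⟩
    · refine ⟨1, ph_of_no' (fun t' t htt h1 h2 => ?_) _ _⟩
      have e1 := Phi_diff (W := W) i t' t
      have e2 := Phi_diff (W := W) i' t' t
      refine hU t' t (by exact_mod_cast htt.le) (i' - 1) (i - 1) (by omega) ?_ ?_
      · split_ifs at h1 h2 <;> omega
      · split_ifs at h1 h2 <;> omega

end LevelWords
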