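import Pool.Agent.LevelWords.Step

/-!
# Unimodal words: the invariant
-/

namespace LevelWords

variable {W : ℤ → ℤ}

theorem ev1_shift {A B : ℤ} {f : ℤ → ℤ} : Ev1 0 (B - A) (fun y => f (A + y)) ↔ Ev1 A B f := by
  constructor
  · rintro (⟨h1, h2⟩ | ⟨h1, h2⟩)
    · refine Or.inl ⟨by omega, fun w hw1 hw2 => ?_⟩
      have := h2 (w - A) (by omega) (by omega)
      rwa [show (fun y => f (A + y)) (w - A) = f w by simp only [add_sub_cancel]] at this
    · refine Or.inr ⟨by omega, fun w hw1 hw2 => ?_⟩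
      have := h2 (w - A) (by omega) (by omega)
      rwa [show (fun y => f (A + y)) (w - A) = f w by simp only [add_sub_cancel]] at this
  · rintro (⟨h1, h2⟩ | ⟨h1, h2⟩)
    · exact Or.inl ⟨by omega, fun w hw1 hw2 => h2 (A + w) (by omega) (by omega)⟩
    · exact Or.inr ⟨by omega, fun w hw1 hw2 => h2 (A + w) (by omega) (by omega)⟩

theorem ev2_shift {A B : ℤ} {f : ℤ → ℤ} : Ev2 0 (B - A) (fun y => f (A + y)) ↔ Ev2 A B f := by
  constructor
  · rintro ⟨h1, h2, y, h3, h4, h5⟩
    simp only [add_zero] at h2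
    refine ⟨by omega, h2, A + y, by omega, h4, fun z hz => ?_⟩
    have := h5 (z - A) (by omega)
    rwa [show (fun y => f (A + y)) (z - A) = f z by simp only [add_sub_cancel]] at this
  · rintro ⟨h1, h2, y, h3, h4, h5⟩
    refine ⟨by omega, by simpa using h2, y - A, by omega, ?_, fun z hz => h5 (A + z) (by omega)⟩
    simpa only [show A + (y - A) = y by ring] using h4

theorem agr_shift {A : ℤ} {f : ℤ → ℤ} : ∀ (v : List ℤ) (e : ℤ), Agr (fun y => f (A + y)) e v →
    Agr f (A + e) v
  | [], _, _ => trivial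
  | _ :: v, e, h => ⟨h.1, by
      have := agr_shift v (e + 1) h.2
      rwa [← add_assoc] at this⟩

theorem Lw_neg (W : ℤ → ℤ) (s e y : ℤ) : Lw (fun t => - W t) s e y = - Lw W s e (-y - 1) := by
  unfold Lw
  rw [E_neg]
  congr 2
  ring

theorem Good.uni (h : Good W) {a b : ℤ} (hab : a ≤ b) : Uni (E W a b) := by
  refine uni_all (fun s e hse h1 => (h.2.1 s e hse).1 (ev1_shift.2 h1))
    (fun s e hse h1 => (h.2.1 s e hse).2.1 (ev2_shift.2 h1)) (fun s e hse h1 => ?_)
    (b - a).toNat a b (by omega)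
  obtain ⟨h1, h2, y, h3, h4, h5⟩ := h1
  unfold O at h2 h4 h5
  refine (h.2.2 s e hse).2.1 ⟨by simp only; omega, ?_, W s - 1 - y, by omega, ?_, fun z hz => ?_⟩
  · rw [Lw_neg]
    unfold Lw
    rw [show W s + (-0 - 1) = W s - 1 by ring, h2]
    norm_num
  · rw [Lw_neg]
    unfold Lw
    rw [show W s + (-(W s - 1 - y) - 1) = y by ring]
    omega
  · rw [Lw_neg]
    unfold Lw
    have := h5 (W s + (-z - 1)) (by omega)
    omega

theorem Good.neg (h : Good W) : Good fun t => - W t := by
  refine ⟨h.1.neg, h.2.2, ?_⟩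
  simp only [neg_neg]
  exact h.2.1

theorem dl_at (a o y : ℤ) : dl (a + o) (a + y) = dl o y := by
  rw [dl_shift, show a + y - a = y by ring]

theorem agr_drop {D : ℤ → ℤ} : ∀ (n : ℕ) (l : List ℤ) (x : ℤ), Agr D x l → Agr D (x + n) (l.drop n)
  | 0, l, x, h => by simpa using h
  | n + 1, [], x, h => by simp [Agr]
  | n + 1, d :: l, x, h => by
    have := agr_drop n l (x + 1) h.2
    rw [List.drop_succ_cons]
    rwa [show x + ((n + 1 : ℕ) : ℤ) = x + 1 + n by push_cast; ring]

theorem occ_sound {D : ℤ → ℤ} {e first : ℤ} {v asc : List ℤ} (h : occ e v first asc = true)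
    (hA : Agr D first asc) : Agr D e v := by
  unfold occ at h
  rw [Bool.and_eq_true, decide_eq_true_eq, List.isPrefixOf_iff_prefix] at h
  obtain ⟨h1, t, ht⟩ := h
  have h2 := agr_drop (e - first).toNat asc first hA
  rw [← ht, agr_append] at h2
  rw [show first + ((e - first).toNat : ℤ) = e by omega] at h2
  exact h2.1

theorem agr_flip {D : ℤ → ℤ} : ∀ (v : List ℤ) (e : ℤ),
    Agr D (-(e + v.length)) (v.reverse.map fun x => -x) → Agr (fun y => - D (-y - 1)) e v
  | [], _, _ => trivial
  | d :: v, e, h => by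
    rw [List.reverse_cons, List.map_append, agr_append] at h
    obtain ⟨h1, h2⟩ := h
    refine ⟨?_, agr_flip v (e + 1) ?_⟩
    · have := h2.1
      rw [List.length_map, List.length_reverse, List.length_cons,
        show -(e + ((v.length + 1 : ℕ) : ℤ)) + v.length = -e - 1 by push_cast; ring] at this
      simp only at this ⊢
      omega
    · rw [List.length_cons] at h1
      rwa [show -(e + 1 + (v.length : ℤ)) = -(e + ((v.length + 1 : ℕ) : ℤ)) by push_cast; ring]

theorem Good.loc (h : Good W) {s e : ℤ} (hse : s + 3 ≤ e) :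
    Loc (dir W (s - 1)) (dir W s) (dir W (e - 1)) (dir W e) (W e - W s) (Lw W s e) := by
  constructor
  · intro l hl r hr
    have hL : ∃ a ≤ s + 2, ∀ b y, E W a b (W s + y) = E W (s + 1) b (W s + y) + l y := by
      simp only [lops, List.mem_cons, List.not_mem_nil, or_false] at hl
      rcases hl with rfl | rfl | rfl | rfl
      · exact ⟨s + 1, by omega, fun b y => (add_zero _).symm⟩
      · refine ⟨s, by omega, fun b y => ?_⟩
        have := dl_at (W s) 0 y
        rw [add_zero] at this
        rw [E_left, this]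
        ring
      · refine ⟨s - 1, by omega, fun b y => ?_⟩
        have h1 := dl_at (W s) 0 y
        rw [add_zero] at h1
        have h2 := dl_at (W s) (- sg (dir W (s - 1))) y
        have h3 := h.1.step (s - 1)
        rw [show s - 1 + 1 = s by ring] at h3
        rw [E_left, show s - 1 + 1 = s by ring, E_left, h1]
        rw [show W s + - sg (dir W (s - 1)) = W (s - 1) by omega] at h2
        rw [h2]
        ring
      · refine ⟨s + 2, by omega, fun b y => ?_⟩
        have h2 := dl_at (W s) (sg (dir W s)) y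
        have h3 := h.1.step s
        rw [← h3] at h2
        rw [E_left W (s + 1), h2, show s + 1 + 1 = s + 2 by ring]
        ring
    have hR : ∃ b, e - 1 ≤ b ∧ ∀ a y, E W a b (W s + y) = E W a e (W s + y) + r y := by
      simp only [rops, List.mem_cons, List.not_mem_nil, or_false] at hr
      rcases hr with rfl | rfl | rfl | rfl
      · exact ⟨e, by omega, fun b y => (add_zero _).symm⟩
      · refine ⟨e + 1, by omega, fun a y => ?_⟩
        have := dl_at (W s) (W e - W s) y
        rw [show W s + (W e - W s) = W e by ring] at this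
        rw [E_right, this]
      · refine ⟨e + 2, by omega, fun a y => ?_⟩
        have h1 := dl_at (W s) (W e - W s) y
        rw [show W s + (W e - W s) = W e by ring] at h1
        have h2 := dl_at (W s) (W e - W s + sg (dir W e)) y
        have h3 := h.1.step e
        rw [show W s + (W e - W s + sg (dir W e)) = W (e + 1) by omega] at h2
        rw [show e + 2 = e + 1 + 1 by ring, E_right, E_right, h1, h2]
        ring
      · refine ⟨e - 1, by omega, fun a y => ?_⟩
        have h2 := dl_at (W s) (W e - W s - sg (dir W (e - 1))) y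
        have h3 := h.1.step (e - 1)
        rw [show e - 1 + 1 = e by ring] at h3
        rw [show W s + (W e - W s - sg (dir W (e - 1))) = W (e - 1) by omega] at h2
        have h4 := E_right W a (e - 1) (W s + y)
        rw [show e - 1 + 1 = e by ring, h2] at h4
        rw [h4]
        ring
    obtain ⟨a, ha, hL⟩ := hL
    obtain ⟨b, hb, hR⟩ := hR
    have hU := (h.uni (show a ≤ b by omega)).shift (W s)
    intro x y hxy
    have := hU x y hxy
    simp only [hR, hL] at this
    unfold Lw
    simp only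
    rw [← add_assoc, ← add_assoc]
    exact this
  · intro first asc hA hh
    cases h0 : dir W (s - 1)
    · rw [h0] at hh
      unfold hit at hh
      simp only [Bool.false_eq_true, if_false, List.any_eq_true, Bool.and_eq_true,
        decide_eq_true_eq] at hh
      obtain ⟨P, hP, hd, ho⟩ := hh
      have h1 := agr_flip _ _ (occ_sound ho hA)
      refine (h.2.2 s e (by omega)).2.2 ?_ P ?_ ?_ ?_
      · rw [h.1.dir_neg, h0]
        rfl
      · rwa [h.1.dir_neg, h.1.dir_neg, h.1.dir_neg]
      · simp only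
        omega
      · have : Lw (fun t => - W t) s e = fun y => - Lw W s e (-y - 1) := by
          funext y
          exact Lw_neg W s e y
        rwa [this]
    · rw [h0] at hh
      unfold hit at hh
      simp only [if_true, List.any_eq_true, Bool.and_eq_true, decide_eq_true_eq] at hh
      obtain ⟨P, hP, hd, ho⟩ := hh
      exact (h.2.1 s e (by omega)).2.2 h0 P hP hd (occ_sound ho hA)

theorem chkT_sound {t : List Grp} (h : chkT t = true) {A : Grp} (hA : A ∈ t) {u : List ℤ}
    (hu : u ∈ A.l) : -2 ≤ A.o ∧ A.o ≤ 2 ∧ u.length = 6 ∧ farL A.o u = true ∧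
      farR A.o u = true := by
  unfold chkT at h
  simp only [List.all_eq_true, Bool.and_eq_true, decide_eq_true_eq] at h
  obtain ⟨⟨h1, h2⟩, h3⟩ := h A hA
  obtain ⟨⟨h4, h5⟩, h6⟩ := h3 u hu
  exact ⟨h1, h2, h4, h5, h6⟩

/-- no events in the windows between two blocks -/
theorem no_events (K : Cert) (h : Good W) {s e : ℤ} (hse : s < e) {A B : Grp}
    (hA : A ∈ gA (dir W (s - 1)) (dir W s)) (hB : B ∈ gB (dir W (e - 1)) (dir W e))
    {u w : List ℤ} (hu : u ∈ A.l) (hw : w ∈ B.l) :
    ¬ Ev1 A.o (2 * (W e - W s) + B.o) (Fn (W e - W s) u w (Lw W s e)) ∧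
    ¬ Ev2 A.o (2 * (W e - W s) + B.o) (Fn (W e - W s) u w (Lw W s e)) ∧
    (A.c0 = true → ∀ P ∈ pat A.c1 B.c0 B.c1, P.d = 2 * (W e - W s) + B.o - A.o →
      ¬ Agr (Fn (W e - W s) u w (Lw W s e)) (A.o + P.e) P.v) := by
  obtain ⟨uo1, uo2, ul, uL, uR⟩ := chkT_sound (K.tA _ _) hA hu
  obtain ⟨wo1, wo2, wl, wL, wR⟩ := chkT_sound (K.tB _ _) hB hw
  rcases eq_or_lt_of_le (show s + 1 ≤ e by omega) with h1 | h1
  · subst h1
    have hD : Lw W s (s + 1) = fun _ => 0 := by
      funext y
      exact E_self _ _ _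
    have hd : W (s + 1) - W s = sg (dir W s) := by rw [h.1.step s]; ring
    rw [hD, hd]
    rw [show s + 1 - 1 = s by ring] at hB
    refine chkS_sound (K.s2 _ _ _) (fun _ _ => rfl) ?_ hA hB hu hw ul wl uo2
    rcases sg_cases (dir W s) with h | h <;> omega
  rcases eq_or_lt_of_le (show s + 2 ≤ e by omega) with h2 | h2
  · subst h2
    have hD : Lw W s (s + 2) = dl (sg (dir W s)) := by
      funext y
      unfold Lw
      rw [show s + 2 = s + 1 + 1 by ring, E_right, E_self, h.1.step s, dl_at, zero_add]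
    have hd : W (s + 2) - W s = sg (dir W s) + sg (dir W (s + 1)) := by
      rw [show s + 2 = s + 1 + 1 by ring, h.1.step (s + 1), h.1.step s]
      ring
    rw [hD, hd]
    rw [show s + 2 - 1 = s + 1 by ring] at hB
    refine chkS_sound (K.s3 _ _ _ _) (fun y hy => dl_zero ?_) ?_ hA hB hu hw ul wl uo2
    · rcases sg_cases (dir W s) with h | h <;> omega
    · rcases sg_cases (dir W s) with h | h <;> rcases sg_cases (dir W (s + 1)) with h' | h' <;>
        omega
  have hL := h.loc (show s + 3 ≤ e by omega)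
  rcases lt_or_ge (W e - W s) (-3) with h3 | h3
  · refine ⟨fun hE => (h.2.1 s e hse).1 (far_sound hL.uni ul wl uo1 uo2 wo1 wo2 uL uR wL wR
      (Or.inr (by omega)) hE), fun hE => ?_, fun _ P hP hd => ?_⟩
    · have := hE.1
      omega
    · have := K.small _ _ _ P hP
      omega
  rcases lt_or_ge 3 (W e - W s) with h4 | h4
  · refine ⟨fun hE => (h.2.1 s e hse).1 (far_sound hL.uni ul wl uo1 uo2 wo1 wo2 uL uR wL wR
      (Or.inl (by omega)) hE), fun hE => ?_, fun _ P hP hd => ?_⟩
    · have := hE.1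
      omega
    · have := K.small _ _ _ P hP
      omega
  exact ⟨chkE1_sound hL (K.e1 _ _ _ _ _ h3 h4) hA hB hu hw,
    chkE2_sound hL (K.e2 _ _ _ _ _ h3 h4) hA hB hu hw ul wl uo1 uo2,
    fun hc P hP hd => chkP_sound hL (K.p _ _ _ _ _ h3 h4) hA hB hc hP hd hu hw⟩

theorem tabA (K : Cert) (s0 s1 : Bool) {i : ℕ} (hi : i < 44) : ∃ A ∈ gA s0 s1,
    A.o = offs s0 s1 i ∧ A.c0 = dir0 s0 s1 i ∧ A.c1 = dir1 s0 s1 i ∧ midV s0 s1 i 44 ∈ A.l := by
  have := K.tab s0 s1
  unfold chkTab at this
  rw [List.all_eq_true] at this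
  have := this i (List.mem_range.2 hi)
  simp only [Bool.and_eq_true, List.any_eq_true, decide_eq_true_eq, beq_iff_eq,
    List.contains_iff_mem] at this
  obtain ⟨⟨A, h1, h2⟩, -⟩ := this
  exact ⟨A, h1, h2.1.1.1, h2.1.1.2, h2.1.2, h2.2⟩

theorem tabB (K : Cert) (s0 s1 : Bool) {i : ℕ} (hi : i < 44) : ∃ B ∈ gB s0 s1,
    B.o = offs s0 s1 i ∧ B.c0 = dir0 s0 s1 i ∧ B.c1 = dir1 s0 s1 i ∧ preV s0 s1 i ∈ B.l := by
  have := K.tab s0 s1
  unfold chkTab at this
  rw [List.all_eq_true] at this
  have := this i (List.mem_range.2 hi)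
  simp only [Bool.and_eq_true, List.any_eq_true, decide_eq_true_eq, beq_iff_eq,
    List.contains_iff_mem] at this
  obtain ⟨-, B, h1, h2⟩ := this
  exact ⟨B, h1, h2.1.1.1, h2.1.1.2, h2.1.2, h2.2⟩

theorem H_sub (K : Cert) (h : Good W) : H (sub W) := by
  intro s' e' hse'
  obtain ⟨s, i, hi, rfl⟩ := exists_pr s'
  obtain ⟨e, j, hj, rfl⟩ := exists_pr e'
  have hse : s ≤ e := by omega
  have ds : dir (sub W) (44 * s + i) = dir1 (dir W (s - 1)) (dir W s) i := dir_sub K h.1 s hi
  have ds' : dir (sub W) (44 * s + i - 1) = dir0 (dir W (s - 1)) (dir W s) i :=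
    dir_sub_pred K h.1 s hi
  have de : dir (sub W) (44 * e + j) = dir1 (dir W (e - 1)) (dir W e) j := dir_sub K h.1 e hj
  have de' : dir (sub W) (44 * e + j - 1) = dir0 (dir W (e - 1)) (dir W e) j :=
    dir_sub_pred K h.1 e hj
  rw [ds, ds', de, de', sub_eq W s hi, sub_eq W e hj]
  rcases eq_or_lt_of_le hse with h1 | h1
  · subst h1
    have hij : i < j := by omega
    have hL : Lw (sub W) (44 * s + i) (44 * s + j) = fun y =>
        nz (midV (dir W (s - 1)) (dir W s) i j) (offs (dir W (s - 1)) (dir W s) i + y) := by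
      funext y
      exact Lw_same K W s hi hj y
    have hB := K.b (dir W (s - 1)) (dir W s)
    unfold chkB at hB
    simp only [List.all_eq_true, List.mem_range] at hB
    obtain ⟨k1, k2, k3⟩ := okw_sound (hB j hj i hij) (off_bd K _ _ hi).2
      (fun z hz => nz_big rfl (by omega))
    rw [hL, show 2 * W s + offs (dir W (s - 1)) (dir W s) j -
      (2 * W s + offs (dir W (s - 1)) (dir W s) i) = offs (dir W (s - 1)) (dir W s) j -
        offs (dir W (s - 1)) (dir W s) i by ring]
    exact ⟨fun hE => k1 (ev1_shift.1 hE), fun hE => k2 (ev2_shift.1 hE),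
      fun hc P hP hd hv => k3 hc P hP hd (agr_shift _ _ hv)⟩
  · obtain ⟨A, hA, hA1, hA2, hA3, hA4⟩ := tabA K (dir W (s - 1)) (dir W s) hi
    obtain ⟨B, hB, hB1, hB2, hB3, hB4⟩ := tabB K (dir W (e - 1)) (dir W e) hj
    obtain ⟨k1, k2, k3⟩ := no_events K h h1 hA hB hA4 hB4
    have hL : Lw (sub W) (44 * s + i) (44 * e + j) = fun y => Fn (W e - W s)
        (midV (dir W (s - 1)) (dir W s) i 44) (preV (dir W (e - 1)) (dir W e) j) (Lw W s e)
        (offs (dir W (s - 1)) (dir W s) i + y) := by
      funext y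
      exact Lw_window K W s e hi hj y
    rw [hA2, hA3, hB2, hB3, hA1, hB1] at k3
    rw [hA1, hB1] at k1 k2
    rw [hL, show 2 * W e + offs (dir W (e - 1)) (dir W e) j -
      (2 * W s + offs (dir W (s - 1)) (dir W s) i) = 2 * (W e - W s) +
        offs (dir W (e - 1)) (dir W e) j - offs (dir W (s - 1)) (dir W s) i by ring]
    exact ⟨fun hE => k1 (ev1_shift.1 hE), fun hE => k2 (ev2_shift.1 hE),
      fun hc P hP hd hv => k3 hc P hP hd (agr_shift _ _ hv)⟩

/-- **The substitution preserves the invariant.** -/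
theorem good_sub (K : Cert) (h : Good W) : Good (sub W) := by
  refine ⟨h.1.sub K, H_sub K h, ?_⟩
  rw [← sub_neg h.1]
  exact H_sub K h.neg

end LevelWords
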