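import Pool.Agent.LevelWords.Step
import Pool.Agent.LevelWords.Good

/-!
# Unimodal words: the starting word
-/

namespace LevelWords

/-- the starting word `..., 0, 1, 0, 1, ...` -/
def W0 (t : ℤ) : ℤ := t % 2

theorem E_eq {W : ℤ → ℤ} {x : ℤ} {g : ℤ → ℤ} (hg : ∀ t, g (t + 1) = g t + dl (W t) x)
    (a b : ℤ) : E W a b x = g b - g a := by
  have key : ∀ p : ℤ, C W x p - g p = C W x 0 - g 0 := by
    intro p
    induction p using Int.induction_on with
    | zero => rfl
    | succ n ih => rw [C_succ, hg, ← ih]; ring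
    | pred n ih =>
      have h1 := C_succ W x (-(n : ℤ) - 1)
      have h2 := hg (-(n : ℤ) - 1)
      rw [show -(n : ℤ) - 1 + 1 = -n by ring] at h1 h2
      rw [h1, h2] at ih
      rw [← ih]
      ring
  have h1 := key a
  have h2 := key b
  unfold E
  linarith

theorem E0_left (a b : ℤ) : E W0 a b (-1) = (b + 1) / 2 - (a + 1) / 2 := by
  refine E_eq (g := fun t => (t + 1) / 2) (fun t => ?_) a b
  unfold W0
  rcases dl_cases (t % 2) (-1) with h | h | h <;> omega

theorem E0_mid (a b : ℤ) : E W0 a b 0 = a % 2 - b % 2 := by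
  rw [E_eq (g := fun t => -(t % 2)) (fun t => ?_) a b]
  · ring
  · unfold W0
    rcases dl_cases (t % 2) 0 with h | h | h <;> omega

theorem E0_right (a b : ℤ) : E W0 a b 1 = a / 2 - b / 2 := by
  rw [E_eq (g := fun t => -(t / 2)) (fun t => ?_) a b]
  · ring
  · unfold W0
    rcases dl_cases (t % 2) 1 with h | h | h <;> omega

theorem E0_out (a b : ℤ) {x : ℤ} (hx : x < -1 ∨ 1 < x) : E W0 a b x = 0 := by
  rw [E_eq (g := fun _ => 0) (fun t => ?_) a b]
  · rfl
  · unfold W0
    rcases dl_cases (t % 2) x with h | h | h <;> omega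

/-- differences of a window of the starting word -/
def G3 (a b c : ℤ) : ℤ → ℤ := fun y =>
  if y = .negSucc 1 then a else if y = .negSucc 0 then b else if y = .ofNat 0 then c else .ofNat 0

def clip (x : ℤ) : ℤ := if x < -3 then -3 else if 3 < x then 3 else x

theorem agr_clip {G : ℤ → ℤ} : ∀ (v : List ℤ) (e : ℤ), (∀ x ∈ v, -2 ≤ x ∧ x ≤ 2) → Agr G e v →
    Agr (fun y => clip (G y)) e v
  | [], _, _, _ => trivial
  | d :: v, e, h, hA => by
    refine ⟨?_, agr_clip v (e + 1) (fun x hx => h x (List.mem_cons_of_mem _ hx)) hA.2⟩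
    have h1 := hA.1
    have h2 := h d List.mem_cons_self
    simp only
    rw [h1]
    unfold clip
    rw [if_neg (by omega), if_neg (by omega)]

theorem clip_G3 (a b c : ℤ) : (fun y => clip (G3 a b c y)) = G3 (clip a) (clip b) (clip c) := by
  funext y
  unfold G3
  split_ifs <;> rfl

/-- checks for the starting word -/
def chkZ (d b : ℤ) (ps : List Pat) (l : List (ℤ × ℤ)) : Bool :=
  ps.all fun P => (P.v.all fun x => decide (-2 ≤ x) && decide (x ≤ 2)) &&
    (decide (P.d ≠ d) || l.all fun ac => differs (G3 ac.1 b ac.2) P.e P.v)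

theorem chkZ_sound {d b : ℤ} {ps : List Pat} {l : List (ℤ × ℤ)} (h : chkZ d b ps l = true)
    (hb1 : -3 ≤ b) (hb2 : b ≤ 3) {a c : ℤ} (hac : (clip a, clip c) ∈ l) {P : Pat} (hP : P ∈ ps)
    (hd : P.d = d) : ¬ Agr (G3 a b c) P.e P.v := by
  intro hA
  unfold chkZ at h
  rw [List.all_eq_true] at h
  have h := h P hP
  simp only [Bool.and_eq_true, Bool.or_eq_true, List.all_eq_true, decide_eq_true_eq] at h
  obtain ⟨h1, h2⟩ := h
  have hA' := agr_clip _ _ h1 hA
  have hcb : clip b = b := by
    unfold clip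
    rw [if_neg (by omega), if_neg (by omega)]
  rw [clip_G3, hcb] at hA'
  rcases h2 with h2 | h2
  · exact h2 hd
  · exact differs_sound _ _ (h2 _ hac) hA'

theorem z0 : chkZ (.ofNat 0) (.negSucc 0) (pat false true false)
    [(.ofNat 1, .ofNat 0), (.ofNat 2, .negSucc 0), (.ofNat 3, .negSucc 1),
      (.ofNat 3, .negSucc 2)] = true := by
  decide +kernel

theorem z1 : chkZ (.negSucc 0) (.ofNat 0) (pat false false true)
    [(.ofNat 0, .ofNat 0), (.ofNat 1, .negSucc 0), (.ofNat 2, .negSucc 1),
      (.ofNat 3, .negSucc 2)] = true := by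
  decide +kernel

theorem z0_sound {n a b c : ℤ} (hn : 1 ≤ n) (ha : a = n) (hb : b = -1) (hc : c = 1 - n) {P : Pat}
    (hP : P ∈ pat false true false) (hd : P.d = 0) : ¬ Agr (G3 a b c) P.e P.v := by
  subst ha hb hc
  refine chkZ_sound z0 (by decide) (by decide) ?_ hP hd
  unfold clip
  rcases eq_or_lt_of_le hn with h | h
  · rw [← h]; decide
  rcases eq_or_lt_of_le (show 2 ≤ a by omega) with h' | h'
  · rw [← h']; decide
  rcases eq_or_lt_of_le (show 3 ≤ a by omega) with h'' | h''
  · rw [← h'']; decide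
  rw [if_neg (by omega), if_pos (show 3 < a by omega)]
  rcases eq_or_lt_of_le (show 4 ≤ a by omega) with h3 | h3
  · rw [← h3]; decide
  · rw [if_pos (by omega)]; decide

theorem z1_sound {n a b c : ℤ} (hn : 0 ≤ n) (ha : a = n) (hb : b = 0) (hc : c = - n) {P : Pat}
    (hP : P ∈ pat false false true) (hd : P.d = -1) : ¬ Agr (G3 a b c) P.e P.v := by
  subst ha hb hc
  refine chkZ_sound z1 (by decide) (by decide) ?_ hP hd
  unfold clip
  rcases eq_or_lt_of_le hn with h | h
  · rw [← h]; decide
  rcases eq_or_lt_of_le (show 1 ≤ a by omega) with h' | h'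
  · rw [← h']; decide
  rcases eq_or_lt_of_le (show 2 ≤ a by omega) with h'' | h''
  · rw [← h'']; decide
  rcases eq_or_lt_of_le (show 3 ≤ a by omega) with h3 | h3
  · rw [← h3]; decide
  rw [if_neg (by omega), if_pos (show 3 < a by omega), if_pos (by omega)]
  decide

theorem W0_isW : IsW W0 := by
  intro t
  unfold W0
  omega

theorem dir_W0_even {t : ℤ} (ht : t % 2 = 0) : dir W0 t = true := by
  unfold dir W0
  rw [decide_eq_true (by omega)]

theorem dir_W0_odd {t : ℤ} (ht : t % 2 = 1) : dir W0 t = false := by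
  unfold dir W0
  rw [decide_eq_false (by omega)]

theorem Lw0_odd {s e : ℤ} (hs : s % 2 = 1) : Lw W0 s e =
    G3 ((e + 1) / 2 - (s + 2) / 2) ((s + 1) % 2 - e % 2) ((s + 1) / 2 - e / 2) := by
  funext y
  unfold Lw G3
  rw [show W0 s = 1 from hs]
  split_ifs with h1 h2 h3
  · rw [h1]
    change E W0 (s + 1) e (-1) = _
    rw [E0_left]
    ring_nf
  · rw [h2]
    change E W0 (s + 1) e 0 = _
    rw [E0_mid]
  · rw [h3]
    change E W0 (s + 1) e 1 = _
    rw [E0_right]
  · rw [E0_out]
    · rfl
    · have g1 : y ≠ -2 := h1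
      have g2 : y ≠ -1 := h2
      have g3 : y ≠ 0 := h3
      omega

theorem Lw0_even {s e : ℤ} (hs : s % 2 = 0) : Lw (fun t => - W0 t) s e =
    G3 (e / 2 - (s + 1) / 2) (e % 2 - (s + 1) % 2) ((s + 2) / 2 - (e + 1) / 2) := by
  funext y
  rw [Lw_neg]
  unfold Lw G3
  rw [show W0 s = 0 from hs, zero_add]
  split_ifs with h1 h2 h3
  · rw [h1]
    change - E W0 (s + 1) e 1 = _
    rw [E0_right]
    ring
  · rw [h2]
    change - E W0 (s + 1) e 0 = _
    rw [E0_mid]
    ring
  · rw [h3]
    change - E W0 (s + 1) e (-1) = _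
    rw [E0_left]
    ring_nf
  · rw [E0_out]
    · rfl
    · have g1 : y ≠ -2 := h1
      have g2 : y ≠ -1 := h2
      have g3 : y ≠ 0 := h3
      omega

theorem E0_nonpos {a b x : ℤ} (hab : a ≤ b) (hx : 1 ≤ x) : E W0 a b x ≤ 0 := by
  rcases eq_or_lt_of_le hx with h | h
  · rw [← h, E0_right]
    omega
  · rw [E0_out a b (Or.inr h)]

theorem E0_nonneg {a b x : ℤ} (hab : a ≤ b) (hx : x ≤ -1) : 0 ≤ E W0 a b x := by
  rcases eq_or_lt_of_le hx with h | h
  · rw [h, E0_left]
    omega
  · rw [E0_out a b (Or.inl h)]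

theorem W0_good : Good W0 := by
  refine ⟨W0_isW, ?_, ?_⟩
  · intro s e hse
    refine ⟨?_, ?_, ?_⟩
    · simp only [W0]
      rintro (⟨h, -⟩ | ⟨h, -⟩) <;> omega
    · rintro ⟨-, h2, y, h3, h4, -⟩
      unfold Lw at h2 h4
      rcases Int.emod_two_eq_zero_or_one s with hs | hs
      · rw [show W0 s = 0 from hs, zero_add] at h4
        have := E0_nonpos (show s + 1 ≤ e by omega) (show 1 ≤ y by omega)
        omega
      · rw [show W0 s = 1 from hs] at h2
        have := E0_nonpos (show s + 1 ≤ e by omega) (show (1 : ℤ) ≤ 1 + 0 by norm_num)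
        omega
    · intro hd P hP hPd
      rcases Int.emod_two_eq_zero_or_one s with hs | hs
      · rw [dir_W0_odd (by omega)] at hd
        simp at hd
      · rw [Lw0_odd hs]
        rw [dir_W0_odd hs] at hP
        rcases Int.emod_two_eq_zero_or_one e with he | he
        · rw [dir_W0_odd (show (e - 1) % 2 = 1 by omega), dir_W0_even he] at hP
          refine z1_sound (n := (e + 1) / 2 - (s + 2) / 2) ?_ rfl ?_ ?_ hP ?_
          · omega
          · omega
          · omega
          · rw [hPd]
            simp only [W0]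
            omega
        · rw [dir_W0_even (show (e - 1) % 2 = 0 by omega), dir_W0_odd he] at hP
          refine z0_sound (n := (e + 1) / 2 - (s + 2) / 2) ?_ rfl ?_ ?_ hP ?_
          · omega
          · omega
          · omega
          · rw [hPd]
            simp only [W0]
            omega
  · intro s e hse
    refine ⟨?_, ?_, ?_⟩
    · simp only [W0]
      rintro (⟨h, -⟩ | ⟨h, -⟩) <;> omega
    · rintro ⟨-, h2, y, h3, h4, -⟩
      rw [Lw_neg] at h2 h4
      unfold Lw at h2 h4
      rcases Int.emod_two_eq_zero_or_one s with hs | hs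
      · rw [show W0 s = 0 from hs] at h2
        have := E0_nonneg (show s + 1 ≤ e by omega) (show 0 + (-0 - 1 : ℤ) ≤ -1 by norm_num)
        omega
      · rw [show W0 s = 1 from hs] at h4
        have := E0_nonneg (show s + 1 ≤ e by omega) (show 1 + (-y - 1) ≤ -1 by omega)
        omega
    · intro hd P hP hPd
      rw [W0_isW.dir_neg] at hd hP
      rw [W0_isW.dir_neg, W0_isW.dir_neg] at hP
      rcases Int.emod_two_eq_zero_or_one s with hs | hs
      · rw [Lw0_even hs]
        rw [dir_W0_even hs] at hP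
        rcases Int.emod_two_eq_zero_or_one e with he | he
        · rw [dir_W0_odd (show (e - 1) % 2 = 1 by omega), dir_W0_even he] at hP
          refine z0_sound (n := e / 2 - (s + 1) / 2) ?_ rfl ?_ ?_ hP ?_
          · omega
          · omega
          · omega
          · rw [hPd]
            simp only [W0]
            omega
        · rw [dir_W0_even (show (e - 1) % 2 = 0 by omega), dir_W0_odd he] at hP
          refine z1_sound (n := e / 2 - (s + 1) / 2) ?_ rfl ?_ ?_ hP ?_
          · omega
          · omega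
          · omega
          · rw [hPd]
            simp only [W0]
            omega
      · rw [dir_W0_even (by omega)] at hd
        simp at hd

end LevelWords
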