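import Pool.Agent.LevelWords.Cert
import Pool.Agent.LevelWords.Zig
import Pool.Agent.LevelWords.Seq
import Pool.Agent.LevelPseudo.Final

/-!
# Unimodal words: pseudolines with a level of large complexity
-/

namespace LevelWords

open LevelLower LevelPseudo

/-- the words -/
def Wk : ℕ → ℤ → ℤ
  | 0 => W0
  | k + 1 => sub (Wk k)

theorem Wk_good : ∀ k, Good (Wk k)
  | 0 => W0_good
  | k + 1 => good_sub cert (Wk_good k)

theorem Wk_bd : ∀ (k : ℕ) (t : ℤ), -(3 * 2 ^ k - 2) ≤ Wk k t ∧ Wk k t ≤ 3 * 2 ^ k - 2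
  | 0, t => by
    simp only [Wk, W0, pow_zero]
    omega
  | k + 1, t => by
    obtain ⟨p, r, hr, rfl⟩ := exists_pr t
    have h1 := Wk_bd k p
    have h2 := off_bd cert (dir (Wk k) (p - 1)) (dir (Wk k) p) hr
    change -(3 * 2 ^ (k + 1) - 2) ≤ sub (Wk k) (44 * p + r) ∧
      sub (Wk k) (44 * p + r) ≤ 3 * 2 ^ (k + 1) - 2
    rw [sub_eq _ p hr, pow_succ]
    omega

theorem nsum_bd {f : ℕ → ℤ} (hf : ∀ k, -1 ≤ f k ∧ f k ≤ 1) : ∀ n : ℕ, -(n : ℤ) ≤ nsum f n ∧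
    nsum f n ≤ n
  | 0 => by simp [nsum]
  | n + 1 => by
    have h1 := nsum_bd hf n
    have h2 := hf n
    rw [nsum]
    push_cast
    omega

theorem Ck_bd : ∀ (k : ℕ) (x : ℤ) (t : ℤ), 0 ≤ t → t ≤ 44 ^ k →
    -(6 * 11 ^ k - 5) ≤ C (Wk k) x t ∧ C (Wk k) x t ≤ 6 * 11 ^ k - 5
  | 0, x, t, h0, h1 => by
    rw [pow_zero] at h1
    have : t = 0 ∨ t = 1 := by omega
    rcases this with rfl | rfl
    · rw [show C (Wk 0) x 0 = 0 from rfl]
      norm_num
    · have h2 := C_succ (Wk 0) x 0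
      rw [show (0 : ℤ) + 1 = 1 by norm_num, show C (Wk 0) x 0 = 0 from rfl] at h2
      rw [h2]
      rcases dl_cases (Wk 0 0) x with h | h | h <;> rw [pow_zero] <;> omega
  | k + 1, x, t, h0, h1 => by
    obtain ⟨p, r, hr, rfl⟩ := exists_pr t
    have hp0 : 0 ≤ p := by omega
    have hp1 : p ≤ 44 ^ k := by
      rw [pow_succ] at h1
      omega
    change -(6 * 11 ^ (k + 1) - 5) ≤ C (sub (Wk k)) x (44 * p + r) ∧
      C (sub (Wk k)) x (44 * p + r) ≤ 6 * 11 ^ (k + 1) - 5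
    have h2 := C_block (Wk k) p x r hr.le
    have h3 := C_comb cert (Wk k) 0 p x
    have h4 : C (sub (Wk k)) x (44 * 0) = 0 := rfl
    have h5 : comb (E (Wk k) 0 p) x = comb (fun y => C (Wk k) y p) x := by
      congr 1
      funext y
      unfold E
      rw [show C (Wk k) y 0 = 0 from rfl, sub_zero]
    rw [h4, h5, sub_zero] at h3
    have h6 := nsum_bd (f := fun j => dl (offs (dir (Wk k) (p - 1)) (dir (Wk k) p) j)
      (x - 2 * Wk k p)) (fun j => by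
        rcases dl_cases (offs (dir (Wk k) (p - 1)) (dir (Wk k) p) j) (x - 2 * Wk k p) with
          h | h | h <;> omega) r
    have h7 : -(11 * (6 * 11 ^ k - 5)) ≤ comb (fun y => C (Wk k) y p) x ∧
        comb (fun y => C (Wk k) y p) x ≤ 11 * (6 * 11 ^ k - 5) := by
      have b1 := Ck_bd k (x / 2) p hp0 hp1
      have b2 := Ck_bd k (x / 2 - 1) p hp0 hp1
      have b3 := Ck_bd k (x / 2 + 1) p hp0 hp1
      unfold comb
      split_ifs <;> constructor <;> linarith [b1.1, b1.2, b2.1, b2.2, b3.1, b3.2]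
    rw [h2, h3, pow_succ]
    omega

theorem Wk_kseq (K : ℕ) : ∃ T, 1 * 44 ^ K ≤ T ∧ KSeq 1 (72 * 22 ^ K) T := by
  refine ⟨44 ^ K, by rw [one_mul], ?_⟩
  have h := kseq_of_word (W := Wk K) (fun a b hab => (Wk_good K).uni hab) (T := 44 ^ K)
    (R := 3 * 2 ^ K) (M := 6 * 11 ^ K) (fun i t ht => ?_) (fun t => ?_)
  · refine h.toFin (le_of_eq ?_)
    rw [Fintype.card_prod, Fintype.card_fin, Fintype.card_fin,
      show (22 : ℕ) ^ K = 2 ^ K * 11 ^ K by rw [← mul_pow]; norm_num]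
    ring
  · have := Ck_bd K (i - 1) t (by positivity) (by exact_mod_cast ht)
    unfold Phi
    push_cast
    omega
  · have := Wk_bd K t
    push_cast
    omega

/-- sequences for `s = 1` -/
theorem kseq_words : ∃ n₀ : ℕ, ∀ n ≥ n₀, ∃ N : ℕ, 1 ≤ N ∧ (n : ℝ) ^ (153 / 125 : ℝ) ≤ N ∧
    KSeq 1 n N := by
  obtain ⟨n₀, h⟩ := growthK (s := 1) (h := 72) (H := 22) (R := 44) (C := 1) (a := 153) (b := 125)
    (by norm_num) (by norm_num) (by norm_num) Wk_kseq (by norm_num) (by norm_num)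
  refine ⟨n₀, fun n hn => ?_⟩
  have := h n hn
  push_cast at this
  exact this

/-- **Pseudolines with a level of complexity `n ^ 1.224`.** -/
theorem main_words : ∃ n₀ : ℕ, ∀ n ≥ n₀,
    (∃ f : Fin n → ℝ → ℝ, (∀ i, Continuous (f i)) ∧
      (∀ i j, i ≠ j → ∃ x, Crosses (f i) (f j) x) ∧
      ∃ k < n, (n : ℝ) ^ (153 / 125 : ℝ) ≤ psiT f k) ∧
    ∀ s ≥ 1, (n : ℝ) ^ (153 / 125 : ℝ) ≤ Psi s n := by
  obtain ⟨n₀, h⟩ := kseq_words
  refine ⟨n₀, fun n hn => ?_⟩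
  obtain ⟨N, h1, h2, h3⟩ := h n hn
  obtain ⟨f, f1, f2, k, hk, f3⟩ := lines_of_seq h3 h1
  have h4 : (n : ℝ) ^ (153 / 125 : ℝ) ≤ psiT f k := h2.trans (by exact_mod_cast f3)
  refine ⟨⟨f, f1, f2, k, hk, h4⟩, fun s hs => h4.trans ?_⟩
  have hs' : ∀ i j, i ≠ j → (common f i j).encard ≤ s := by
    intro i j hij
    obtain ⟨x, hx⟩ := f2 i j hij
    rw [hx.common, Set.encard_singleton]
    exact_mod_cast hs
  exact_mod_cast psiT_le_Psi f1 hs' hk

end LevelWords
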