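import Pool.Agent.LevelWords.Uni

/-!
# Unimodal words: soundness of the local checks
-/

namespace LevelWords

/-- ascending agreement -/
def Agr (D : ℤ → ℤ) : ℤ → List ℤ → Prop
  | _, [] => True
  | x, d :: ds => D x = d ∧ Agr D (x + 1) ds

/-- agreement; the last value is a lower bound -/
def AgrL (D : ℤ → ℤ) : ℤ → List ℤ → Prop
  | _, [] => True
  | x, [d] => d ≤ D x
  | x, d :: e :: ds => D x = d ∧ AgrL D (x + 1) (e :: ds)

/-- descending agreement -/
def AgrD (D : ℤ → ℤ) : ℤ → List ℤ → Prop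
  | _, [] => True
  | x, d :: ds => D x = d ∧ AgrD D (x - 1) ds

/-- fine values -/
def Tg (D : ℤ → ℤ) : ℤ → List ℤ → Prop
  | _, [] => True
  | g, t :: ts => comb D g = t ∧ Tg D (g + 1) ts

variable {D : ℤ → ℤ}

theorem comb_odd (I : ℤ) : comb D (2 * I + 1) = 8 * D I + 3 * D (I + 1) := by
  unfold comb
  rw [if_neg (by omega), show (2 * I + 1) / 2 = I by omega]

theorem comb_even (I : ℤ) : comb D (2 * I) = 8 * D I + 3 * D (I - 1) := by
  unfold comb
  rw [if_pos (by omega), show (2 * I) / 2 = I by omega]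

theorem agr_append : ∀ (l₁ l₂ : List ℤ) (x : ℤ), Agr D x (l₁ ++ l₂) ↔
    Agr D x l₁ ∧ Agr D (x + l₁.length) l₂
  | [], l₂, x => by simp [Agr]
  | d :: l₁, l₂, x => by
    have ih := agr_append l₁ l₂ (x + 1)
    simp only [List.cons_append, Agr, List.length_cons, ih]
    rw [show x + 1 + (l₁.length : ℤ) = x + ((l₁.length + 1 : ℕ) : ℤ) by push_cast; ring]
    tauto

theorem agrD_reverse : ∀ (vec : List ℤ) (I : ℤ), AgrD D I vec →
    Agr D (I - vec.length + 1) vec.reverse
  | [], I, _ => by simp [Agr]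
  | d :: vs, I, h => by
    have ih := agrD_reverse vs (I - 1) h.2
    rw [List.reverse_cons, agr_append]
    refine ⟨?_, ?_, trivial⟩
    · rwa [show I - ((d :: vs).length : ℤ) + 1 = I - 1 - vs.length + 1 by
        rw [List.length_cons]; push_cast; ring]
    · rw [List.length_reverse, show I - ((d :: vs).length : ℤ) + 1 + vs.length = I by
        rw [List.length_cons]; push_cast; ring]
      exact h.1

theorem agrL_append {y : ℤ} : ∀ (l : List ℤ) (x : ℤ), Agr D x l → y ≤ D (x + l.length) →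
    AgrL D x (l ++ [y])
  | [], x, _, h => by simpa [AgrL] using h
  | [d], x, h1, h2 => by
    refine ⟨h1.1, ?_⟩
    change y ≤ D (x + 1)
    simpa using h2
  | d :: e :: l, x, h1, h2 => by
    refine ⟨h1.1, agrL_append (e :: l) (x + 1) h1.2 ?_⟩
    rwa [show x + 1 + ((e :: l).length : ℤ) = x + ((d :: e :: l).length : ℕ) by
      simp only [List.length_cons]; push_cast; ring]

theorem agrL_of_agrD {y I : ℤ} {vs : List ℤ} (h : AgrD D (I - 1) vs) (hy : y ≤ D I) :
    AgrL D (I - vs.length) (y :: vs).reverse := by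
  rw [List.reverse_cons]
  refine agrL_append _ _ ?_ ?_
  · have := agrD_reverse vs _ h
    rwa [show I - 1 - (vs.length : ℤ) + 1 = I - vs.length by ring] at this
  · rwa [List.length_reverse, show I - (vs.length : ℤ) + vs.length = I by ring]

theorem agrL_of_agr : ∀ (l : List ℤ) (x : ℤ), Agr D x l → AgrL D x l
  | [], _, _ => trivial
  | [_], _, h => h.1.ge
  | _ :: e :: l, x, h => ⟨h.1, agrL_of_agr (e :: l) (x + 1) h.2⟩

theorem viol_sound {m : ℤ → ℤ} : ∀ (asc : List ℤ) (x : ℤ) (neg : Bool), viol m x asc neg = true →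
    (neg = true → ∃ y < x, D y + m y < 0) → AgrL D x asc →
    ∃ y z, y < z ∧ D y + m y < 0 ∧ 0 < D z + m z
  | [], x, neg, h, _, _ => by simp [viol] at h
  | [d], x, neg, h, hn, hA => by
    have hA : d ≤ D x := hA
    simp only [viol, Bool.or_false, Bool.and_eq_true, decide_eq_true_eq] at h
    obtain ⟨y, hy, hy'⟩ := hn h.1
    exact ⟨y, x, hy, hy', by omega⟩
  | d :: e :: ds, x, neg, h, hn, hA => by
    have hA1 : D x = d := hA.1
    rw [viol, Bool.or_eq_true] at h
    rcases h with h | h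
    · simp only [Bool.and_eq_true, decide_eq_true_eq] at h
      obtain ⟨y, hy, hy'⟩ := hn h.1
      exact ⟨y, x, hy, hy', by omega⟩
    · refine viol_sound (e :: ds) (x + 1) _ h (fun hneg => ?_) hA.2
      rw [Bool.or_eq_true] at hneg
      rcases hneg with hneg | hneg
      · obtain ⟨y, hy, hy'⟩ := hn hneg
        exact ⟨y, by omega, hy'⟩
      · rw [decide_eq_true_eq] at hneg
        exact ⟨x, by omega, by omega⟩

/-- what is known about the coarse differences in a window -/
structure Loc (a0 a1 b0 b1 : Bool) (d : ℤ) (D : ℤ → ℤ) : Prop where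
  adm : ∀ l ∈ lops a0 a1, ∀ r ∈ rops b0 b1 d, Uni fun y => D y + (l y + r y)
  hit : ∀ first asc, Agr D first asc → hit a0 a1 b0 b1 d first asc = true → False

variable {a0 a1 b0 b1 : Bool} {d : ℤ}

theorem Loc.inadm (h : Loc a0 a1 b0 b1 d D) {first : ℤ} {asc : List ℤ} (hA : AgrL D first asc)
    (hi : inadm a0 a1 b0 b1 d first asc = true) : False := by
  unfold LevelWords.inadm at hi
  rw [List.any_eq_true] at hi
  obtain ⟨l, hl, hi⟩ := hi
  rw [List.any_eq_true] at hi
  obtain ⟨r, hr, hi⟩ := hi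
  obtain ⟨y, z, hyz, h1, h2⟩ := viol_sound asc first false hi (fun h => by simp at h) hA
  exact h.adm l hl r hr y z hyz h1 h2

theorem Loc.refute (h : Loc a0 a1 b0 b1 d D) {first : ℤ} {asc : List ℤ} (hA : Agr D first asc)
    (hi : refute a0 a1 b0 b1 d first asc = true) : False := by
  unfold LevelWords.refute at hi
  rw [Bool.or_eq_true] at hi
  rcases hi with hi | hi
  · exact h.inadm (agrL_of_agr _ _ hA) hi
  · exact h.hit _ _ hA hi

theorem Loc.uni (h : Loc a0 a1 b0 b1 d D) : Uni D := by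
  have := h.adm (fun _ => .ofNat 0) (by simp [lops]) (fun _ => .ofNat 0) (by simp [rops])
  intro x y hxy hx hy
  refine this x y hxy ?_ ?_
  · change D x + (0 + 0) < 0
    omega
  · change 0 < D y + (0 + 0)
    omega

theorem run_sound {R : ℤ → List ℤ → Bool} (hR : ∀ first asc, Agr D first asc →
    R first asc = true → False) : ∀ (ts : List ℤ) (odd : Bool) (I : ℤ) (vec : List ℤ),
    AgrD D I vec → Tg D (if odd then 2 * I + 1 else 2 * I) ts → run R odd I vec ts = true → False
  | [], odd, I, vec, h1, _, h3 => by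
    have : run R odd I vec [] = R (I - vec.length + 1) vec.reverse := by
      cases odd <;> cases vec <;> rfl
    rw [this] at h3
    exact hR _ _ (agrD_reverse _ _ h1) h3
  | t :: ts, true, I, [], h1, h2, h3 => by simp [run] at h3
  | t :: ts, true, I, d :: vs, h1, h2, h3 => by
    obtain ⟨h2, h2'⟩ := h2
    simp only [if_true] at h2 h2'
    rw [comb_odd, h1.1] at h2
    rw [run, if_pos (by omega)] at h3
    have e1 : (t - 8 * d) / 3 = D (I + 1) := by omega
    rw [e1] at h3
    refine run_sound hR ts false (I + 1) (D (I + 1) :: d :: vs) ⟨rfl, ?_⟩ ?_ h3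
    · rw [show I + 1 - 1 = I by ring]
      exact h1
    · simp only [Bool.false_eq_true, if_false]
      rwa [show 2 * (I + 1) = 2 * I + 1 + 1 by ring]
  | t :: ts, false, I, [], h1, h2, h3 => by simp [run] at h3
  | t :: ts, false, I, [d], h1, h2, h3 => by simp [run] at h3
  | t :: ts, false, I, d :: d' :: vs, h1, h2, h3 => by
    obtain ⟨h2, h2'⟩ := h2
    simp only [Bool.false_eq_true, if_false] at h2 h2'
    rw [comb_even, h1.1, h1.2.1] at h2
    rw [run, if_pos h2] at h3
    refine run_sound hR ts true I (d :: d' :: vs) h1 ?_ h3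
    simpa only [if_true] using h2'

theorem xs_mem {x : ℤ} (h1 : -6 ≤ x) (h2 : x ≤ 6) : x ∈ xs := by
  have : x = -6 ∨ x = -5 ∨ x = -4 ∨ x = -3 ∨ x = -2 ∨ x = -1 ∨ x = 0 ∨ x = 1 ∨ x = 2 ∨ x = 3 ∨
    x = 4 ∨ x = 5 ∨ x = 6 := by omega
  rcases this with rfl | rfl | rfl | rfl | rfl | rfl | rfl | rfl | rfl | rfl | rfl | rfl | rfl <;>
    decide

theorem start_sound {R : ℤ → List ℤ → Bool} (hR : ∀ first asc, Agr D first asc →
    R first asc = true → False) (hU : Uni D) {g : ℤ} {ts : List ℤ} (h : Tg D g ts)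
    (hs : start R g ts = true) : False := by
  rcases ts with _ | ⟨t0, _ | ⟨t1, ts⟩⟩
  · simp [start] at hs
  · simp [start] at hs
  · obtain ⟨h0, h1, h2⟩ := h
    simp only [start, Bool.and_eq_true, decide_eq_true_eq, List.all_eq_true] at hs
    obtain ⟨⟨⟨⟨b1, b2⟩, b3⟩, b4⟩, hs⟩ := hs
    rcases Int.emod_two_eq_zero_or_one g with hg | hg
    · obtain ⟨I, rfl⟩ : ∃ I, g = 2 * I := ⟨g / 2, by omega⟩
      rw [comb_even] at h0
      rw [comb_odd] at h1
      have u1 := hU (I - 1) I (by omega)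
      have u2 := hU I (I + 1) (by omega)
      have := hs (D I) (xs_mem (by omega) (by omega))
      rw [Bool.or_eq_true, decide_eq_true_eq, if_neg (by omega), show 2 * I / 2 = I by omega] at this
      replace this := this.resolve_left (by omega)
      have e1 : (t0 - 8 * D I) / 3 = D (I - 1) := by omega
      rw [e1] at this
      refine run_sound hR (t1 :: ts) true I [D I, D (I - 1)] ⟨rfl, rfl, trivial⟩ ?_ this
      simp only [if_true]
      exact ⟨by rw [comb_odd]; exact h1, h2⟩
    · obtain ⟨I, rfl⟩ : ∃ I, g = 2 * I + 1 := ⟨g / 2, by omega⟩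
      rw [comb_odd] at h0
      rw [show 2 * I + 1 + 1 = 2 * (I + 1) by ring] at h1 h2
      rw [comb_even, show I + 1 - 1 = I by ring] at h1
      have := hs (D I) (xs_mem (by omega) (by omega))
      rw [Bool.or_eq_true, decide_eq_true_eq, if_pos (by omega),
        show (2 * I + 1) / 2 = I by omega] at this
      replace this := this.resolve_left (by omega)
      have e1 : (t0 - 8 * D I) / 3 = D (I + 1) := by omega
      rw [e1] at this
      refine run_sound hR (t1 :: ts) false (I + 1) [D (I + 1), D I]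
        ⟨rfl, by rw [show I + 1 - 1 = I by ring], trivial⟩ ?_ this
      simp only [Bool.false_eq_true, if_false]
      exact ⟨by rw [comb_even, show I + 1 - 1 = I by ring]; exact h1, h2⟩

theorem allL_iff {α : Type} {f : α → Bool} : ∀ {l : List α}, allL f l = true ↔
    ∀ a ∈ l, f a = true
  | [] => by simp [allL]
  | a :: l => by
    have ih := allL_iff (f := f) (l := l)
    have e : allL f (a :: l) = Bool.rec (motive := fun _ => Bool) false (allL f l) (f a) := rfl
    rw [e, List.forall_mem_cons, ← ih]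
    cases f a <;> simp

/-- the fine differences -/
def Fn (d : ℤ) (u w : List ℤ) (D : ℤ → ℤ) (z : ℤ) : ℤ := nz u z + comb D z + nz w (z - 2 * d)

theorem tg_targets {u w : List ℤ} : ∀ (vs : List ℤ) (g : ℤ), Agr (Fn d u w D) g vs →
    Tg D g (targets d u w g vs)
  | [], _, _ => trivial
  | v :: vs, g, h => by
    refine ⟨?_, tg_targets vs (g + 1) h.2⟩
    have := h.1
    unfold Fn at this
    omega

theorem rdt_sound {g v0 v1 : ℤ} {u w : List ℤ} (hg : g % 2 = 1) (h0 : Fn d u w D g = v0)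
    (h1 : Fn d u w D (g + 1) = v1) :
    (((8 * v0 - 3 * v1) % 55).toNat + rdt g u + rdt (g - 2 * d) w) % 55 = 0 := by
  obtain ⟨I, rfl⟩ : ∃ I, g = 2 * I + 1 := ⟨g / 2, by omega⟩
  unfold Fn at h0 h1
  rw [comb_odd] at h0
  rw [show 2 * I + 1 + 1 = 2 * (I + 1) by ring] at h1
  rw [comb_even, show I + 1 - 1 = I by ring] at h1
  unfold rdt
  rw [show 2 * I + 1 + 1 = 2 * (I + 1) by ring,
    show 2 * I + 1 - 2 * d + 1 = 2 * (I + 1) - 2 * d by ring]
  omega

theorem r3_sound {g v0 v1 : ℤ} {u w : List ℤ} (hg : g % 2 ≠ 1) (h0 : Fn d u w D g = v0)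
    (h1 : Fn d u w D (g + 1) = v1) :
    (((v0 - v1) % 3).toNat + r3 g u + r3 (g - 2 * d) w) % 3 = 0 := by
  obtain ⟨I, rfl⟩ : ∃ I, g = 2 * I := ⟨g / 2, by omega⟩
  unfold Fn at h0 h1
  rw [comb_even] at h0
  rw [comb_odd] at h1
  unfold r3
  rw [show 2 * I - 2 * d + 1 = 2 * I + 1 - 2 * d by ring]
  omega

theorem pairs_sound {S : List ℤ → List ℤ → Bool} {q q' : List ℤ → ℕ} {c m : ℕ}
    {lA lB : List (List ℤ)} (h : pairs S q q' c m lA lB = true) {u w : List ℤ} (hu : u ∈ lA)
    (hw : w ∈ lB) (h0 : (c + q u + q' w) % m = 0) : S u w = true := by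
  unfold pairs at h
  have h1 := allL_iff.1 (allL_iff.1 h u hu) w hw
  have h2 : Nat.ble 1 (Nat.mod (Nat.add (Nat.add c (q u)) (q' w)) m) = false := by
    change Nat.ble 1 ((c + q u + q' w) % m) = false
    rw [h0]
    rfl
  rw [h2] at h1
  exact h1

theorem exact_sound (h : Loc a0 a1 b0 b1 d D) {g : ℤ} {vs : List ℤ} {lA lB : List (List ℤ)}
    (he : exact a0 a1 b0 b1 d g vs lA lB = true) {u w : List ℤ} (hu : u ∈ lA) (hw : w ∈ lB)
    (hv : Agr (Fn d u w D) g vs) : False := by
  have hst : start (refute a0 a1 b0 b1 d) g (targets d u w g vs) = true → False :=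
    start_sound (fun _ _ => h.refute) h.uni (tg_targets vs g hv)
  rcases vs with _ | ⟨v0, _ | ⟨v1, _ | ⟨v2, vs⟩⟩⟩
  · simp [exact] at he
  · simp [exact] at he
  · simp only [exact] at he
    by_cases hg : g % 2 = 1
    · rw [if_pos hg] at he
      exact hst (pairs_sound he hu hw (rdt_sound hg hv.1 hv.2.1))
    · rw [if_neg hg] at he
      exact hst (pairs_sound he hu hw (r3_sound hg hv.1 hv.2.1))
  · simp only [exact] at he
    by_cases hg : g % 2 = 1
    · rw [if_pos hg] at he
      exact hst (pairs_sound he hu hw (rdt_sound hg hv.1 hv.2.1))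
    · rw [if_neg hg] at he
      exact hst (pairs_sound he hu hw (rdt_sound (by omega) hv.2.1 hv.2.2.1))

/-- patterns do not occur -/
theorem chkP_sound (h : Loc a0 a1 b0 b1 d D) (hc : chkP a0 a1 b0 b1 d = true) {A B : Grp}
    (hA : A ∈ gA a0 a1) (hB : B ∈ gB b0 b1) (hA0 : A.c0 = true) {P : Pat}
    (hP : P ∈ pat A.c1 B.c0 B.c1) (hd : P.d = 2 * d + B.o - A.o) {u w : List ℤ} (hu : u ∈ A.l)
    (hw : w ∈ B.l) (hv : Agr (Fn d u w D) (A.o + P.e) P.v) : False := by
  unfold chkP at hc
  simp only [allL_iff, Bool.or_eq_true, Bool.not_eq_true', decide_eq_true_eq] at hc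
  rcases hc A hA with hc | hc
  · rw [hA0] at hc
    simp at hc
  · rcases hc B hB P hP with hc | hc
    · exact hc hd
    · exact exact_sound h hc hu hw hv

theorem agr_replicate {f : ℤ → ℤ} : ∀ (n : ℕ) (g : ℤ), (∀ z, g ≤ z → z < g + n → f z = 0) →
    Agr f g (List.replicate n 0)
  | 0, _, _ => trivial
  | n + 1, g, h => by
    rw [List.replicate_succ]
    exact ⟨h g le_rfl (by push_cast; omega),
      agr_replicate n (g + 1) fun z h1 h2 => h z (by omega) (by push_cast; omega)⟩

theorem chkE1_sound (h : Loc a0 a1 b0 b1 d D) (hc : chkE1 a0 a1 b0 b1 d = true) {A B : Grp}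
    (hA : A ∈ gA a0 a1) (hB : B ∈ gB b0 b1) {u w : List ℤ} (hu : u ∈ A.l)
    (hw : w ∈ B.l) : ¬ Ev1 A.o (2 * d + B.o) (Fn d u w D) := by
  unfold chkE1 at hc
  simp only [allL_iff] at hc
  have hc := hc A hA B hB
  rintro (⟨h1, h2⟩ | ⟨h1, h2⟩)
  · rw [if_pos h1] at hc
    exact exact_sound h hc hu hw (agr_replicate _ _ fun z hz hz' => h2 z hz (by omega))
  · rw [if_neg (by omega), if_pos (by omega)] at hc
    exact exact_sound h hc hu hw (agr_replicate _ _ fun z hz hz' => h2 z hz (by omega))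

end LevelWords
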