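import Pool.Agent.LevelWords.Sound

/-!
# Unimodal words: soundness of the check for the second event
-/

namespace LevelWords

variable {D : ℤ → ℤ} {a0 a1 b0 b1 : Bool} {d : ℤ}

theorem nz_big {v : List ℤ} (hv : v.length = 6) {y : ℤ} (hy : 3 ≤ y) : nz v y = 0 := by
  unfold nz
  rw [if_neg (by omega), List.getD_eq_getElem?_getD, List.getElem?_eq_none (by omega)]
  rfl

theorem nz_small {v : List ℤ} {y : ℤ} (hy : y < -3) : nz v y = 0 := by
  unfold nz
  rw [if_pos (by omega)]
  rfl

theorem posOk_sound (h : Loc a0 a1 b0 b1 d D) {I : ℤ} {vs : List ℤ} (hv : AgrD D (I - 1) vs) :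
    ∀ (n : ℕ) (y : ℤ), y ≤ D I →
    posOk (refute a0 a1 b0 b1 d) (inadm a0 a1 b0 b1 d) I vs n y = true → False
  | 0, y, _, h2 => by simp [posOk] at h2
  | n + 1, y, h1, h2 => by
    simp only [posOk, Bool.or_eq_true, Bool.and_eq_true] at h2
    rcases h2 with h2 | ⟨h2, h3⟩
    · exact h.inadm (agrL_of_agrD hv h1) h2
    · rcases eq_or_lt_of_le h1 with h4 | h4
      · refine h.refute ?_ h2
        have : AgrD D I (y :: vs) := ⟨h4.symm, hv⟩
        have := agrD_reverse _ _ this
        rwa [show I - ((y :: vs).length : ℤ) + 1 = I - vs.length by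
          rw [List.length_cons]; push_cast; ring] at this
      · exact posOk_sound h hv n (y + 1) (by omega) h3

theorem runE_sound (h : Loc a0 a1 b0 b1 d D) {u w : List ℤ} :
    ∀ (n : ℕ) (odd : Bool) (I : ℤ) (vec : List ℤ) (g : ℤ), g = (if odd then 2 * I + 1 else 2 * I) →
    AgrD D I vec → (∃ y, g ≤ y ∧ y < g + n ∧ 0 < Fn d u w D y ∧
      ∀ z, g ≤ z → z < y → 0 ≤ Fn d u w D z) →
    runE (refute a0 a1 b0 b1 d) (inadm a0 a1 b0 b1 d) odd I vec (noises d u w n g) = true → False
  | 0, odd, I, vec, g, _, _, ⟨y, h1, h2, _⟩, _ => by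
    push_cast at h2
    omega
  | n + 1, true, I, [], g, _, _, _, hr => by simp [noises, runE] at hr
  | n + 1, true, I, d0 :: vs, g, hg, hA, ⟨y, h1, h2, h3, h4⟩, hr => by
    simp only [if_true] at hg
    have hF : Fn d u w D g = nz u g + (8 * d0 + 3 * D (I + 1)) + nz w (g - 2 * d) := by
      unfold Fn
      rw [hg, comb_odd, hA.1]
    simp only [noises, runE, Bool.and_eq_true] at hr
    by_cases hp : 0 < Fn d u w D g
    · refine posOk_sound h (I := I + 1) (vs := d0 :: vs) ?_ 8 _ ?_ hr.1
      · rw [show I + 1 - 1 = I by ring]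
        exact hA
      · omega
    · have hyg : g ≠ y := fun e => hp (e ▸ h3)
      have h0 : Fn d u w D g = 0 := by
        have := h4 g le_rfl (by omega)
        omega
      have hr2 := hr.2
      rw [if_pos (by omega)] at hr2
      have e1 : (-(nz u g + nz w (g - 2 * d)) - 8 * d0) / 3 = D (I + 1) := by omega
      rw [e1] at hr2
      refine runE_sound h n false (I + 1) (D (I + 1) :: d0 :: vs) (g + 1) ?_ ⟨rfl, ?_⟩
        ⟨y, by omega, by push_cast at h2; omega, h3, fun z hz hz' => h4 z (by omega) hz'⟩ hr2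
      · simp only [Bool.false_eq_true, if_false]
        omega
      · rw [show I + 1 - 1 = I by ring]
        exact hA
  | n + 1, false, I, [], g, _, _, _, hr => by simp [noises, runE] at hr
  | n + 1, false, I, [_], g, _, _, _, hr => by simp [noises, runE] at hr
  | n + 1, false, I, d0 :: d1 :: vs, g, hg, hA, ⟨y, h1, h2, h3, h4⟩, hr => by
    simp only [Bool.false_eq_true, if_false] at hg
    have hF : Fn d u w D g = nz u g + (8 * d0 + 3 * d1) + nz w (g - 2 * d) := by
      unfold Fn
      rw [hg, comb_even, hA.1, hA.2.1]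
    simp only [noises, runE, Bool.and_eq_true] at hr
    by_cases hp : 0 < Fn d u w D g
    · have hr1 := hr.1
      rw [if_pos (by omega)] at hr1
      exact h.refute (agrD_reverse _ _ hA) hr1
    · have hyg : g ≠ y := fun e => hp (e ▸ h3)
      have h0 : Fn d u w D g = 0 := by
        have := h4 g le_rfl (by omega)
        omega
      have hr2 := hr.2
      rw [if_pos (by omega)] at hr2
      refine runE_sound h n true I (d0 :: d1 :: vs) (g + 1) ?_ hA
        ⟨y, by omega, by push_cast at h2; omega, h3, fun z hz hz' => h4 z (by omega) hz'⟩ hr2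
      simp only [if_true]
      omega

theorem foldl_le {α : Type} {f : ℤ → α → ℤ} {b : ℤ} : ∀ (l : List α) (acc : ℤ), acc ≤ b →
    (∀ acc a, a ∈ l → acc ≤ b → f acc a ≤ b) → l.foldl f acc ≤ b
  | [], _, h, _ => h
  | a :: l, acc, h, hf => foldl_le l (f acc a) (hf acc a (by simp) h)
      fun acc x hx => hf acc x (List.mem_cons_of_mem _ hx)

theorem sg_cases (b : Bool) : sg b = 1 ∨ sg b = -1 := by
  cases b
  · right; rfl
  · left; rfl

theorem dl_zero {a x : ℤ} (h : a < x) : dl a x = 0 := by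
  rcases dl_cases a x with h' | h' | h' <;> omega

theorem lops_zero {l : ℤ → ℤ} (hl : l ∈ lops a0 a1) {y : ℤ} (hy : 2 ≤ y) : l y = 0 := by
  simp only [lops, List.mem_cons, List.not_mem_nil, or_false] at hl
  rcases hl with rfl | rfl | rfl | rfl
  · rfl
  · exact dl_zero (by omega)
  · simp only
    rw [dl_zero (by omega), dl_zero (by rcases sg_cases a0 with h | h <;> omega), add_zero]
  · simp only
    rw [dl_zero (by rcases sg_cases a1 with h | h <;> omega), neg_zero]

theorem rops_zero {r : ℤ → ℤ} (hr : r ∈ rops b0 b1 d) {y : ℤ} (hy : d + 2 ≤ y) : r y = 0 := by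
  simp only [rops, List.mem_cons, List.not_mem_nil, or_false] at hr
  rcases hr with rfl | rfl | rfl | rfl
  · rfl
  · exact dl_zero (by omega)
  · simp only
    rw [dl_zero (by omega), dl_zero (by rcases sg_cases b1 with h | h <;> omega), add_zero]
  · simp only
    rw [dl_zero (by rcases sg_cases b0 with h | h <;> omega), neg_zero]

theorem lb_le (h : Loc a0 a1 b0 b1 d D) {hi : ℤ} (h0 : 0 ≤ hi) (hd : d ≤ hi) {y : ℤ}
    (hy : hi + 1 ≤ y) (hD : 0 < D y) {x : ℤ} (hx : x ≤ hi + 1) : lb a0 a1 b0 b1 d hi x ≤ D x := by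
  have hx0 : 0 ≤ D x := by
    rcases eq_or_lt_of_le (hx.trans hy) with e | e
    · rw [e]; exact hD.le
    · by_contra hc
      exact h.uni x y e (by omega) hD
  unfold lb
  split_ifs with hxh
  · refine foldl_le _ _ hx0 fun acc l hl hacc => foldl_le _ _ hacc fun acc r hr hacc => ?_
    split_ifs with c1 c2
    · have := h.adm l hl r hr x y (by omega)
      simp only at this
      by_contra hc
      refine this (by omega) ?_
      rcases eq_or_lt_of_le hy with e | e
      · rw [← e] at hD ⊢
        omega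
      · rw [lops_zero hl (by omega), rops_zero hr (by omega)]
        omega
    · exact hacc
    · exact hacc
  · exact hx0

theorem chkE2_sound (h : Loc a0 a1 b0 b1 d D) (hc : chkE2 a0 a1 b0 b1 d = true) {A B : Grp}
    (hA : A ∈ gA a0 a1) (hB : B ∈ gB b0 b1) {u w : List ℤ} (hu : u ∈ A.l) (hw : w ∈ B.l)
    (hul : u.length = 6) (hwl : w.length = 6) (ho1 : -2 ≤ A.o) (ho2 : A.o ≤ 2) :
    ¬ Ev2 A.o (2 * d + B.o) (Fn d u w D) := by
  rintro ⟨e1, e2, y, e3, e4, e5⟩
  unfold chkE2 at hc
  simp only [allL_iff, Bool.or_eq_true, decide_eq_true_eq] at hc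
  rcases hc A hA B hB with hc | hc
  · exact hc e1
  have hc := hc u hu w hw
  obtain ⟨hi, hhi⟩ : ∃ hi, hi = if 0 ≤ d then d else 0 := ⟨_, rfl⟩
  rw [← hhi] at hc
  have h0 : 0 ≤ hi := by rw [hhi]; split_ifs <;> omega
  have hd : d ≤ hi := by rw [hhi]; split_ifs <;> omega
  unfold chkE2at at hc
  rw [Bool.and_eq_true, decide_eq_true_eq] at hc
  obtain ⟨hc1, hc2⟩ := hc
  obtain ⟨g, hg⟩ : ∃ g, g = A.o := ⟨_, rfl⟩
  rw [← hg] at hc1 hc2 e2 e3 ho1 ho2
  rcases le_or_gt (2 * hi + 3) y with hy | hy
  · -- thresholds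
    have hF : Fn d u w D y = comb D y := by
      unfold Fn
      rw [nz_big hul (by omega), nz_big hwl (by omega)]
      ring
    rw [hF] at e4
    obtain ⟨y', hy', hD⟩ : ∃ y', hi + 1 ≤ y' ∧ 0 < D y' := by
      rcases Int.emod_two_eq_zero_or_one y with hp | hp
      · obtain ⟨I, rfl⟩ : ∃ I, y = 2 * I := ⟨y / 2, by omega⟩
        rw [comb_even] at e4
        rcases lt_or_ge 0 (D I) with hI | hI
        · exact ⟨I, by omega, hI⟩
        · exact ⟨I - 1, by omega, by omega⟩
      · obtain ⟨I, rfl⟩ : ∃ I, y = 2 * I + 1 := ⟨y / 2, by omega⟩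
        rw [comb_odd] at e4
        rcases lt_or_ge 0 (D I) with hI | hI
        · exact ⟨I, by omega, hI⟩
        · exact ⟨I + 1, by omega, by omega⟩
    have hlb : ∀ x ≤ hi + 1, lb a0 a1 b0 b1 d hi x ≤ D x := fun x hx => lb_le h h0 hd hy' hD hx
    have hcomb : comb (lb a0 a1 b0 b1 d hi) g ≤ comb D g := by
      rcases Int.emod_two_eq_zero_or_one g with hp | hp
      · obtain ⟨I, hI⟩ : ∃ I, g = 2 * I := ⟨g / 2, by omega⟩
        rw [hI, comb_even, comb_even]
        have k1 := hlb I (by omega)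
        have k2 := hlb (I - 1) (by omega)
        omega
      · obtain ⟨I, hI⟩ : ∃ I, g = 2 * I + 1 := ⟨g / 2, by omega⟩
        rw [hI, comb_odd, comb_odd]
        have k1 := hlb I (by omega)
        have k2 := hlb (I + 1) (by omega)
        omega
    unfold Fn at e2
    omega
  · -- within the noisy range
    obtain ⟨n, hn⟩ : ∃ n, (2 * hi + 3 - g).toNat = n + 2 := ⟨(2 * hi + 3 - g).toNat - 2, by omega⟩
    rw [hn] at hc2
    simp only [noises, Bool.and_eq_true, decide_eq_true_eq] at hc2
    obtain ⟨⟨⟨⟨b1', b2⟩, b3⟩, b4⟩, hc2⟩ := hc2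
    have hF1 : 0 ≤ Fn d u w D (g + 1) := by
      rcases eq_or_lt_of_le (show g + 1 ≤ y by omega) with e | e
      · rw [e]; exact e4.le
      · exact e5 _ e
    have hyE : ∃ z, g + 1 ≤ z ∧ z < g + 1 + ((n + 1 : ℕ) : ℤ) ∧ 0 < Fn d u w D z ∧
        ∀ x, g + 1 ≤ x → x < z → 0 ≤ Fn d u w D x :=
      ⟨y, by omega, by push_cast; omega, e4, fun x _ hx => e5 x hx⟩
    by_cases hp : g % 2 = 1
    · rw [if_pos hp] at hc2
      obtain ⟨I, hI⟩ : ∃ I, g = 2 * I + 1 := ⟨g / 2, by omega⟩
      have f0 : Fn d u w D g = nz u g + (8 * D I + 3 * D (I + 1)) + nz w (g - 2 * d) := by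
        unfold Fn
        rw [hI, comb_odd]
      have f1 : Fn d u w D (g + 1) = nz u (g + 1) + (8 * D (I + 1) + 3 * D I) +
          nz w (g + 1 - 2 * d) := by
        unfold Fn
        rw [show g + 1 = 2 * (I + 1) by omega, comb_even, show I + 1 - 1 = I by ring]
      have u1 := h.uni I (I + 1) (by omega)
      rw [List.all_eq_true] at hc2
      have hx := hc2 (D I) (xs_mem (by omega) (by omega))
      have e6 : (1 - (nz u g + nz w (g - 2 * d)) - 8 * D I) / 3 = D (I + 1) := by omega
      rw [e6, show g / 2 = I by omega] at hx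
      simp only [Bool.or_eq_true, Bool.and_eq_true, decide_eq_true_eq] at hx
      rcases hx with ((hx | hx) | hx) | hx
      · omega
      · exact u1 hx.2 hx.1
      · omega
      · refine runE_sound h (n + 1) false (I + 1) [D (I + 1), D I] (g + 1) ?_
          ⟨rfl, by rw [show I + 1 - 1 = I by ring], trivial⟩ hyE hx
        simp only [Bool.false_eq_true, if_false]
        omega
    · rw [if_neg hp] at hc2
      obtain ⟨I, hI⟩ : ∃ I, g = 2 * I := ⟨g / 2, by omega⟩
      have f0 : Fn d u w D g = nz u g + (8 * D I + 3 * D (I - 1)) + nz w (g - 2 * d) := by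
        unfold Fn
        rw [hI, comb_even]
      have f1 : Fn d u w D (g + 1) = nz u (g + 1) + (8 * D I + 3 * D (I + 1)) +
          nz w (g + 1 - 2 * d) := by
        unfold Fn
        rw [show g + 1 = 2 * I + 1 by omega, comb_odd]
      have u1 := h.uni (I - 1) I (by omega)
      have u2 := h.uni I (I + 1) (by omega)
      rw [List.all_eq_true] at hc2
      have hx := hc2 (D I) (xs_mem (by omega) (by omega))
      have e6 : (1 - (nz u g + nz w (g - 2 * d)) - 8 * D I) / 3 = D (I - 1) := by omega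
      rw [e6, show g / 2 = I by omega] at hx
      simp only [Bool.or_eq_true, Bool.and_eq_true, decide_eq_true_eq] at hx
      rcases hx with ((hx | hx) | hx) | hx
      · omega
      · exact u1 hx.2 hx.1
      · omega
      · refine runE_sound h (n + 1) true I [D I, D (I - 1)] (g + 1) ?_
          ⟨rfl, rfl, trivial⟩ hyE hx
        simp only [if_true]
        omega

end LevelWords
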