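import Pool.Agent.LevelWords.Far

/-!
# Unimodal words: the substitution

`sub W` replaces every letter of `W` by a block of `44` letters. The main result is `good_sub`:
the substitution preserves the invariant `Good`, which implies that all windows are unimodal.
-/

namespace LevelWords

/-- all steps are `± 1` -/
def IsW (W : ℤ → ℤ) : Prop := ∀ t, W (t + 1) = W t + 1 ∨ W (t + 1) = W t - 1

/-- the direction of the step from `t` to `t + 1` -/
def dir (W : ℤ → ℤ) (t : ℤ) : Bool := decide (W t + 1 = W (t + 1))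

/-- the substitution -/
def sub (W : ℤ → ℤ) (t : ℤ) : ℤ :=
  2 * W (t / 44) + offs (dir W (t / 44 - 1)) (dir W (t / 44)) (t % 44).toNat

/-- the differences in the window between the letters `s` and `e`, seen from the letter `s` -/
def Lw (W : ℤ → ℤ) (s e : ℤ) : ℤ → ℤ := fun y => E W (s + 1) e (W s + y)

/-- the invariant -/
def H (W : ℤ → ℤ) : Prop := ∀ s e, s < e →
  ¬ Ev1 0 (W e - W s) (Lw W s e) ∧ ¬ Ev2 0 (W e - W s) (Lw W s e) ∧
  (dir W (s - 1) = true → ∀ P ∈ pat (dir W s) (dir W (e - 1)) (dir W e), P.d = W e - W s →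
    ¬ Agr (Lw W s e) P.e P.v)

def Good (W : ℤ → ℤ) : Prop := IsW W ∧ H W ∧ H fun t => - W t

/-- the certificate -/
structure Cert : Prop where
  w : ∀ s0 s1, chkW s0 s1 = true
  tab : ∀ s0 s1, chkTab s0 s1 = true
  b : ∀ s0 s1, chkB s0 s1 = true
  tA : ∀ s0 s1, chkT (gA s0 s1) = true
  tB : ∀ s0 s1, chkT (gB s0 s1) = true
  s2 : ∀ a0 a1 b1, chkS a0 a1 a1 b1 (sg a1) (fun _ => 0) = true
  s3 : ∀ a0 a1 b0 b1, chkS a0 a1 b0 b1 (sg a1 + sg b0) (dl (sg a1)) = true
  small : ∀ a1 b0 b1, ∀ P ∈ pat a1 b0 b1, -3 ≤ P.d ∧ P.d ≤ 3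
  p : ∀ a0 a1 b0 b1 d, -3 ≤ d → d ≤ 3 → chkP a0 a1 b0 b1 d = true
  e1 : ∀ a0 a1 b0 b1 d, -3 ≤ d → d ≤ 3 → chkE1 a0 a1 b0 b1 d = true
  e2 : ∀ a0 a1 b0 b1 d, -3 ≤ d → d ≤ 3 → chkE2 a0 a1 b0 b1 d = true

variable {W : ℤ → ℤ}

theorem IsW.step (h : IsW W) (t : ℤ) : W (t + 1) = W t + sg (dir W t) := by
  unfold dir
  rcases h t with h | h
  · rw [decide_eq_true (by omega)]
    exact h
  · rw [decide_eq_false (by omega)]
    exact h

theorem IsW.neg (h : IsW W) : IsW fun t => - W t := by
  intro t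
  have := h t
  simp only
  omega

theorem IsW.dir_neg (h : IsW W) (t : ℤ) : dir (fun t => - W t) t = !dir W t := by
  unfold dir
  rcases h t with h | h
  · rw [decide_eq_true (show W t + 1 = W (t + 1) by omega),
      decide_eq_false (show ¬ - W t + 1 = - W (t + 1) by omega)]
    rfl
  · rw [decide_eq_false (show ¬ W t + 1 = W (t + 1) by omega),
      decide_eq_true (show - W t + 1 = - W (t + 1) by omega)]
    rfl

theorem sg_not (b : Bool) : sg (!b) = - sg b := by cases b <;> rfl

theorem offs_not (s0 s1 : Bool) (r : ℕ) : offs (!s0) (!s1) r = - offs s0 s1 r := by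
  unfold offs
  rw [sg_not, show ((!s0) == !s1) = (s0 == s1) by cases s0 <;> cases s1 <;> rfl]
  ring

theorem sub_neg (h : IsW W) : sub (fun t => - W t) = fun t => - sub W t := by
  funext t
  unfold sub
  rw [h.dir_neg, h.dir_neg, offs_not]
  ring

theorem sub_eq (W : ℤ → ℤ) (p : ℤ) {r : ℕ} (hr : r < 44) :
    sub W (44 * p + r) = 2 * W p + offs (dir W (p - 1)) (dir W p) r := by
  unfold sub
  rw [show (44 * p + (r : ℤ)) / 44 = p by omega, show ((44 * p + (r : ℤ)) % 44).toNat = r by omega]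

theorem exists_pr (t : ℤ) : ∃ (p : ℤ) (r : ℕ), r < 44 ∧ t = 44 * p + r :=
  ⟨t / 44, (t % 44).toNat, by omega, by omega⟩

section block

variable (K : Cert) (s0 s1 : Bool)

include K

theorem off_step {r : ℕ} (hr : r < 43) : offs s0 s1 (r + 1) = offs s0 s1 r + 1 ∨
    offs s0 s1 (r + 1) = offs s0 s1 r - 1 := by
  have := K.w s0 s1
  unfold chkW at this
  simp only [Bool.and_eq_true, List.all_eq_true, List.mem_range, Bool.or_eq_true,
    decide_eq_true_eq] at this
  exact this.1.1.1.1 r hr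

theorem off_bd {r : ℕ} (hr : r < 44) : -2 ≤ offs s0 s1 r ∧ offs s0 s1 r ≤ 2 := by
  have := K.w s0 s1
  unfold chkW at this
  simp only [Bool.and_eq_true, List.all_eq_true, List.mem_range, Bool.or_eq_true,
    decide_eq_true_eq] at this
  exact this.1.1.1.2 r hr

theorem off_zero : offs s0 s1 0 = - sg s0 := by
  have := K.w s0 s1
  unfold chkW at this
  simp only [Bool.and_eq_true, List.all_eq_true, List.mem_range, Bool.or_eq_true,
    decide_eq_true_eq] at this
  exact this.1.1.2

theorem off_last : offs s0 s1 43 = 0 := by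
  have := K.w s0 s1
  unfold chkW at this
  simp only [Bool.and_eq_true, List.all_eq_true, List.mem_range, Bool.or_eq_true,
    decide_eq_true_eq] at this
  exact this.1.2

theorem pre_full : preV s0 s1 44 = md := by
  have := K.w s0 s1
  unfold chkW at this
  simp only [Bool.and_eq_true, List.all_eq_true, List.mem_range, Bool.or_eq_true,
    decide_eq_true_eq] at this
  exact this.2

omit K in
theorem nz_edges {f : ℤ → ℤ} (hf : ∀ y, y < -3 ∨ 2 < y → f y = 0) (y : ℤ) :
    nz (edges.map f) y = f y := by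
  rcases lt_or_ge y (-3) with h | h
  · rw [nz_small h, hf y (Or.inl h)]
  rcases le_or_gt 3 y with h' | h'
  · rw [nz_big rfl h', hf y (Or.inr (by omega))]
  have : y = -3 ∨ y = -2 ∨ y = -1 ∨ y = 0 ∨ y = 1 ∨ y = 2 := by omega
  rcases this with rfl | rfl | rfl | rfl | rfl | rfl <;> rfl

omit K in
theorem nsum_zero {f : ℕ → ℤ} : ∀ n, (∀ k < n, f k = 0) → nsum f n = 0
  | 0, _ => rfl
  | n + 1, h => by
    rw [nsum, nsum_zero n fun k hk => h k (by omega), h n (by omega), add_zero]

theorem nsum_out {r : ℕ} (hr : r ≤ 44) {y : ℤ} (hy : y < -3 ∨ 2 < y) :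
    nsum (fun k => dl (offs s0 s1 k) y) r = 0 := by
  refine nsum_zero r fun k hk => ?_
  have := off_bd K s0 s1 (show k < 44 by omega)
  rcases dl_cases (offs s0 s1 k) y with h | h | h <;> omega

theorem nz_pre {j : ℕ} (hj : j ≤ 44) (y : ℤ) :
    nz (preV s0 s1 j) y = nsum (fun k => dl (offs s0 s1 k) y) j :=
  nz_edges (f := fun y => nsum (fun k => dl (offs s0 s1 k) y) j)
    (fun _ hy => nsum_out K s0 s1 hj hy) y

theorem nz_mid {i j : ℕ} (hi : i < 44) (hj : j ≤ 44) (y : ℤ) :
    nz (midV s0 s1 i j) y = nsum (fun k => dl (offs s0 s1 k) y) j -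
      nsum (fun k => dl (offs s0 s1 k) y) (i + 1) := by
  refine nz_edges (f := fun y => nsum (fun k => dl (offs s0 s1 k) y) j -
      nsum (fun k => dl (offs s0 s1 k) y) (i + 1)) (fun y hy => ?_) y
  rw [nsum_out K s0 s1 hj hy, nsum_out K s0 s1 (by omega) hy, sub_zero]

end block

theorem comb_add (f g : ℤ → ℤ) (z : ℤ) : comb (fun x => f x + g x) z = comb f z + comb g z := by
  unfold comb
  split_ifs <;> ring

theorem comb_sub (f g : ℤ → ℤ) (z : ℤ) : comb (fun x => f x - g x) z = comb f z - comb g z := by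
  unfold comb
  split_ifs <;> ring

theorem nz_md (y : ℤ) : nz md y = comb (dl 0) y := by
  rcases lt_or_ge y (-3) with h | h
  · rw [nz_small h]
    rcases Int.emod_two_eq_zero_or_one y with hp | hp
    · obtain ⟨I, rfl⟩ : ∃ I, y = 2 * I := ⟨y / 2, by omega⟩
      rw [comb_even]
      rcases dl_cases 0 I with h' | h' | h' <;> rcases dl_cases 0 (I - 1) with h'' | h'' | h'' <;>
        omega
    · obtain ⟨I, rfl⟩ : ∃ I, y = 2 * I + 1 := ⟨y / 2, by omega⟩
      rw [comb_odd]
      rcases dl_cases 0 I with h' | h' | h' <;> rcases dl_cases 0 (I + 1) with h'' | h'' | h'' <;>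
        omega
  rcases le_or_gt 3 y with h' | h'
  · have hz : ∀ x : ℤ, 1 ≤ x → dl 0 x = 0 := fun x hx => dl_zero (by omega)
    rw [nz_big rfl h', comb_zero (z := y) hz (by omega)]
  have : y = -3 ∨ y = -2 ∨ y = -1 ∨ y = 0 ∨ y = 1 ∨ y = 2 := by omega
  rcases this with rfl | rfl | rfl | rfl | rfl | rfl <;> decide

theorem nz_md_comb (a z : ℤ) : nz md (z - 2 * a) = comb (dl a) z := by
  rw [nz_md]
  have h1 := comb_shift (D := dl a) a (z - 2 * a)
  rw [show 2 * a + (z - 2 * a) = z by ring] at h1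
  rw [h1]
  congr 1
  funext y
  have := dl_shift a 0 (a + y)
  rw [add_zero, show a + y - a = y by ring] at this
  exact this.symm

theorem C_block (W : ℤ → ℤ) (p z : ℤ) : ∀ r : ℕ, r ≤ 44 → C (sub W) z (44 * p + r) = C (sub W) z (44 * p) +
    nsum (fun k => dl (offs (dir W (p - 1)) (dir W p) k) (z - 2 * W p)) r
  | 0, _ => by simp [nsum]
  | r + 1, hr => by
    rw [show (44 * p + ((r + 1 : ℕ) : ℤ)) = 44 * p + r + 1 by push_cast; ring, C_succ,
      C_block W p z r (by omega), sub_eq W p (by omega), dl_shift, nsum]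
    ring

section window

variable (K : Cert) (W : ℤ → ℤ)

include K

theorem C_next (p z : ℤ) : C (sub W) z (44 * (p + 1)) = C (sub W) z (44 * p) +
    comb (dl (W p)) z := by
  have := C_block W p z 44 le_rfl
  rw [show (44 * (p + 1) : ℤ) = 44 * p + (44 : ℕ) by push_cast; ring, this,
    ← nz_pre K _ _ le_rfl, pre_full K, nz_md_comb]

theorem C_comb (a b z : ℤ) : C (sub W) z (44 * b) - C (sub W) z (44 * a) =
    comb (E W a b) z := by
  have key : ∀ p : ℤ, C (sub W) z (44 * p) - comb (fun x => C W x p) z =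
      C (sub W) z (44 * 0) - comb (fun x => C W x 0) z := by
    have hs : ∀ p : ℤ, C (sub W) z (44 * (p + 1)) - comb (fun x => C W x (p + 1)) z =
        C (sub W) z (44 * p) - comb (fun x => C W x p) z := by
      intro p
      have h1 : comb (fun x => C W x (p + 1)) z = comb (fun x => C W x p) z +
          comb (dl (W p)) z := by
        rw [← comb_add]
        congr 1
        funext x
        exact C_succ W x p
      rw [C_next K, h1]
      ring
    intro p
    induction p using Int.induction_on with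
    | zero => rfl
    | succ n ih => rw [hs, ih]
    | pred n ih =>
      have := hs (-(n : ℤ) - 1)
      rw [show -(n : ℤ) - 1 + 1 = -n by ring] at this
      rw [← this, ih]
  have h1 := key a
  have h2 := key b
  have h3 : comb (E W a b) z = comb (fun x => C W x b) z - comb (fun x => C W x a) z := by
    rw [← comb_sub]
    rfl
  rw [h3]
  linarith

theorem E_window (s e z : ℤ) {i j : ℕ} (hi : i < 44) (hj : j ≤ 44) :
    E (sub W) (44 * s + i + 1) (44 * e + j) z =
    nz (midV (dir W (s - 1)) (dir W s) i 44) (z - 2 * W s) + comb (E W (s + 1) e) z +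
      nz (preV (dir W (e - 1)) (dir W e) j) (z - 2 * W e) := by
  have h1 := C_block W s z (i + 1) hi
  have h2 := C_block W e z j hj
  have h3 := C_block W s z 44 le_rfl
  have h4 := C_comb K W (s + 1) e z
  rw [nz_mid K _ _ hi le_rfl, nz_pre K _ _ hj]
  rw [show (44 * (s + 1) : ℤ) = 44 * s + (44 : ℕ) by push_cast; ring, h3] at h4
  rw [show (44 * s + ((i + 1 : ℕ) : ℤ)) = 44 * s + i + 1 by push_cast; ring] at h1
  unfold E at h4 ⊢
  linarith

theorem E_same (s z : ℤ) {i j : ℕ} (hi : i < 44) (hj : j ≤ 44) :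
    E (sub W) (44 * s + i + 1) (44 * s + j) z =
    nz (midV (dir W (s - 1)) (dir W s) i j) (z - 2 * W s) := by
  have h1 := C_block W s z (i + 1) hi
  have h2 := C_block W s z j hj
  rw [nz_mid K _ _ hi hj]
  rw [show (44 * s + ((i + 1 : ℕ) : ℤ)) = 44 * s + i + 1 by push_cast; ring] at h1
  unfold E
  linarith

theorem Lw_window (s e : ℤ) {i j : ℕ} (hi : i < 44) (hj : j < 44) (y : ℤ) :
    Lw (sub W) (44 * s + i) (44 * e + j) y = Fn (W e - W s)
      (midV (dir W (s - 1)) (dir W s) i 44) (preV (dir W (e - 1)) (dir W e) j) (Lw W s e)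
      (offs (dir W (s - 1)) (dir W s) i + y) := by
  unfold Lw
  rw [sub_eq W s hi, E_window K W s e _ hi hj.le]
  unfold Fn
  rw [show 2 * W s + offs (dir W (s - 1)) (dir W s) i + y - 2 * W s =
      offs (dir W (s - 1)) (dir W s) i + y by ring,
    show 2 * W s + offs (dir W (s - 1)) (dir W s) i + y - 2 * W e =
      offs (dir W (s - 1)) (dir W s) i + y - 2 * (W e - W s) by ring,
    show 2 * W s + offs (dir W (s - 1)) (dir W s) i + y =
      2 * W s + (offs (dir W (s - 1)) (dir W s) i + y) by ring, comb_shift]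

theorem Lw_same (s : ℤ) {i j : ℕ} (hi : i < 44) (hj : j < 44) (y : ℤ) :
    Lw (sub W) (44 * s + i) (44 * s + j) y =
      nz (midV (dir W (s - 1)) (dir W s) i j) (offs (dir W (s - 1)) (dir W s) i + y) := by
  unfold Lw
  rw [sub_eq W s hi, E_same K W s _ hi hj.le]
  congr 1
  ring

end window

section isw

variable (K : Cert)

include K

theorem IsW.sub (h : IsW W) : IsW (sub W) := by
  intro t
  obtain ⟨p, r, hr, rfl⟩ := exists_pr t
  rcases lt_or_ge r 43 with h1 | h1
  · rw [show 44 * p + (r : ℤ) + 1 = 44 * p + ((r + 1 : ℕ) : ℤ) by push_cast; ring,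
      sub_eq W p hr, sub_eq W p (show r + 1 < 44 by omega)]
    have := off_step K (dir W (p - 1)) (dir W p) h1
    omega
  · have hr' : r = 43 := by omega
    subst hr'
    have e1 := sub_eq W (p + 1) (show 0 < 44 by norm_num)
    rw [show 44 * p + ((43 : ℕ) : ℤ) + 1 = 44 * (p + 1) + ((0 : ℕ) : ℤ) by push_cast; ring, e1,
      sub_eq W p hr, off_last K, off_zero K, show p + 1 - 1 = p by ring, h.step p]
    rcases sg_cases (dir W p) with h2 | h2 <;> omega

theorem dir_sub (h : IsW W) (p : ℤ) {r : ℕ} (hr : r < 44) :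
    dir (LevelWords.sub W) (44 * p + r) = dir1 (dir W (p - 1)) (dir W p) r := by
  unfold dir1
  rcases lt_or_ge r 43 with h1 | h1
  · rw [if_neg (by omega)]
    unfold dir
    rw [show 44 * p + (r : ℤ) + 1 = 44 * p + ((r + 1 : ℕ) : ℤ) by push_cast; ring,
      sub_eq W p hr, sub_eq W p (show r + 1 < 44 by omega), decide_eq_decide]
    unfold dir
    omega
  · have hr' : r = 43 := by omega
    subst hr'
    rw [if_pos rfl]
    have e1 := sub_eq W (p + 1) (show 0 < 44 by norm_num)
    have e0 : dir (LevelWords.sub W) (44 * p + ((43 : ℕ) : ℤ)) =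
        decide (2 * W p + 1 = 2 * W p + sg (dir W p)) := by
      change decide (LevelWords.sub W (44 * p + ((43 : ℕ) : ℤ)) + 1 =
        LevelWords.sub W (44 * p + ((43 : ℕ) : ℤ) + 1)) = _
      rw [show 44 * p + ((43 : ℕ) : ℤ) + 1 = 44 * (p + 1) + ((0 : ℕ) : ℤ) by push_cast; ring, e1,
        sub_eq W p hr, off_last K, off_zero K, show p + 1 - 1 = p by ring, h.step p,
        decide_eq_decide]
      omega
    rw [e0]
    cases dir W p
    · rw [decide_eq_false]
      change ¬ 2 * W p + 1 = 2 * W p + -1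
      omega
    · rw [decide_eq_true]
      rfl

theorem dir_sub_pred (h : IsW W) (p : ℤ) {r : ℕ} (hr : r < 44) :
    dir (LevelWords.sub W) (44 * p + r - 1) = dir0 (dir W (p - 1)) (dir W p) r := by
  rcases r with _ | r
  · rw [show 44 * p + ((0 : ℕ) : ℤ) - 1 = 44 * (p - 1) + ((43 : ℕ) : ℤ) by push_cast; ring,
      dir_sub K h (p - 1) (by norm_num)]
    rfl
  · rw [show 44 * p + ((r + 1 : ℕ) : ℤ) - 1 = 44 * p + (r : ℤ) by push_cast; ring,
      dir_sub K h p (by omega)]
    unfold dir1 dir0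
    rw [if_neg (by omega)]

end isw

end LevelWords
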